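import Mathlib
import Pool.Agent.CB.CIBasic

/-!
# Base change of ideals along a field extension
-/

set_option autoImplicit false
set_option linter.all false

noncomputable section

namespace Pool.Agent.EGH51

open Module MvPolynomial Pool.Agent.CB

variable {K L : Type*} [Field K] [Field L] [Algebra K L] {n : ℕ} {ι : Type*}

/-- extension of scalars -/
abbrev ext (K L : Type*) [Field K] [Field L] [Algebra K L] (n : ℕ) :
    MvPolynomial (Fin n) K →+* MvPolynomial (Fin n) L := MvPolynomial.map (algebraMap K L)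

/-- coefficientwise coordinate -/
def cf (b : Basis ι K L) (i : ι) (f : MvPolynomial (Fin n) L) : MvPolynomial (Fin n) K :=
  ∑ m ∈ f.support, monomial m (b.coord i (coeff m f))

lemma coeff_cf (b : Basis ι K L) (i : ι) (f : MvPolynomial (Fin n) L) (m : Fin n →₀ ℕ) :
    coeff m (cf b i f) = b.coord i (coeff m f) := by
  classical
  rw [cf, coeff_sum]
  simp only [coeff_monomial]
  rw [Finset.sum_ite_eq']
  split_ifs with h
  · rfl
  · rw [notMem_support_iff.1 h, map_zero]

lemma cf_add (b : Basis ι K L) (i : ι) (f g : MvPolynomial (Fin n) L) :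
    cf b i (f + g) = cf b i f + cf b i g := by
  ext m
  rw [coeff_add, coeff_cf, coeff_cf, coeff_cf, coeff_add, map_add]

lemma cf_zero (b : Basis ι K L) (i : ι) : cf b i (0 : MvPolynomial (Fin n) L) = 0 := by
  ext m
  rw [coeff_cf, coeff_zero, coeff_zero, map_zero]

lemma cf_sum (b : Basis ι K L) (i : ι) {κ : Type*} (s : Finset κ)
    (f : κ → MvPolynomial (Fin n) L) : cf b i (∑ k ∈ s, f k) = ∑ k ∈ s, cf b i (f k) := by
  classical
  induction s using Finset.induction_on with
  | empty => rw [Finset.sum_empty, Finset.sum_empty, cf_zero]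
  | insert a s ha ih => rw [Finset.sum_insert ha, Finset.sum_insert ha, cf_add, ih]

lemma cf_map_mul (b : Basis ι K L) (i : ι) (g : MvPolynomial (Fin n) K)
    (f : MvPolynomial (Fin n) L) : cf b i (ext K L n g * f) = g * cf b i f := by
  ext m
  rw [coeff_cf, coeff_mul, coeff_mul, map_sum]
  refine Finset.sum_congr rfl fun x _ => ?_
  rw [coeff_map, coeff_cf, ← Algebra.smul_def, map_smul, smul_eq_mul]

/-- reconstruction of a polynomial from its coordinates -/
lemma eq_sum_cf (b : Basis ι K L) (f : MvPolynomial (Fin n) L) :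
    ∃ s : Finset ι, f = ∑ i ∈ s, C (b i) * ext K L n (cf b i f) := by
  classical
  refine ⟨f.support.biUnion fun m => (b.repr (coeff m f)).support, ?_⟩
  ext m
  rw [coeff_sum]
  simp only [coeff_C_mul, coeff_map, coeff_cf]
  by_cases hm : m ∈ f.support
  · have h1 : coeff m f = ∑ i ∈ (b.repr (coeff m f)).support, (b.coord i (coeff m f)) • b i := by
      conv_lhs => rw [← b.linearCombination_repr (coeff m f), Finsupp.linearCombination_apply,
        Finsupp.sum]
      rfl
    conv_lhs => rw [h1]
    apply Finset.sum_subset_zero_on_sdiff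
    · intro i hi
      exact Finset.mem_biUnion.2 ⟨m, hm, hi⟩
    · intro i hi
      have h2 : b.coord i (coeff m f) = 0 := by
        rw [Finset.mem_sdiff] at hi
        exact Finsupp.notMem_support_iff.1 hi.2
      rw [h2, map_zero, mul_zero]
    · intro i _
      rw [Algebra.smul_def, mul_comm]
  · rw [notMem_support_iff.1 hm]
    simp

lemma cf_C_mul_ext (b : Basis ι K L) (i : ι) (x : L) (g : MvPolynomial (Fin n) K) :
    cf b i (C x * ext K L n g) = C (b.coord i x) * g := by
  ext m
  rw [coeff_cf, coeff_C_mul, coeff_map, coeff_C_mul, mul_comm x, ← Algebra.smul_def, map_smul,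
    smul_eq_mul, mul_comm]

lemma cf_C_mul_mem (b : Basis ι K L) (J : Ideal (MvPolynomial (Fin n) K)) (x : L)
    {f : MvPolynomial (Fin n) L} (h : ∀ i, cf b i f ∈ J) (i : ι) : cf b i (C x * f) ∈ J := by
  obtain ⟨s, hs⟩ := eq_sum_cf b f
  rw [hs, Finset.mul_sum, cf_sum]
  refine Ideal.sum_mem _ fun k _ => ?_
  rw [← mul_assoc, ← C_mul, cf_C_mul_ext]
  exact J.mul_mem_left _ (h k)

lemma mem_ext_iff (b : Basis ι K L) (J : Ideal (MvPolynomial (Fin n) K))
    (f : MvPolynomial (Fin n) L) : f ∈ J.map (ext K L n) ↔ ∀ i, cf b i f ∈ J := by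
  constructor
  · intro hf
    rw [Ideal.map] at hf
    refine Submodule.span_induction (p := fun f _ => ∀ i, cf b i f ∈ J) ?_ ?_ ?_ ?_ hf
    · rintro _ ⟨g, hg, rfl⟩ i
      rw [← mul_one (ext K L n g), cf_map_mul]
      exact J.mul_mem_right _ hg
    · intro i
      rw [cf_zero]
      exact J.zero_mem
    · intro x y _ _ hx hy i
      rw [cf_add]
      exact J.add_mem (hx i) (hy i)
    · intro a x _ hx i
      rw [smul_eq_mul]
      obtain ⟨s, hs⟩ := eq_sum_cf b a
      rw [hs, Finset.sum_mul, cf_sum]
      refine Ideal.sum_mem _ fun k _ => ?_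
      rw [mul_assoc]
      refine cf_C_mul_mem b J _ (fun j => ?_) i
      rw [cf_map_mul]
      exact J.mul_mem_left _ (hx j)
  · intro h
    obtain ⟨s, hs⟩ := eq_sum_cf b f
    rw [hs]
    exact Ideal.sum_mem _ fun i _ => Ideal.mul_mem_left _ _ (Ideal.mem_map_of_mem _ (h i))

lemma cf_homComp (b : Basis ι K L) (i : ι) (f : MvPolynomial (Fin n) L) (d : ℕ) :
    cf b i (homogeneousComponent d f) = homogeneousComponent d (cf b i f) := by
  ext m
  rw [coeff_cf, coeff_homogeneousComponent, coeff_homogeneousComponent, coeff_cf]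
  split_ifs
  · rfl
  · rw [map_zero]

theorem HI_ext {J : Ideal (MvPolynomial (Fin n) K)} (hJ : HI J) : HI (J.map (ext K L n)) := by
  intro f hf d
  obtain ⟨s, ⟨b⟩⟩ := Basis.exists_basis K L
  rw [mem_ext_iff b] at hf ⊢
  intro i
  rw [cf_homComp]
  exact hJ _ (hf i) d

theorem sat_ext {J : Ideal (MvPolynomial (Fin n) K)}
    (hsat : ∀ f : MvPolynomial (Fin n) K,
        (∃ N : ℕ, ∀ i : Fin n, MvPolynomial.X i ^ N * f ∈ J) → f ∈ J)
    (f : MvPolynomial (Fin n) L)
    (hf : ∃ N : ℕ, ∀ i : Fin n, MvPolynomial.X i ^ N * f ∈ J.map (ext K L n)) :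
    f ∈ J.map (ext K L n) := by
  obtain ⟨s, ⟨b⟩⟩ := Basis.exists_basis K L
  obtain ⟨N, hN⟩ := hf
  rw [mem_ext_iff b]
  intro i
  apply hsat
  refine ⟨N, fun k => ?_⟩
  have h1 := (mem_ext_iff b J _).1 (hN k) i
  have h2 : (X k : MvPolynomial (Fin n) L) ^ N = ext K L n (X k ^ N) := by
    rw [map_pow, map_X]
  rw [h2, cf_map_mul] at h1
  exact h1

/-- the dimension is preserved -/
lemma finrank_ext (b : Basis ι K L) (V : Submodule K (MvPolynomial (Fin n) K))
    [FiniteDimensional K V] (W : Submodule L (MvPolynomial (Fin n) L))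
    (hW : ∀ f, f ∈ W ↔ ∀ i, cf b i f ∈ V) : finrank L W = finrank K V := by
  classical
  let e := finBasis K V
  have hmem : ∀ k, ext K L n (e k : MvPolynomial (Fin n) K) ∈ W := by
    intro k
    rw [hW]
    intro i
    rw [← one_mul (ext K L n _), ← C_1, cf_C_mul_ext, ← smul_eq_C_mul]
    exact V.smul_mem _ (e k).2
  let e' : Fin (finrank K V) → W := fun k => ⟨_, hmem k⟩
  have hli : LinearIndependent L e' := by
    rw [Fintype.linearIndependent_iff]
    intro g hg k
    have h1 : ∑ k, C (g k) * ext K L n (e k : MvPolynomial (Fin n) K) = 0 := by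
      have := congrArg Subtype.val hg
      simp only [Submodule.coe_sum, Submodule.coe_smul, smul_eq_C_mul, Submodule.coe_zero] at this
      exact this
    have h2 : ∀ i, b.coord i (g k) = 0 := by
      intro i
      have h3 := congrArg (cf b i) h1
      rw [cf_sum, cf_zero] at h3
      have h5 : ∀ k, cf b i (C (g k) * ext K L n (e k : MvPolynomial (Fin n) K)) =
          b.coord i (g k) • (e k : MvPolynomial (Fin n) K) := by
        intro k
        rw [cf_C_mul_ext, smul_eq_C_mul]
      rw [Finset.sum_congr rfl fun k _ => h5 k] at h3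
      have h4 : ∑ k, b.coord i (g k) • e k = 0 := by
        apply Subtype.ext
        simp only [Submodule.coe_sum, Submodule.coe_smul, Submodule.coe_zero]
        exact h3
      exact Fintype.linearIndependent_iff.1 e.linearIndependent _ h4 k
    exact b.ext_elem fun i => by
      rw [map_zero]
      exact h2 i
  have hsp : ⊤ ≤ Submodule.span L (Set.range e') := by
    rintro ⟨f, hf⟩ _
    have hf' := (hW f).1 hf
    obtain ⟨s, hs⟩ := eq_sum_cf b f
    have h1 : ∀ i, ∃ c : Fin (finrank K V) → K,
        cf b i f = ∑ k, c k • (e k : MvPolynomial (Fin n) K) := by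
      intro i
      refine ⟨fun k => e.repr ⟨_, hf' i⟩ k, ?_⟩
      have := congrArg Subtype.val (e.sum_repr ⟨_, hf' i⟩)
      simp only [Submodule.coe_sum, Submodule.coe_smul] at this
      exact this.symm
    choose c hc using h1
    rw [Submodule.mem_span_range_iff_exists_fun]
    refine ⟨fun k => ∑ i ∈ s, b i * algebraMap K L (c i k), ?_⟩
    apply Subtype.ext
    simp only [Submodule.coe_sum, Submodule.coe_smul]
    rw [hs]
    simp only [hc, map_sum, Finset.mul_sum, Finset.sum_smul, e']
    rw [Finset.sum_comm]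
    refine Finset.sum_congr rfl fun i _ => Finset.sum_congr rfl fun k _ => ?_
    rw [smul_eq_C_mul, smul_eq_C_mul, C_mul, mul_assoc]
    congr 1
    rw [map_mul, MvPolynomial.map_C]
  have h3 := finrank_eq_card_basis (Basis.mk hli hsp)
  rw [Fintype.card_fin] at h3
  exact h3

theorem hd_ext {J : Ideal (MvPolynomial (Fin n) K)} (hJ : HI J) (d : ℕ) :
    hd (J.map (ext K L n)) d = hd J d := by
  obtain ⟨s, ⟨b⟩⟩ := Basis.exists_basis K L
  have hh : ∀ f : MvPolynomial (Fin n) L, f ∈ homogeneousSubmodule (Fin n) L d ↔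
      ∀ i, cf b i f ∈ homogeneousSubmodule (Fin n) K d := by
    intro f
    constructor
    · intro hf i
      have h1 : homogeneousComponent d f = f := homogeneousComponent_eq_self hf
      rw [← h1, cf_homComp]
      exact homogeneousComponent_isHomogeneous _ _
    · intro h
      obtain ⟨s, hs⟩ := eq_sum_cf b f
      rw [hs]
      refine Submodule.sum_mem _ fun i _ => ?_
      rw [← smul_eq_C_mul]
      refine Submodule.smul_mem _ _ ?_
      exact (h i).map _
  have h1 : finrank L (homogeneousSubmodule (Fin n) L d) =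
      finrank K (homogeneousSubmodule (Fin n) K d) := finrank_ext b _ _ hh
  have h2 : finrank L (Jn (J.map (ext K L n)) d) = finrank K (Jn J d) := by
    apply finrank_ext b
    intro f
    constructor
    · rintro ⟨h3, h4⟩ i
      exact ⟨(mem_ext_iff b J f).1 h3 i, (hh f).1 h4 i⟩
    · intro h
      exact ⟨(mem_ext_iff b J f).2 fun i => (h i).1, (hh f).2 fun i => (h i).2⟩
  have h3 := hd_add J d
  have h4 := hd_add (J.map (ext K L n)) d
  omega

end Pool.Agent.EGH51
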