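import Mathlib
import Pool.Agent.CB.CIThm
import Pool.Agent.CB.CIHeight

/-!
# Eisenbud-Green-Harris for quadrics: definitions

`S = K[x_1, …, x_N]`, quadrics `u k`.  `P = K[s_1, …, s_N]` and the matrices `gm u a` over `P`
(indexed by subsets of `Fin N`) generate the graded Clifford algebra of `∑ s_k u_k`.
-/

set_option autoImplicit false
set_option linter.all false

noncomputable section

namespace Pool.Agent.EGH51

open Module MvPolynomial Pool.Agent.CB

section Fun

variable {K : Type*} [Field K] {N : ℕ}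

/-- coefficient of `x_a x_b` -/
def qc (f : MvPolynomial (Fin N) K) (a b : Fin N) : K :=
  coeff (Finsupp.single a 1 + Finsupp.single b 1) f

variable {R : Type*} [Ring R] [Algebra K R]

/-- the relations equivalent to `(∑ x_a g_a)² = ∑ u_k s_k` -/
structure Rel {κ : Type*} [Fintype κ] (u : κ → MvPolynomial (Fin N) K) (g : Fin N → R)
    (s : κ → R) : Prop where
  sq : ∀ a, g a * g a = ∑ k, qc (u k) a a • s k
  anti : ∀ a b, a ≠ b → g a * g b + g b * g a = ∑ k, qc (u k) a b • s k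

/-- `(Dop g F) f = ∑ a, F (x_a f) g_a` -/
def Dop (g : Fin N → R) :
    (MvPolynomial (Fin N) K →ₗ[K] R) →ₗ[K] (MvPolynomial (Fin N) K →ₗ[K] R) where
  toFun F := ∑ a, (LinearMap.mulRight K (g a)) ∘ₗ F ∘ₗ (LinearMap.mulLeft K (X a))
  map_add' F G := by
    rw [← Finset.sum_add_distrib]
    refine Finset.sum_congr rfl fun a _ => ?_
    rw [LinearMap.add_comp, LinearMap.comp_add]
  map_smul' c F := by
    rw [RingHom.id_apply, Finset.smul_sum]
    refine Finset.sum_congr rfl fun a _ => ?_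
    rw [LinearMap.smul_comp, LinearMap.comp_smul]

lemma Dop_apply (g : Fin N → R) (F : MvPolynomial (Fin N) K →ₗ[K] R)
    (f : MvPolynomial (Fin N) K) : Dop g F f = ∑ a, F (X a * f) * g a := by
  simp [Dop, LinearMap.sum_apply]

/-- functionals of degree `i` with values in `T` vanishing on `I` -/
def HH (I : Ideal (MvPolynomial (Fin N) K)) (i : ℕ) (T : Submodule K R) :
    Submodule K (MvPolynomial (Fin N) K →ₗ[K] R) where
  carrier := {F | (∀ f ∈ I, F f = 0) ∧ (∀ j, j ≠ i → ∀ f, f.IsHomogeneous j → F f = 0) ∧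
    ∀ f, F f ∈ T}
  add_mem' := by
    rintro F G ⟨a1, a2, a3⟩ ⟨b1, b2, b3⟩
    exact ⟨fun f hf => by rw [LinearMap.add_apply, a1 f hf, b1 f hf, add_zero],
      fun j hj f hf => by rw [LinearMap.add_apply, a2 j hj f hf, b2 j hj f hf, add_zero],
      fun f => T.add_mem (a3 f) (b3 f)⟩
  zero_mem' := ⟨fun _ _ => rfl, fun _ _ _ _ => rfl, fun _ => T.zero_mem⟩
  smul_mem' := by
    rintro c F ⟨a1, a2, a3⟩
    exact ⟨fun f hf => by rw [LinearMap.smul_apply, a1 f hf, smul_zero],
      fun j hj f hf => by rw [LinearMap.smul_apply, a2 j hj f hf, smul_zero],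
      fun f => T.smul_mem c (a3 f)⟩

lemma mem_HH {I : Ideal (MvPolynomial (Fin N) K)} {i : ℕ} {T : Submodule K R}
    {F : MvPolynomial (Fin N) K →ₗ[K] R} : F ∈ HH I i T ↔ (∀ f ∈ I, F f = 0) ∧
      (∀ j, j ≠ i → ∀ f, f.IsHomogeneous j → F f = 0) ∧ ∀ f, F f ∈ T := Iff.rfl

/-- functionals of degree `i` with values in a division ring vanishing on `I`, as a left vector space -/
def HD (𝔇 : Type*) [DivisionRing 𝔇] [Algebra K 𝔇] (I : Ideal (MvPolynomial (Fin N) K)) (i : ℕ) :
    Submodule 𝔇 (MvPolynomial (Fin N) K →ₗ[K] 𝔇) where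
  carrier := {F | (∀ f ∈ I, F f = 0) ∧ (∀ j, j ≠ i → ∀ f, f.IsHomogeneous j → F f = 0)}
  add_mem' := by
    rintro F G ⟨a1, a2⟩ ⟨b1, b2⟩
    exact ⟨fun f hf => by rw [LinearMap.add_apply, a1 f hf, b1 f hf, add_zero],
      fun j hj f hf => by rw [LinearMap.add_apply, a2 j hj f hf, b2 j hj f hf, add_zero]⟩
  zero_mem' := ⟨fun _ _ => rfl, fun _ _ _ _ => rfl⟩
  smul_mem' := by
    rintro c F ⟨a1, a2⟩
    exact ⟨fun f hf => by rw [LinearMap.smul_apply, a1 f hf, smul_zero],
      fun j hj f hf => by rw [LinearMap.smul_apply, a2 j hj f hf, smul_zero]⟩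

lemma mem_HD {𝔇 : Type*} [DivisionRing 𝔇] [Algebra K 𝔇] {I : Ideal (MvPolynomial (Fin N) K)}
    {i : ℕ} {F : MvPolynomial (Fin N) K →ₗ[K] 𝔇} : F ∈ HD 𝔇 I i ↔ (∀ f ∈ I, F f = 0) ∧
      (∀ j, j ≠ i → ∀ f, f.IsHomogeneous j → F f = 0) := Iff.rfl

/-- `N` quadrics in `N` variables forming a regular sequence in every order -/
structure Quad (u : Fin N → MvPolynomial (Fin N) K) : Prop where
  hom : ∀ k, (u k).IsHomogeneous 2
  nzd : ∀ k, NZD (Ideal.span (u '' {k}ᶜ)) (u k)
  hf : ∀ i, hd (Ideal.span (Set.range u)) i = N.choose i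

end Fun

section Mat

variable {K : Type*} [Field K] {N : ℕ}

/-- the linear form `∑_k (coefficient of x_a x_b in u_k) s_k` -/
def qq (u : Fin N → MvPolynomial (Fin N) K) (a b : Fin N) : MvPolynomial (Fin N) K :=
  ∑ k, qc (u k) a b • (X k : MvPolynomial (Fin N) K)

/-- sign of the creation of `a` -/
def sgn (a : Fin N) (I : Finset (Fin N)) : MvPolynomial (Fin N) K :=
  (-1) ^ (I.filter (· < a)).card

variable (K N) in
/-- the matrices -/
abbrev Mt : Type _ := Matrix (Finset (Fin N)) (Finset (Fin N)) (MvPolynomial (Fin N) K)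

/-- creation -/
def cre (a : Fin N) : Mt K N :=
  Matrix.of fun I J => if a ∈ I ∧ J = I.erase a then sgn a J else 0

/-- annihilation -/
def anh (a : Fin N) : Mt K N :=
  Matrix.of fun I J => if a ∉ I ∧ J = insert a I then sgn a I else 0

/-- the generators of the graded Clifford algebra -/
def gm (u : Fin N → MvPolynomial (Fin N) K) (a : Fin N) : Mt K N :=
  cre a + ∑ b ∈ Finset.univ.filter (fun b => a ≤ b), qq u a b • anh b

/-- matrices which are homogeneous of degree `n` -/
def GR (K : Type*) [Field K] (N n : ℕ) : Submodule K (Mt K N) where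
  carrier := {z | ∀ I J m, coeff m (z I J) ≠ 0 → 2 * Finsupp.degree m + I.card = n + J.card}
  add_mem' := by
    intro z w hz hw I J m h
    by_cases h1 : coeff m (z I J) = 0
    · by_cases h2 : coeff m (w I J) = 0
      · exfalso
        apply h
        rw [Matrix.add_apply, coeff_add, h1, h2, add_zero]
      · exact hw I J m h2
    · exact hz I J m h1
  zero_mem' := by
    intro I J m h
    exact absurd (by rw [Matrix.zero_apply, coeff_zero]) h
  smul_mem' := by
    intro c z hz I J m h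
    apply hz I J m
    intro h1
    apply h
    rw [Matrix.smul_apply, coeff_smul, h1, smul_zero]

/-- the words `s^α γ_{l_1} ⋯ γ_{l_r}` -/
def word (u : Fin N → MvPolynomial (Fin N) K) (α : Fin N →₀ ℕ) (l : List (Fin N)) : Mt K N :=
  (monomial α (1 : K)) • (l.map (gm u)).prod

/-- degree `n` part of the Clifford algebra -/
def AG (u : Fin N → MvPolynomial (Fin N) K) (n : ℕ) : Submodule K (Mt K N) :=
  Submodule.span K {z | ∃ α l, 2 * Finsupp.degree α + l.length = n ∧ z = word u α l}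

/-- the annihilator of `a` in degree `n` -/
def MM (u : Fin N → MvPolynomial (Fin N) K) (a : Mt K N) (n : ℕ) : Submodule K (Mt K N) :=
  AG u n ⊓ LinearMap.ker (LinearMap.mulLeft K a)

lemma mem_MM {u : Fin N → MvPolynomial (Fin N) K} {a : Mt K N} {n : ℕ} {z : Mt K N} :
    z ∈ MM u a n ↔ z ∈ AG u n ∧ a * z = 0 := Iff.rfl

end Mat

universe v

/-- the Clifford algebra (all degrees) as a `K`-subalgebra of the matrices -/
def AA {K : Type v} [Field K] {N : ℕ} (u : Fin N → MvPolynomial (Fin N) K) :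
    Subalgebra K (Mt K N) :=
  (Algebra.adjoin (MvPolynomial (Fin N) K) (Set.range (gm u))).restrictScalars K

theorem gm_mem_AA {K : Type v} [Field K] {N : ℕ} (u : Fin N → MvPolynomial (Fin N) K)
    (a : Fin N) : gm u a ∈ AA u :=
  Algebra.subset_adjoin ⟨a, rfl⟩

theorem smul_mem_AA {K : Type v} [Field K] {N : ℕ} (u : Fin N → MvPolynomial (Fin N) K)
    (p : MvPolynomial (Fin N) K) {z : Mt K N} (hz : z ∈ AA u) : p • z ∈ AA u :=
  (Algebra.adjoin (MvPolynomial (Fin N) K) (Set.range (gm u))).smul_mem hz p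

/-- `n` anticommuting copies of the Clifford relations in a division ring -/
structure SlotsIn {K : Type v} [Field K] {n : ℕ} (u : Fin n → MvPolynomial (Fin n) K)
    (𝔇 : Type v) [DivisionRing 𝔇] [Algebra K 𝔇] (g : Fin n → Fin n → 𝔇)
    (s : Fin n → Fin n → 𝔇) : Prop where
  rel : ∀ i, Rel u (g i) (s i)
  anti : ∀ i j, i ≠ j → ∀ a b, g i a * g j b + g j b * g i a = 0
  ne : ∀ F : (Fin n → Fin n) → K, F ≠ 0 → ∑ t, F t • (List.ofFn fun i => g i (t i)).prod ≠ 0

/-- composition of the operators `Dop (g i)`, `i` in the list, head first -/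
def DL {K : Type v} [Field K] {n : ℕ} {𝔇 : Type v} [DivisionRing 𝔇] [Algebra K 𝔇]
    (g : Fin n → Fin n → 𝔇) (l : List (Fin n)) (F : MvPolynomial (Fin n) K →ₗ[K] 𝔇) :
    MvPolynomial (Fin n) K →ₗ[K] 𝔇 :=
  l.foldl (fun G i => Dop (g i) G) F

/-- evaluation of a functional of degree `k` on the products of `k` operators -/
def ev {K : Type v} [Field K] {n : ℕ} {𝔇 : Type v} [DivisionRing 𝔇] [Algebra K 𝔇]
    (g : Fin n → Fin n → 𝔇) (k : ℕ) (F : MvPolynomial (Fin n) K →ₗ[K] 𝔇) :
    Finset (Fin n) → 𝔇 :=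
  fun U => if U.card = k then (DL g (U.sort (· ≤ ·)) F) 1 else 0

end Pool.Agent.EGH51
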