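import Mathlib
import Pool.Agent.EGH51.Defs

/-!
# Module DIMS: number of monomials

PROOF.  The monomials of degree `n` form a basis of `homogeneousSubmodule` (`homogeneousSubmodule_eq_finsupp_supported`, `Finsupp.supported`); they are counted
by `Finset.card_piAntidiag` / `Sym.card_sym_eq_choose` / `Sym.card_sym_fin_eq_multichoose` / `Nat.multichoose_eq` (multisets of size `n` in `Fin N`).
-/

set_option autoImplicit false
set_option linter.all false

noncomputable section

namespace Pool.Agent.EGH51

open Module MvPolynomial Pool.Agent.CB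

private lemma dimS_set {N : ℕ} (n : ℕ) :
    {d : Fin N →₀ ℕ | d.degree = n} = ((Finset.univ : Finset (Fin N)).finsuppAntidiag n : Set (Fin N →₀ ℕ)) := by
  ext d
  simp only [Set.mem_setOf_eq, Finset.mem_coe, Finset.mem_finsuppAntidiag]
  constructor
  · intro h
    refine ⟨?_, Finset.subset_univ _⟩
    rw [← h, Finsupp.degree_eq_sum]
  · rintro ⟨h, -⟩
    rw [← h, Finsupp.degree_eq_sum]

theorem finrank_hom (K : Type*) [Field K] {N : ℕ} (hN : 1 ≤ N) (n : ℕ) :
    finrank K (homogeneousSubmodule (Fin N) K n) = (n + N - 1).choose (N - 1) := by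
  have h1 : homogeneousSubmodule (Fin N) K n
      = AddMonoidAlgebra.supported K K {d : Fin N →₀ ℕ | d.degree = n} :=
    homogeneousSubmodule_eq_finsupp_supported _ _ _
  rw [h1, dimS_set, LinearEquiv.finrank_eq (AddMonoidAlgebra.supportedEquivFinsupp _),
    Module.finrank_finsupp_self]
  simp only [Finset.coe_sort_coe, Fintype.card_coe]
  rw [Finset.card_finsuppAntidiag_nat_eq_multichoose, Nat.multichoose_eq, Finset.card_univ,
    Fintype.card_fin]
  rw [show N + n - 1 = n + N - 1 by omega]
  rw [← Nat.choose_symm (show n ≤ n + N - 1 by omega)]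
  congr 1
  omega

end Pool.Agent.EGH51
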