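import Mathlib
import Pool.Agent.CB.MainK1

/-!
# Restriction of an ideal to the hyperplane `lf a = 0`
-/

set_option autoImplicit false
set_option linter.all false

noncomputable section

namespace Pool.Agent.EGH51

open Module MvPolynomial Pool.Agent.CB

variable {K : Type*} [Field K] {c : ℕ}

lemma rho_homComp (a : Fin (c + 1) → K) (j : Fin (c + 1)) (i : ℕ)
    (f : MvPolynomial (Fin (c + 1)) K) :
    rho a j (homogeneousComponent i f) = homogeneousComponent i (rho a j f) := by
  conv_rhs => rw [← sum_homogeneousComponent f, map_sum, map_sum]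
  by_cases hi : i ∈ Finset.range (f.totalDegree + 1)
  · rw [Finset.sum_eq_single_of_mem i hi]
    · exact (homogeneousComponent_eq_self (rho_hom a j
        (homogeneousComponent_isHomogeneous i f))).symm
    · intro m _ hm
      rw [homogeneousComponent_of_mem ((mem_homogeneousSubmodule _ _).2 (rho_hom a j
        (homogeneousComponent_isHomogeneous m f))), if_neg (Ne.symm hm)]
  · have h0 : homogeneousComponent i f = 0 := by
      apply homogeneousComponent_eq_zero
      simp only [Finset.mem_range, not_lt] at hi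
      omega
    rw [h0, map_zero]
    symm
    refine Finset.sum_eq_zero fun m hm => ?_
    rw [homogeneousComponent_of_mem ((mem_homogeneousSubmodule _ _).2 (rho_hom a j
        (homogeneousComponent_isHomogeneous m f))), if_neg]
    rintro rfl
    exact hi hm

lemma rho_surj (a : Fin (c + 1) → K) (j : Fin (c + 1)) : Function.Surjective (rho a j) :=
  fun u => ⟨iot j u, rho_iot a j u⟩

lemma HI_map_rho (a : Fin (c + 1) → K) (j : Fin (c + 1)) {I : Ideal (MvPolynomial (Fin (c + 1)) K)}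
    (hI : HI I) : HI (I.map (rho a j)) := by
  intro g hg n
  obtain ⟨f, hf, rfl⟩ := (Ideal.mem_map_iff_of_surjective _ (rho_surj a j)).1 hg
  rw [← rho_homComp]
  exact Ideal.mem_map_of_mem _ (hI f hf n)

lemma map_Jn (a : Fin (c + 1) → K) (j : Fin (c + 1)) {I : Ideal (MvPolynomial (Fin (c + 1)) K)}
    (hI : HI I) (i : ℕ) : (Jn I i).map (rho a j).toLinearMap = Jn (I.map (rho a j)) i := by
  apply le_antisymm
  · rintro _ ⟨f, ⟨hf, hf2⟩, rfl⟩
    exact ⟨Ideal.mem_map_of_mem _ hf, rho_hom a j hf2⟩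
  · rintro g ⟨hg, hg2⟩
    obtain ⟨f, hf, hfg⟩ := (Ideal.mem_map_iff_of_surjective _ (rho_surj a j)).1 hg
    refine ⟨homogeneousComponent i f, ⟨hI f hf i, homogeneousComponent_isHomogeneous i f⟩, ?_⟩
    change rho a j (homogeneousComponent i f) = g
    rw [rho_homComp, hfg]
    exact homogeneousComponent_eq_self hg2

lemma inf_ker (a : Fin (c + 1) → K) (j : Fin (c + 1)) (ha : a j ≠ 0)
    {I : Ideal (MvPolynomial (Fin (c + 1)) K)} (hl : lf a ∈ I) (i : ℕ) :
    Jn I i ⊓ LinearMap.ker (rho a j).toLinearMap =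
      Jn ⊤ i ⊓ LinearMap.ker (rho a j).toLinearMap := by
  apply le_antisymm
  · rintro f ⟨⟨_, h2⟩, h3⟩
    exact ⟨⟨trivial, h2⟩, h3⟩
  · rintro f ⟨⟨_, h2⟩, h3⟩
    refine ⟨⟨?_, h2⟩, h3⟩
    have h4 := sub_iot_rho a j ha f
    have h5 : rho a j f = 0 := h3
    rw [h5, map_zero, sub_zero] at h4
    exact (Ideal.span_singleton_le_iff_mem I).2 hl h4

lemma Jn_top {N : ℕ} (i : ℕ) : Jn (⊤ : Ideal (MvPolynomial (Fin N) K)) i =
    homogeneousSubmodule (Fin N) K i := by
  apply le_antisymm (Jn_le _ _)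
  intro f hf
  exact ⟨trivial, hf⟩

theorem hd_map_rho (a : Fin (c + 1) → K) (j : Fin (c + 1)) (ha : a j ≠ 0)
    {I : Ideal (MvPolynomial (Fin (c + 1)) K)} (hI : HI I) (hl : lf a ∈ I) (i : ℕ) :
    hd (I.map (rho a j)) i = hd I i := by
  have h1 := finrank_map_add_inf_ker (rho a j).toLinearMap (Jn I i)
  have h2 := finrank_map_add_inf_ker (rho a j).toLinearMap (Jn ⊤ i)
  rw [map_Jn a j hI, inf_ker a j ha hl] at h1
  have hT : HI (⊤ : Ideal (MvPolynomial (Fin (c + 1)) K)) := fun _ _ _ => trivial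
  rw [map_Jn a j hT, Ideal.map_top] at h2
  have h3 := hd_add I i
  have h4 := hd_add (I.map (rho a j)) i
  rw [Jn_top, Jn_top] at h2
  rw [Jn_top] at h1
  omega

/-- the Hilbert function of the restriction to a hyperplane which is regular modulo `J` -/
theorem hd_res (a : Fin (c + 1) → K) (j : Fin (c + 1)) (ha : a j ≠ 0)
    {J : Ideal (MvPolynomial (Fin (c + 1)) K)} (hJ : HI J) (hreg : NZD J (lf a)) (i : ℕ) :
    hd ((J ⊔ Ideal.span {lf a}).map (rho a j)) (i + 1) + hd J i = hd J (i + 1) := by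
  rw [hd_map_rho a j ha (HI_sup hJ (HI_span (lf_hom a)))
    (Ideal.mem_sup_right (Ideal.mem_span_singleton_self _))]
  have h1 := hd_col hJ (lf_hom a) i
  rw [hreg.col_eq] at h1
  omega

theorem hd_res_zero (a : Fin (c + 1) → K) (j : Fin (c + 1)) (ha : a j ≠ 0)
    {J : Ideal (MvPolynomial (Fin (c + 1)) K)} (hJ : HI J) :
    hd ((J ⊔ Ideal.span {lf a}).map (rho a j)) 0 = hd J 0 := by
  rw [hd_map_rho a j ha (HI_sup hJ (HI_span (lf_hom a)))
    (Ideal.mem_sup_right (Ideal.mem_span_singleton_self _))]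
  exact hd_low hJ (lf_hom a) (by omega)

end Pool.Agent.EGH51
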