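import Mathlib
import Pool.Agent.EGH51.Defs

/-!
# Module CAR: canonical anticommutation relations

PROOF.  Entrywise: in every matrix product at most one summand is nonzero.  For `a ≠ b`, inserting (or erasing) `b` changes `sgn a` by the factor `-1` iff
`b < a`; exactly one of `a < b`, `b < a` holds, hence the sign in the anticommutators.  `a = b`: `(cre a * anh a) I I = 1` if `a ∈ I`,
`(anh a * cre a) I I = 1` if `a ∉ I` (`sgn a (I.erase a) ^ 2 = 1`).  It may be easier to prove them first for the operators on functions
`Finset (Fin N) → P` (`Matrix.mulVec`; `(cre a).mulVec f I = if a ∈ I then sgn a (I.erase a) * f (I.erase a) else 0`,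
`(anh a).mulVec f I = if a ∈ I then 0 else sgn a I * f (insert a I)`) and to conclude with `Matrix.toLin'` injectivity or with `f = Pi.single J 1`.
-/

set_option autoImplicit false
set_option linter.all false

noncomputable section

namespace Pool.Agent.EGH51

open Module MvPolynomial Pool.Agent.CB

variable {K : Type*} [Field K] {N : ℕ}

private lemma Car_cre_mul (a : Fin N) (M : Mt K N) (I J : Finset (Fin N)) :
    (cre a * M : Mt K N) I J = if a ∈ I then sgn a I * M (I.erase a) J else 0 := by
  rw [Matrix.mul_apply]
  by_cases h : a ∈ I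
  · rw [if_pos h, Finset.sum_eq_single (I.erase a)]
    · have : (cre a : Mt K N) I (I.erase a) = sgn a (I.erase a) := by
        simp [cre, h]
      rw [this]
      congr 1
      unfold sgn
      congr 2
      ext x
      simp only [Finset.mem_filter, Finset.mem_erase]
      constructor
      · rintro ⟨⟨h1, h2⟩, h3⟩
        exact ⟨h2, h3⟩
      · rintro ⟨h2, h3⟩
        exact ⟨⟨ne_of_lt h3, h2⟩, h3⟩
    · intro L _ hL
      have : (cre a : Mt K N) I L = 0 := by
        simp [cre, hL]
      rw [this, zero_mul]
    · intro hh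
      exact absurd (Finset.mem_univ _) hh
  · rw [if_neg h]
    apply Finset.sum_eq_zero
    intro L _
    have : (cre a : Mt K N) I L = 0 := by
      simp [cre, h]
    rw [this, zero_mul]

private lemma Car_anh_mul (a : Fin N) (M : Mt K N) (I J : Finset (Fin N)) :
    (anh a * M : Mt K N) I J = if a ∉ I then sgn a I * M (insert a I) J else 0 := by
  rw [Matrix.mul_apply]
  by_cases h : a ∉ I
  · rw [if_pos h, Finset.sum_eq_single (insert a I)]
    · have : (anh a : Mt K N) I (insert a I) = sgn a I := by
        simp [anh, h]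
      rw [this]
    · intro L _ hL
      have : (anh a : Mt K N) I L = 0 := by
        simp [anh, hL]
      rw [this, zero_mul]
    · intro hh
      exact absurd (Finset.mem_univ _) hh
  · rw [if_neg h]
    apply Finset.sum_eq_zero
    intro L _
    have h' : a ∈ I := not_not.1 h
    have : (anh a : Mt K N) I L = 0 := by
      simp [anh, h']
    rw [this, zero_mul]

private def Car_eps (K : Type*) [Field K] {N : ℕ} (a b : Fin N) : MvPolynomial (Fin N) K :=
  if b < a then -1 else 1

private lemma Car_eps_add {a b : Fin N} (h : a ≠ b) : Car_eps K a b + Car_eps K b a = 0 := by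
  unfold Car_eps
  rcases lt_trichotomy a b with h1 | h1 | h1
  · rw [if_neg (not_lt.2 h1.le), if_pos h1]
    ring
  · exact absurd h1 h
  · rw [if_pos h1, if_neg (not_lt.2 h1.le)]
    ring

private lemma Car_sgn_erase {a b : Fin N} {I : Finset (Fin N)} (hb : b ∈ I) :
    (sgn a (I.erase b) : MvPolynomial (Fin N) K) = sgn a I * Car_eps K a b := by
  unfold sgn Car_eps
  by_cases h : b < a
  · rw [if_pos h]
    have h1 : (I.erase b).filter (· < a) = (I.filter (· < a)).erase b := by
      ext x
      simp only [Finset.mem_filter, Finset.mem_erase]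
      tauto
    have h2 : b ∈ I.filter (· < a) := Finset.mem_filter.2 ⟨hb, h⟩
    have h3 := Finset.card_erase_add_one h2
    rw [h1, ← h3, pow_succ]
    ring
  · rw [if_neg h, mul_one]
    congr 2
    ext x
    simp only [Finset.mem_filter, Finset.mem_erase]
    constructor
    · rintro ⟨⟨h1, h2⟩, h3⟩
      exact ⟨h2, h3⟩
    · rintro ⟨h2, h3⟩
      exact ⟨⟨fun e => h (e ▸ h3), h2⟩, h3⟩

private lemma Car_sgn_insert {a b : Fin N} {I : Finset (Fin N)} (hb : b ∉ I) :
    (sgn a (insert b I) : MvPolynomial (Fin N) K) = sgn a I * Car_eps K a b := by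
  have h := Car_sgn_erase (K := K) (a := a) (Finset.mem_insert_self b I)
  rw [Finset.erase_insert hb] at h
  have h2 : Car_eps K a b * Car_eps K a b = 1 := by
    unfold Car_eps
    split_ifs <;> ring
  rw [h, mul_assoc, h2, mul_one]

private lemma Car_sgn_self {a : Fin N} {I : Finset (Fin N)} :
    (sgn a (I.erase a) : MvPolynomial (Fin N) K) = sgn a I := by
  by_cases h : a ∈ I
  · rw [Car_sgn_erase h]
    simp [Car_eps]
  · rw [Finset.erase_eq_of_notMem h]

private lemma Car_sgn_sq {a : Fin N} {I : Finset (Fin N)} :
    (sgn a I * sgn a I : MvPolynomial (Fin N) K) = 1 := by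
  unfold sgn
  rw [← mul_pow]
  simp

private lemma Car_cre_apply (a : Fin N) (I J : Finset (Fin N)) :
    (cre a : Mt K N) I J = if a ∈ I ∧ J = I.erase a then sgn a J else 0 := rfl

private lemma Car_anh_apply (a : Fin N) (I J : Finset (Fin N)) :
    (anh a : Mt K N) I J = if a ∉ I ∧ J = insert a I then sgn a I else 0 := rfl

theorem cre_sq (a : Fin N) : cre a * cre a = (0 : Mt K N) := by
  refine Matrix.ext fun I J => ?_
  rw [Car_cre_mul, Car_cre_apply, Matrix.zero_apply]
  by_cases h : a ∈ I
  · rw [if_pos h, if_neg (fun h1 => Finset.notMem_erase a I h1.1), mul_zero]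
  · rw [if_neg h]

theorem anh_sq (a : Fin N) : anh a * anh a = (0 : Mt K N) := by
  refine Matrix.ext fun I J => ?_
  rw [Car_anh_mul, Car_anh_apply, Matrix.zero_apply]
  by_cases h : a ∉ I
  · rw [if_pos h, if_neg (fun h1 => h1.1 (Finset.mem_insert_self a I)), mul_zero]
  · rw [if_neg h]

theorem cre_cre (a b : Fin N) : cre a * cre b + cre b * cre a = (0 : Mt K N) := by
  by_cases hab : a = b
  · subst hab
    rw [cre_sq, add_zero]
  refine Matrix.ext fun I J => ?_
  rw [Matrix.add_apply, Car_cre_mul, Car_cre_mul, Car_cre_apply, Car_cre_apply, Matrix.zero_apply]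
  by_cases ha : a ∈ I
  · by_cases hb : b ∈ I
    · have hb' : b ∈ I.erase a := Finset.mem_erase.2 ⟨fun e => hab e.symm, hb⟩
      have ha' : a ∈ I.erase b := Finset.mem_erase.2 ⟨hab, ha⟩
      have hee : (I.erase b).erase a = (I.erase a).erase b := Finset.erase_right_comm
      rw [if_pos ha, if_pos hb]
      by_cases hJ : J = (I.erase a).erase b
      · rw [if_pos ⟨hb', hJ⟩, if_pos ⟨ha', hJ.trans hee.symm⟩]
        have e1 : (sgn b J : MvPolynomial (Fin N) K) = sgn b I * Car_eps K b a := by
          rw [hJ, Car_sgn_self, Car_sgn_erase ha]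
        have e2 : (sgn a J : MvPolynomial (Fin N) K) = sgn a I * Car_eps K a b := by
          rw [hJ, ← hee, Car_sgn_self, Car_sgn_erase hb]
        rw [e1, e2]
        have e3 := Car_eps_add (K := K) hab
        linear_combination (sgn a I * sgn b I : MvPolynomial (Fin N) K) * e3
      · rw [if_neg (fun h => hJ h.2), if_neg (fun h => hJ (h.2.trans hee)), mul_zero, mul_zero,
          add_zero]
    · rw [if_pos ha, if_neg hb, if_neg (fun h => hb (Finset.mem_of_mem_erase h.1)), mul_zero,
        add_zero]
  · rw [if_neg ha, zero_add]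
    by_cases hb : b ∈ I
    · rw [if_pos hb, if_neg (fun h => ha (Finset.mem_of_mem_erase h.1)), mul_zero]
    · rw [if_neg hb]

theorem anh_anh (a b : Fin N) : anh a * anh b + anh b * anh a = (0 : Mt K N) := by
  by_cases hab : a = b
  · subst hab
    rw [anh_sq, add_zero]
  refine Matrix.ext fun I J => ?_
  rw [Matrix.add_apply, Car_anh_mul, Car_anh_mul, Car_anh_apply, Car_anh_apply, Matrix.zero_apply]
  by_cases ha : a ∈ I
  · rw [if_neg (not_not.2 ha), zero_add]
    by_cases hb : b ∈ I
    · rw [if_neg (not_not.2 hb)]
    · rw [if_pos hb, if_neg (fun h => h.1 (Finset.mem_insert_of_mem ha)), mul_zero]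
  · by_cases hb : b ∈ I
    · rw [if_pos ha, if_neg (not_not.2 hb), if_neg (fun h => h.1 (Finset.mem_insert_of_mem hb)),
        mul_zero, add_zero]
    · have hb' : b ∉ insert a I := by
        rw [Finset.mem_insert]
        rintro (h | h)
        · exact hab h.symm
        · exact hb h
      have ha' : a ∉ insert b I := by
        rw [Finset.mem_insert]
        rintro (h | h)
        · exact hab h
        · exact ha h
      have hii : insert a (insert b I) = insert b (insert a I) := Finset.insert_comm a b I
      rw [if_pos ha, if_pos hb]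
      by_cases hJ : J = insert b (insert a I)
      · rw [if_pos ⟨hb', hJ⟩, if_pos ⟨ha', hJ.trans hii.symm⟩, Car_sgn_insert ha,
          Car_sgn_insert hb]
        have e3 := Car_eps_add (K := K) hab
        linear_combination (sgn a I * sgn b I : MvPolynomial (Fin N) K) * e3
      · rw [if_neg (fun h => hJ h.2), if_neg (fun h => hJ (h.2.trans hii)), mul_zero, mul_zero,
          add_zero]

theorem cre_anh (a b : Fin N) : cre a * anh b + anh b * cre a = if a = b then (1 : Mt K N) else 0 := by
  refine Matrix.ext fun I J => ?_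
  rw [Matrix.add_apply, Car_cre_mul, Car_anh_mul, Car_cre_apply, Car_anh_apply]
  by_cases hab : a = b
  · subst hab
    rw [if_pos (rfl : a = a), Matrix.one_apply]
    by_cases ha : a ∈ I
    · rw [if_pos ha, if_neg (not_not.2 ha), add_zero, Finset.insert_erase ha]
      by_cases hJ : I = J
      · rw [if_pos hJ, if_pos ⟨Finset.notMem_erase a I, hJ.symm⟩, Car_sgn_self, Car_sgn_sq]
      · rw [if_neg hJ, if_neg (fun h => hJ h.2.symm), mul_zero]
    · rw [if_neg ha, if_pos ha, zero_add, Finset.erase_insert ha]
      by_cases hJ : I = J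
      · rw [if_pos hJ, if_pos ⟨Finset.mem_insert_self a I, hJ.symm⟩, hJ, Car_sgn_sq]
      · rw [if_neg hJ, if_neg (fun h => hJ h.2.symm), mul_zero]
  · rw [if_neg hab, Matrix.zero_apply]
    by_cases ha : a ∈ I
    · by_cases hb : b ∈ I
      · rw [if_pos ha, if_neg (not_not.2 hb), add_zero,
          if_neg (fun h => h.1 (Finset.mem_erase.2 ⟨fun e => hab e.symm, hb⟩)), mul_zero]
      · have hb' : b ∉ I.erase a := fun h => hb (Finset.mem_of_mem_erase h)
        have ha' : a ∈ insert b I := Finset.mem_insert_of_mem ha
        have hie : (insert b I).erase a = insert b (I.erase a) :=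
          Finset.erase_insert_of_ne (fun e => hab e.symm)
        rw [if_pos ha, if_pos hb]
        by_cases hJ : J = insert b (I.erase a)
        · rw [if_pos ⟨hb', hJ⟩, if_pos ⟨ha', hJ.trans hie.symm⟩]
          have e1 : (sgn a J : MvPolynomial (Fin N) K) = sgn a I * Car_eps K a b := by
            rw [hJ, ← hie, Car_sgn_self, Car_sgn_insert hb]
          rw [e1, Car_sgn_erase ha]
          have e3 := Car_eps_add (K := K) hab
          linear_combination (sgn a I * sgn b I : MvPolynomial (Fin N) K) * e3
        · rw [if_neg (fun h => hJ h.2), if_neg (fun h => hJ (h.2.trans hie)), mul_zero, mul_zero,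
            add_zero]
    · rw [if_neg ha, zero_add]
      by_cases hb : b ∈ I
      · rw [if_neg (not_not.2 hb)]
      · rw [if_pos hb, if_neg, mul_zero]
        rintro ⟨h, _⟩
        rcases Finset.mem_insert.1 h with h | h
        · exact hab h
        · exact ha h

end Pool.Agent.EGH51
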