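import Mathlib
import Pool.Agent.EGH51.Defs

/-!
# Module REL: the square of the operator `Dop`
-/

set_option autoImplicit false
set_option linter.all false

noncomputable section

namespace Pool.Agent.EGH51

open Module MvPolynomial Pool.Agent.CB

variable {K : Type*} [Field K] {N : ℕ} {R : Type*} [Ring R] [Algebra K R]

lemma qc_comm (f : MvPolynomial (Fin N) K) (a b : Fin N) : qc f a b = qc f b a := by
  unfold qc
  rw [add_comm]

lemma X_mul_X_eq (a b : Fin N) : (X a * X b : MvPolynomial (Fin N) K) =
    monomial (Finsupp.single a 1 + Finsupp.single b 1) 1 := by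
  rw [X, X, monomial_mul, one_mul]

lemma exists_pair {m : Fin N →₀ ℕ} (hm : Finsupp.degree m = 2) :
    ∃ a b : Fin N, a ≤ b ∧ m = Finsupp.single a 1 + Finsupp.single b 1 := by
  have h1 : m ≠ 0 := by
    rintro rfl
    simp at hm
  obtain ⟨a, ha⟩ := Finsupp.ne_iff.1 h1
  rw [Finsupp.coe_zero, Pi.zero_apply] at ha
  have h2 : Finsupp.single a 1 + (m - Finsupp.single a 1) = m := by
    apply add_tsub_cancel_of_le
    rw [Finsupp.single_le_iff]
    omega
  have h3 : Finsupp.degree (m - Finsupp.single a 1) = 1 := by
    have := congrArg Finsupp.degree h2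
    rw [map_add, Finsupp.degree_single, hm] at this
    omega
  rw [Finsupp.degree_apply] at h3
  obtain ⟨b, hb⟩ := (Finsupp.sum_eq_one_iff _).1 h3
  rw [hb] at h2
  rcases le_total a b with h | h
  · exact ⟨a, b, h, h2.symm⟩
  · exact ⟨b, a, h, by rw [← h2, add_comm]⟩

lemma quad_expand {u : MvPolynomial (Fin N) K} (hu : u.IsHomogeneous 2) :
    u = ∑ a, ∑ b ∈ Finset.univ.filter (fun b => a ≤ b), qc u a b • (X a * X b) := by
  classical
  ext m
  simp only [coeff_sum, coeff_smul, X_mul_X_eq, coeff_monomial, smul_eq_mul, mul_ite, mul_one,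
    mul_zero]
  by_cases hc : coeff m u = 0
  · rw [hc]
    symm
    refine Finset.sum_eq_zero fun a _ => Finset.sum_eq_zero fun b _ => ?_
    split_ifs with h
    · unfold qc
      rw [h, hc]
    · rfl
  · have h2 : Finsupp.degree m = 2 := by
      rw [Finsupp.degree_eq_weight_one]
      exact hu hc
    obtain ⟨a, b, hab, rfl⟩ := exists_pair h2
    rw [Finset.sum_eq_single a, Finset.sum_eq_single b]
    · rw [if_pos rfl]
      rfl
    · intro b' hb' hne
      rw [if_neg]
      intro h
      rcases (Finsupp.single_add_single_eq_single_add_single one_ne_zero one_ne_zero).1 h with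
        h | h | h
      · exact hne h.2
      · obtain ⟨-, h3, h4⟩ := h
        exact hne (h4.trans h3)
      · omega
    · intro h
      exact absurd (Finset.mem_filter.2 ⟨Finset.mem_univ _, hab⟩) h
    · intro a' _ hne
      refine Finset.sum_eq_zero fun b' hb' => ?_
      rw [if_neg]
      intro h
      rcases (Finsupp.single_add_single_eq_single_add_single one_ne_zero one_ne_zero).1 h with
        h | h | h
      · exact hne h.1
      · obtain ⟨-, h3, h4⟩ := h
        rw [Finset.mem_filter] at hb'
        apply hne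
        apply le_antisymm
        · rw [h3, ← h3]
          calc a' ≤ b' := hb'.2
            _ = a := h4
        · calc a ≤ b := hab
            _ = a' := h3.symm
      · omega
    · intro h
      exact absurd (Finset.mem_univ _) h

lemma sum_split_pairs {M : Type*} [AddCommMonoid M] (h : Fin N → Fin N → M) :
    ∑ a, ∑ b, h a b = ∑ a, ∑ b ∈ Finset.univ.filter (fun b => a ≤ b),
      (if a = b then h a a else h a b + h b a) := by
  classical
  have h1 : ∀ a, ∑ b, h a b = ∑ b ∈ Finset.univ.filter (fun b => a ≤ b), h a b +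
      ∑ b ∈ Finset.univ.filter (fun b => b < a), h a b := by
    intro a
    rw [← Finset.sum_filter_add_sum_filter_not Finset.univ (fun b => a ≤ b)]
    congr 1
    apply Finset.sum_congr _ fun _ _ => rfl
    ext b
    simp
  rw [Finset.sum_congr rfl fun a _ => h1 a, Finset.sum_add_distrib]
  have h2 : ∑ a, ∑ b ∈ Finset.univ.filter (fun b => b < a), h a b =
      ∑ b, ∑ a ∈ Finset.univ.filter (fun a => b < a), h a b := by
    simp only [Finset.sum_filter]
    rw [Finset.sum_comm]
  rw [h2, ← Finset.sum_add_distrib]
  refine Finset.sum_congr rfl fun a _ => ?_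
  have h3 : ∑ b ∈ Finset.univ.filter (fun b => a < b), h b a =
      ∑ b ∈ Finset.univ.filter (fun b => a ≤ b), (if a = b then 0 else h b a) := by
    simp only [Finset.sum_filter]
    refine Finset.sum_congr rfl fun b _ => ?_
    by_cases hab : a = b
    · subst hab
      simp
    · by_cases hlt : a < b
      · rw [if_pos hlt, if_pos hlt.le, if_neg hab]
      · rw [if_neg hlt, if_neg]
        intro hle
        exact hlt (lt_of_le_of_ne hle hab)
  rw [h3, ← Finset.sum_add_distrib]
  refine Finset.sum_congr rfl fun b _ => ?_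
  split_ifs with hab
  · subst hab
    rw [add_zero]
  · rfl

theorem Dop_Dop {κ : Type*} [Fintype κ] {u : κ → MvPolynomial (Fin N) K} {g : Fin N → R}
    {s : κ → R} (h : Rel u g s) (hu : ∀ k, (u k).IsHomogeneous 2)
    (F : MvPolynomial (Fin N) K →ₗ[K] R) (f : MvPolynomial (Fin N) K) :
    Dop g (Dop g F) f = ∑ k, F (u k * f) * s k := by
  classical
  have e1 : Dop g (Dop g F) f = ∑ a, ∑ b, F (X a * X b * f) * (g b * g a) := by
    rw [Dop_apply]
    refine Finset.sum_congr rfl fun a _ => ?_
    rw [Dop_apply, Finset.sum_mul]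
    refine Finset.sum_congr rfl fun b _ => ?_
    rw [mul_assoc]
    congr 2
    ring
  have e2 : ∀ k, F (u k * f) = ∑ a, ∑ b ∈ Finset.univ.filter (fun b => a ≤ b),
      qc (u k) a b • F (X a * X b * f) := by
    intro k
    conv_lhs => rw [quad_expand (hu k)]
    simp only [Finset.sum_mul, map_sum, smul_mul_assoc, map_smul]
  rw [e1, sum_split_pairs]
  have e3 : ∑ k, F (u k * f) * s k = ∑ a, ∑ b ∈ Finset.univ.filter (fun b => a ≤ b),
      F (X a * X b * f) * ∑ k, qc (u k) a b • s k := by
    simp only [e2, Finset.sum_mul, Finset.mul_sum]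
    rw [Finset.sum_comm]
    refine Finset.sum_congr rfl fun a _ => ?_
    rw [Finset.sum_comm]
    refine Finset.sum_congr rfl fun b _ => Finset.sum_congr rfl fun k _ => ?_
    rw [smul_mul_assoc, mul_smul_comm]
  rw [e3]
  refine Finset.sum_congr rfl fun a _ => Finset.sum_congr rfl fun b _ => ?_
  split_ifs with hab
  · subst hab
    rw [← h.sq]
  · rw [← h.anti a b hab, mul_comm (X b : MvPolynomial (Fin N) K) (X a), ← mul_add,
      add_comm (g b * g a)]

end Pool.Agent.EGH51
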