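import Mathlib
import Pool.Agent.EGH51.Defs
import Pool.Agent.EGH51.RelSq

/-!
# Module COREA: calculus of the operators `Dop (g i)`

PROOFS.  `Dop_anti`: `Dop_apply` twice: `(Dop g (Dop g' F)) f = ∑_{a,b} F (X b * (X a * f)) * (g' b * g a)`, the other one is `∑_{a,b} F (X a * (X b * f)) * (g a * g' b)` after
renaming; `X a * (X b * f) = X b * (X a * f)`, and `g a * g' b = - (g' b * g a)`.
`Dop_smul`: `(λ • F) f = λ * F f`.  `HD_Dop`: `X a * f ∈ J`; degrees.
`DL_perm`: induction on `List.Perm` (with `Nodup`, so the two swapped elements are different, `Dop_anti`).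
`DL_mem_HD`: induction.  `DL_eq_zero`: for `i ∈ l`, `l ~ i :: l.erase i`, `DL g (i :: l') (Dop (g i) F) = DL g l' (Dop (g i) (Dop (g i) F)) = DL g l' 0 = 0` (`Dop_Dop`, `F` kills
`u k * f`).
`ev_Dop`: `(insert i V).sort ~ i :: V.sort` (`Finset.sort_perm_toList`…, both `Nodup` with the same elements), `DL_perm`.
-/

set_option autoImplicit false
set_option linter.all false

noncomputable section

namespace Pool.Agent.EGH51

open Module MvPolynomial Pool.Agent.CB

universe v

variable {K : Type v} [Field K] {n : ℕ} {𝔇 : Type v} [DivisionRing 𝔇] [Algebra K 𝔇]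

theorem Dop_anti {g g' : Fin n → 𝔇} (h : ∀ a b, g a * g' b + g' b * g a = 0)
    (F : MvPolynomial (Fin n) K →ₗ[K] 𝔇) : Dop g (Dop g' F) = - Dop g' (Dop g F) := by
  apply LinearMap.ext
  intro f
  rw [LinearMap.neg_apply]
  have e1 : Dop g (Dop g' F) f = ∑ a, ∑ b, F (X b * (X a * f)) * (g' b * g a) := by
    rw [Dop_apply]
    refine Finset.sum_congr rfl fun a _ => ?_
    rw [Dop_apply, Finset.sum_mul]
    exact Finset.sum_congr rfl fun b _ => mul_assoc _ _ _
  have e2 : Dop g' (Dop g F) f = ∑ a, ∑ b, F (X b * (X a * f)) * (g a * g' b) := by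
    rw [Dop_apply, Finset.sum_comm]
    refine Finset.sum_congr rfl fun b _ => ?_
    rw [Dop_apply, Finset.sum_mul]
    refine Finset.sum_congr rfl fun a _ => ?_
    rw [mul_assoc, mul_left_comm (X a) (X b) f]
  rw [e1, e2, ← Finset.sum_neg_distrib]
  refine Finset.sum_congr rfl fun a _ => ?_
  rw [← Finset.sum_neg_distrib]
  refine Finset.sum_congr rfl fun b _ => ?_
  rw [← mul_neg, eq_neg_of_add_eq_zero_right (h a b)]

theorem Dop_smul (g : Fin n → 𝔇) (c : 𝔇) (F : MvPolynomial (Fin n) K →ₗ[K] 𝔇) :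
    Dop g (c • F) = c • Dop g F := by
  apply LinearMap.ext
  intro f
  rw [LinearMap.smul_apply, Dop_apply, Dop_apply, smul_eq_mul, Finset.mul_sum]
  refine Finset.sum_congr rfl fun a _ => ?_
  rw [LinearMap.smul_apply, smul_eq_mul, mul_assoc]

theorem HD_Dop {J : Ideal (MvPolynomial (Fin n) K)} {k : ℕ} (g : Fin n → 𝔇)
    {F : MvPolynomial (Fin n) K →ₗ[K] 𝔇} (hF : F ∈ HD 𝔇 J (k + 1)) : Dop g F ∈ HD 𝔇 J k := by
  rw [mem_HD] at hF ⊢
  obtain ⟨h1, h2⟩ := hF
  constructor
  · intro f hf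
    rw [Dop_apply]
    refine Finset.sum_eq_zero fun a _ => ?_
    rw [h1 _ (J.mul_mem_left _ hf), zero_mul]
  · intro j hj f hf
    rw [Dop_apply]
    refine Finset.sum_eq_zero fun a _ => ?_
    rw [h2 (1 + j) (by omega) _ ((isHomogeneous_X K a).mul hf), zero_mul]

private lemma coreA_cons (g : Fin n → Fin n → 𝔇) (i : Fin n) (l : List (Fin n))
    (F : MvPolynomial (Fin n) K →ₗ[K] 𝔇) : DL g (i :: l) F = DL g l (Dop (g i) F) := rfl

theorem DL_add (g : Fin n → Fin n → 𝔇) (l : List (Fin n))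
    (F G : MvPolynomial (Fin n) K →ₗ[K] 𝔇) : DL g l (F + G) = DL g l F + DL g l G := by
  induction l generalizing F G with
  | nil => rfl
  | cons i l ih => rw [coreA_cons, coreA_cons, coreA_cons, map_add, ih]

theorem DL_smul (g : Fin n → Fin n → 𝔇) (l : List (Fin n)) (c : 𝔇)
    (F : MvPolynomial (Fin n) K →ₗ[K] 𝔇) : DL g l (c • F) = c • DL g l F := by
  induction l generalizing F with
  | nil => rfl
  | cons i l ih => rw [coreA_cons, coreA_cons, Dop_smul, ih]

theorem DL_zero (g : Fin n → Fin n → 𝔇) (l : List (Fin n)) :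
    DL g l (0 : MvPolynomial (Fin n) K →ₗ[K] 𝔇) = 0 := by
  have h := DL_smul g l 0 (0 : MvPolynomial (Fin n) K →ₗ[K] 𝔇)
  rw [zero_smul, zero_smul] at h
  exact h

theorem DL_append (g : Fin n → Fin n → 𝔇) (l l' : List (Fin n))
    (F : MvPolynomial (Fin n) K →ₗ[K] 𝔇) : DL g (l ++ l') F = DL g l' (DL g l F) := by
  unfold DL
  rw [List.foldl_append]

theorem DL_mem_HD {J : Ideal (MvPolynomial (Fin n) K)} {k : ℕ} (g : Fin n → Fin n → 𝔇)
    (l : List (Fin n)) {F : MvPolynomial (Fin n) K →ₗ[K] 𝔇} (hF : F ∈ HD 𝔇 J (k + l.length)) :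
    DL g l F ∈ HD 𝔇 J k := by
  induction l generalizing F with
  | nil => exact hF
  | cons i l ih =>
    rw [coreA_cons]
    apply ih
    apply HD_Dop
    rw [List.length_cons] at hF
    exact hF

private lemma coreA_neg (g : Fin n → Fin n → 𝔇) (l : List (Fin n))
    (F : MvPolynomial (Fin n) K →ₗ[K] 𝔇) : DL g l (-F) = - DL g l F := by
  induction l generalizing F with
  | nil => rfl
  | cons i l ih => rw [coreA_cons, coreA_cons, map_neg, ih]

theorem DL_perm {g : Fin n → Fin n → 𝔇}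
    (h : ∀ i j, i ≠ j → ∀ a b, g i a * g j b + g j b * g i a = 0) {l l' : List (Fin n)}
    (hl : l.Perm l') (hn : l.Nodup) :
    (∀ F : MvPolynomial (Fin n) K →ₗ[K] 𝔇, DL g l' F = DL g l F) ∨
      ∀ F : MvPolynomial (Fin n) K →ₗ[K] 𝔇, DL g l' F = - DL g l F := by
  induction hl with
  | nil => exact Or.inl fun F => rfl
  | cons x hp ih =>
    rcases ih (List.nodup_cons.1 hn).2 with h1 | h1
    · exact Or.inl fun F => by rw [coreA_cons, coreA_cons, h1]
    · exact Or.inr fun F => by rw [coreA_cons, coreA_cons, h1]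
  | swap x y l =>
    refine Or.inr fun F => ?_
    have hxy : y ≠ x := by
      have := (List.nodup_cons.1 hn).1
      intro hh
      exact this (by rw [hh]; exact List.mem_cons_self)
    rw [coreA_cons, coreA_cons, coreA_cons, coreA_cons, Dop_anti (h y x hxy) F, coreA_neg]
  | trans h1 h2 ih1 ih2 =>
    have hn2 := h1.nodup_iff.1 hn
    rcases ih1 hn with a1 | a1 <;> rcases ih2 hn2 with a2 | a2
    · exact Or.inl fun F => by rw [a2, a1]
    · exact Or.inr fun F => by rw [a2, a1]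
    · exact Or.inr fun F => by rw [a2, a1]
    · exact Or.inl fun F => by rw [a2, a1, neg_neg]

theorem DL_eq_zero {u : Fin n → MvPolynomial (Fin n) K} (hu : ∀ k, (u k).IsHomogeneous 2)
    {g s : Fin n → Fin n → 𝔇} (H : SlotsIn u 𝔇 g s) {l : List (Fin n)} (hn : l.Nodup)
    {i : Fin n} (hi : i ∈ l) {F : MvPolynomial (Fin n) K →ₗ[K] 𝔇}
    (hF : ∀ f ∈ Ideal.span (Set.range u), F f = 0) : DL g l (Dop (g i) F) = 0 := by
  have h0 : Dop (g i) (Dop (g i) F) = 0 := by
    apply LinearMap.ext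
    intro f
    rw [Dop_Dop (H.rel i) hu, LinearMap.zero_apply]
    refine Finset.sum_eq_zero fun k _ => ?_
    rw [hF _ (Ideal.mul_mem_right _ _ (Ideal.subset_span ⟨k, rfl⟩)), zero_mul]
  have h1 : DL g (i :: l.erase i) (Dop (g i) F) = 0 := by
    rw [coreA_cons, h0, DL_zero]
  rcases DL_perm (K := K) H.anti (List.perm_cons_erase hi) hn with h2 | h2
  · rw [← h2, h1]
  · rw [← neg_eq_zero, ← h2, h1]

theorem ev_add (g : Fin n → Fin n → 𝔇) (k : ℕ) (F G : MvPolynomial (Fin n) K →ₗ[K] 𝔇) :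
    ev g k (F + G) = ev g k F + ev g k G := by
  funext U
  rw [Pi.add_apply]
  unfold ev
  split_ifs with h
  · rw [DL_add, LinearMap.add_apply]
  · rw [add_zero]

theorem ev_smul (g : Fin n → Fin n → 𝔇) (k : ℕ) (c : 𝔇) (F : MvPolynomial (Fin n) K →ₗ[K] 𝔇) :
    ev g k (c • F) = c • ev g k F := by
  funext U
  rw [Pi.smul_apply]
  unfold ev
  split_ifs with h
  · rw [DL_smul, LinearMap.smul_apply]
  · rw [smul_zero]

theorem ev_Dop {u : Fin n → MvPolynomial (Fin n) K} (hu : ∀ k, (u k).IsHomogeneous 2)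
    {g s : Fin n → Fin n → 𝔇} (H : SlotsIn u 𝔇 g s) {k : ℕ} (i : Fin n)
    {F : MvPolynomial (Fin n) K →ₗ[K] 𝔇} (hF : ∀ f ∈ Ideal.span (Set.range u), F f = 0)
    (V : Finset (Fin n)) (hV : V.card = k) :
    (i ∈ V → ev g k (Dop (g i) F) V = 0) ∧
      (i ∉ V → ∃ ε : 𝔇, ε ≠ 0 ∧ ev g k (Dop (g i) F) V = ε * ev g (k + 1) F (insert i V)) := by
  have hev : ev g k (Dop (g i) F) V = (DL g (V.sort (· ≤ ·)) (Dop (g i) F)) 1 := by
    unfold ev
    rw [if_pos hV]
  constructor
  · intro hi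
    rw [hev, DL_eq_zero hu H (Finset.sort_nodup _ _) ((Finset.mem_sort _).2 hi) hF,
      LinearMap.zero_apply]
  · intro hi
    have hev2 : ev g (k + 1) F (insert i V) =
        (DL g ((insert i V).sort (· ≤ ·)) F) 1 := by
      unfold ev
      rw [if_pos (by rw [Finset.card_insert_of_notMem hi, hV])]
    have hp : ((insert i V).sort (· ≤ ·)).Perm (i :: V.sort (· ≤ ·)) := by
      rw [List.perm_ext_iff_of_nodup (Finset.sort_nodup _ _)
        (List.nodup_cons.2 ⟨by rw [Finset.mem_sort]; exact hi, Finset.sort_nodup _ _⟩)]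
      intro a
      rw [Finset.mem_sort, List.mem_cons, Finset.mem_sort, Finset.mem_insert]
    rcases DL_perm (K := K) H.anti hp (Finset.sort_nodup _ _) with h2 | h2
    · refine ⟨1, one_ne_zero, ?_⟩
      rw [hev, hev2, ← coreA_cons, h2, one_mul]
    · refine ⟨-1, neg_ne_zero.2 one_ne_zero, ?_⟩
      rw [hev, hev2, ← coreA_cons, h2, LinearMap.neg_apply, neg_one_mul]

end Pool.Agent.EGH51
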