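import Mathlib
import Pool.Agent.EGH51.Defs

/-!
# Module DIMD: dimension over the division ring

PROOF.  Choose a `K`-basis of `S_i ⧸ I_i` (`S_i = homogeneousSubmodule (Fin N) K i`, `I_i = (Jn I i).comap S_i.subtype`) with `h = hd I i` elements;
`HD 𝔇 I i ≃ₗ[𝔇] (Fin h → 𝔇)`: `F` goes to its values on (representatives of) the basis; the inverse takes `v` to the functional
`(Basis.constr …) ∘ mkQ ∘ homogeneousComponent i`.  The left action of `𝔇` is on the values: `(λ • F) f = λ * F f`.
-/

set_option autoImplicit false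
set_option linter.all false

noncomputable section

namespace Pool.Agent.EGH51

open Module MvPolynomial Pool.Agent.CB

variable {K : Type*} [Field K] {N : ℕ}

/-- the projection to the degree `i` part -/
private def dimDpi (N : ℕ) (i : ℕ) :
    MvPolynomial (Fin N) K →ₗ[K] homogeneousSubmodule (Fin N) K i :=
  LinearMap.codRestrict _ (homogeneousComponent i) fun f =>
    (mem_homogeneousSubmodule _ _).2 (homogeneousComponent_isHomogeneous i f)

private lemma dimDpi_self {i : ℕ} (x : homogeneousSubmodule (Fin N) K i) :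
    dimDpi N i (x : MvPolynomial (Fin N) K) = x := by
  apply Subtype.ext
  show homogeneousComponent i (x : MvPolynomial (Fin N) K) = x
  exact homogeneousComponent_eq_self ((mem_homogeneousSubmodule _ _).1 x.2)

private lemma dimDpi_of_ne {i j : ℕ} (h : j ≠ i) {f : MvPolynomial (Fin N) K}
    (hf : f.IsHomogeneous j) : dimDpi N i f = 0 := by
  apply Subtype.ext
  show homogeneousComponent i f = 0
  rw [homogeneousComponent_of_mem ((mem_homogeneousSubmodule _ _).2 hf), if_neg (Ne.symm h)]

private def dimDJ (I : Ideal (MvPolynomial (Fin N) K)) (i : ℕ) :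
    Submodule K (homogeneousSubmodule (Fin N) K i) :=
  (Jn I i).comap (homogeneousSubmodule (Fin N) K i).subtype

private def dimDphi (𝔇 : Type*) [DivisionRing 𝔇] [Algebra K 𝔇]
    (I : Ideal (MvPolynomial (Fin N) K)) (i : ℕ) :
    ((homogeneousSubmodule (Fin N) K i ⧸ dimDJ I i) →ₗ[K] 𝔇) →ₗ[𝔇]
      (MvPolynomial (Fin N) K →ₗ[K] 𝔇) where
  toFun G := G ∘ₗ (dimDJ I i).mkQ ∘ₗ dimDpi N i
  map_add' G G' := LinearMap.ext fun f => rfl
  map_smul' c G := LinearMap.ext fun f => rfl

private lemma dimDphi_apply (𝔇 : Type*) [DivisionRing 𝔇] [Algebra K 𝔇]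
    (I : Ideal (MvPolynomial (Fin N) K)) (i : ℕ)
    (G : (homogeneousSubmodule (Fin N) K i ⧸ dimDJ I i) →ₗ[K] 𝔇) (f : MvPolynomial (Fin N) K) :
    dimDphi 𝔇 I i G f = G ((dimDJ I i).mkQ (dimDpi N i f)) := rfl

private lemma dimDphi_inj (𝔇 : Type*) [DivisionRing 𝔇] [Algebra K 𝔇]
    (I : Ideal (MvPolynomial (Fin N) K)) (i : ℕ) :
    Function.Injective (dimDphi 𝔇 I i) := by
  rw [injective_iff_map_eq_zero]
  intro G hG
  apply LinearMap.ext
  intro x
  obtain ⟨y, rfl⟩ := (dimDJ I i).mkQ_surjective x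
  have h1 : dimDphi 𝔇 I i G (y : MvPolynomial (Fin N) K) = 0 := by
    rw [hG]; rfl
  rw [dimDphi_apply, dimDpi_self] at h1
  exact h1

private lemma dimDphi_range (𝔇 : Type*) [DivisionRing 𝔇] [Algebra K 𝔇]
    {I : Ideal (MvPolynomial (Fin N) K)} (hI : HI I) (i : ℕ) :
    LinearMap.range (dimDphi 𝔇 I i) = HD 𝔇 I i := by
  apply le_antisymm
  · rintro _ ⟨G, rfl⟩
    refine ⟨?_, ?_⟩
    · intro f hf
      rw [dimDphi_apply]
      have h1 : (dimDJ I i).mkQ (dimDpi N i f) = 0 := by
        rw [Submodule.mkQ_apply, Submodule.Quotient.mk_eq_zero]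
        exact ⟨hI f hf i, homogeneousComponent_isHomogeneous i f⟩
      rw [h1, map_zero]
    · intro j hj f hf
      rw [dimDphi_apply, dimDpi_of_ne hj hf, map_zero, map_zero]
  · rintro F ⟨h1, h2⟩
    have hF : ∀ f, F f = F (homogeneousComponent i f) := by
      intro f
      conv_lhs => rw [← sum_homogeneousComponent f, map_sum]
      by_cases hi : i ∈ Finset.range (f.totalDegree + 1)
      · rw [Finset.sum_eq_single_of_mem i hi]
        intro j _ hj
        exact h2 j hj _ (homogeneousComponent_isHomogeneous j f)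
      · have h0 : homogeneousComponent i f = 0 := by
          apply homogeneousComponent_eq_zero
          simp only [Finset.mem_range, not_lt] at hi
          omega
        rw [h0, map_zero]
        refine Finset.sum_eq_zero fun j hj => ?_
        apply h2 j _ _ (homogeneousComponent_isHomogeneous j f)
        rintro rfl
        exact hi hj
    let F' : homogeneousSubmodule (Fin N) K i →ₗ[K] 𝔇 :=
      F ∘ₗ (homogeneousSubmodule (Fin N) K i).subtype
    have hker : dimDJ I i ≤ LinearMap.ker F' := by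
      intro x hx
      rw [LinearMap.mem_ker]
      show F (x : MvPolynomial (Fin N) K) = 0
      exact h1 _ hx.1
    refine ⟨(dimDJ I i).liftQ F' hker, ?_⟩
    apply LinearMap.ext
    intro f
    rw [dimDphi_apply, Submodule.mkQ_apply, Submodule.liftQ_apply]
    show F (homogeneousComponent i f) = F f
    exact (hF f).symm

private lemma dimDJ_finrank (I : Ideal (MvPolynomial (Fin N) K)) (i : ℕ) :
    finrank K (homogeneousSubmodule (Fin N) K i ⧸ dimDJ I i) = hd I i := by
  have h3 : (Jn I i) = (dimDJ I i).map (homogeneousSubmodule (Fin N) K i).subtype := by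
    rw [dimDJ, Submodule.map_comap_subtype]
    exact (inf_eq_right.2 (Jn_le I i)).symm
  have h4 : finrank K (dimDJ I i) = finrank K (Jn I i) := by
    conv_rhs => rw [h3]
    exact (LinearEquiv.finrank_eq (Submodule.equivMapOfInjective _
      (homogeneousSubmodule (Fin N) K i).injective_subtype _))
  have h1 := Submodule.finrank_quotient_add_finrank (dimDJ I i)
  have h2 := hd_add I i
  rw [h4] at h1
  omega

theorem finite_HD (𝔇 : Type*) [DivisionRing 𝔇] [Algebra K 𝔇] {I : Ideal (MvPolynomial (Fin N) K)}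
    (hI : HI I) (i : ℕ) : Module.Finite 𝔇 (HD 𝔇 I i) := by
  let b := Module.finBasis K (homogeneousSubmodule (Fin N) K i ⧸ dimDJ I i)
  haveI : Module.Finite 𝔇 ((homogeneousSubmodule (Fin N) K i ⧸ dimDJ I i) →ₗ[K] 𝔇) :=
    Module.Finite.equiv (b.constr 𝔇 (M' := 𝔇))
  rw [← dimDphi_range 𝔇 hI i]
  exact Module.Finite.range _

theorem finrank_HD (𝔇 : Type*) [DivisionRing 𝔇] [Algebra K 𝔇] {I : Ideal (MvPolynomial (Fin N) K)}
    (hI : HI I) (i : ℕ) : finrank 𝔇 (HD 𝔇 I i) = hd I i := by
  let b := Module.finBasis K (homogeneousSubmodule (Fin N) K i ⧸ dimDJ I i)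
  rw [← dimDphi_range 𝔇 hI i, LinearMap.finrank_range_of_inj (dimDphi_inj 𝔇 I i),
    ← LinearEquiv.finrank_eq (b.constr 𝔇 (M' := 𝔇)), Module.finrank_fin_fun, dimDJ_finrank]

end Pool.Agent.EGH51
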