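import Mathlib
import Pool.Agent.EGH51.Defs
import Pool.Agent.EGH51.CoreA
import Pool.Agent.EGH51.DimD

/-!
# Module COREB: the evaluation is injective

PROOF of `omega_ne`.  `hd I n = n.choose n = 1 ≠ 0` for `I = span (range u)`, so there is a form of degree `n` not in `I` (`hd_eq_zero_iff`), hence a `K`-linear functional `ψ : S → K`
vanishing on `I` and on forms of degree `≠ n`, `ψ ≠ 0` (linear functional on `S ⧸ I` nonzero on it, composed with `homogeneousComponent n`); `F0 := algebraMap ∘ ψ ∈ HD 𝔇 I n`.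
`(DL g (List.finRange n) F0) 1 = ∑_t F0 (∏_i X (t i)) * (List.ofFn fun i => g i (t i)).prod` (general formula for any `F`, by induction on the list: for
`l = [i_1, …, i_r]`, `(DL g l F) f = ∑_{t : Fin r → Fin n} F ((∏_j X (t j)) * f) * (List.ofFn fun j => g (l.get j) (t j)).prod`; note that the head acts first, so its `g` is the leftmost
factor).  `F0 (∏ X (t i)) = algebraMap (ψ (∏ X (t i)))`, and some `ψ (∏_i X (t i)) ≠ 0` since the monomials of degree `n` are such products.  `H.ne`.
PROOF of `ev_surj`.  Let `ω` be that value, `U.card = k`, `l := (Uᶜ).sort`, `G := DL g l F0 ∈ HD 𝔇 I k` (`DL_mem_HD`, `k + (n - k) = n`).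
`ev g k G U = (DL g (l ++ U.sort) F0) 1 = ± ω` (`DL_append`, `DL_perm`, `l ++ U.sort ~ List.finRange n`), and `ev g k G U' = 0` for `U' ≠ U`, `U'.card = k`: `U'` contains an
element `i` of `Uᶜ`; move `i` to the end of `l` (`DL_perm`): `G = ± DL g (l.erase i ++ [i]) F0 = ± Dop (g i) (DL g (l.erase i) F0)` and `DL_eq_zero` (the functional
`DL g (l.erase i) F0` kills `I`).
PROOF of `ev_inj`.  `ev g k : HD 𝔇 I k →ₗ[𝔇] {functions supported on k-subsets} ≃ ({U // U.card = k} → 𝔇)` is surjective by `ev_surj` (left multiples), and both sides have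
dimension `n.choose k` (`finrank_HD`, `hu.hf`; `Fintype.card_finset_len`), so it is injective (`LinearMap.injective_iff_surjective_of_finrank_eq_finrank`).
-/

set_option autoImplicit false
set_option linter.all false

noncomputable section

namespace Pool.Agent.EGH51

open Module MvPolynomial Pool.Agent.CB

universe v

variable {K : Type v} [Field K] {n : ℕ} {𝔇 : Type v} [DivisionRing 𝔇] [Algebra K 𝔇]

private lemma coreB_HI {u : Fin n → MvPolynomial (Fin n) K} (hu : ∀ k, (u k).IsHomogeneous 2) :
    HI (Ideal.span (Set.range u)) := by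
  have h1 : Ideal.span (Set.range u) = Finset.univ.sup (fun k => Ideal.span {u k}) := by
    rw [Finset.sup_univ_eq_iSup]
    exact Submodule.span_range_eq_iSup
  rw [h1]
  exact Finset.sup_induction HI_bot (fun a ha b hb => HI_sup ha hb)
    (fun k _ => HI_span (hu k))

private lemma coreB_cons (g : Fin n → Fin n → 𝔇) (i : Fin n) (l : List (Fin n))
    (F : MvPolynomial (Fin n) K →ₗ[K] 𝔇) : DL g (i :: l) F = DL g l (Dop (g i) F) := rfl

private lemma coreB_formula (g : Fin n → Fin n → 𝔇) (r : ℕ) (h : Fin r → Fin n)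
    (F : MvPolynomial (Fin n) K →ₗ[K] 𝔇) (f : MvPolynomial (Fin n) K) :
    (DL g (List.ofFn h) F) f =
      ∑ t : Fin r → Fin n, F ((∏ j, X (t j)) * f) * (List.ofFn fun j => g (h j) (t j)).prod := by
  induction r generalizing F f with
  | zero =>
    rw [List.ofFn_zero, Fintype.sum_unique]
    simp [DL]
  | succ r ih =>
    rw [List.ofFn_succ, coreB_cons, ih]
    rw [← (Fin.consEquiv (fun _ : Fin (r + 1) => Fin n)).sum_comp, Fintype.sum_prod_type_right]
    refine Finset.sum_congr rfl fun t _ => ?_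
    rw [Dop_apply, Finset.sum_mul]
    refine Finset.sum_congr rfl fun a _ => ?_
    have e1 : (Fin.consEquiv (fun _ : Fin (r + 1) => Fin n)) (a, t) = Fin.cons a t := rfl
    rw [e1, Fin.prod_univ_succ, List.ofFn_succ, List.prod_cons]
    simp only [Fin.cons_zero, Fin.cons_succ]
    rw [mul_assoc, mul_assoc]

private lemma coreB_mon (r : ℕ) (m : Fin n →₀ ℕ) (hm : Finsupp.degree m = r) :
    ∃ t : Fin r → Fin n, (∏ j, X (t j) : MvPolynomial (Fin n) K) = monomial m 1 := by
  induction r generalizing m with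
  | zero =>
    refine ⟨Fin.elim0, ?_⟩
    have : m = 0 := by
      rwa [Finsupp.degree_eq_zero_iff] at hm
    rw [this]
    simp
  | succ r ih =>
    have hne : m ≠ 0 := by
      intro h
      rw [h, map_zero] at hm
      omega
    obtain ⟨a, ha⟩ := Finsupp.ne_iff.1 hne
    rw [Finsupp.coe_zero, Pi.zero_apply] at ha
    have hle : Finsupp.single a 1 ≤ m := by
      rw [Finsupp.single_le_iff]
      omega
    have h1 : Finsupp.single a 1 + (m - Finsupp.single a 1) = m := add_tsub_cancel_of_le hle
    have h2 : Finsupp.degree (m - Finsupp.single a 1) = r := by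
      have := congrArg Finsupp.degree h1
      rw [map_add, Finsupp.degree_single, hm] at this
      omega
    obtain ⟨t, ht⟩ := ih _ h2
    refine ⟨Fin.cons a t, ?_⟩
    rw [Fin.prod_univ_succ]
    simp only [Fin.cons_zero, Fin.cons_succ]
    rw [ht, X, monomial_mul, one_mul, h1]

theorem omega_ne {u : Fin n → MvPolynomial (Fin n) K} (hu : Quad u)
    {g s : Fin n → Fin n → 𝔇} (H : SlotsIn u 𝔇 g s) :
    ∃ F0 ∈ HD 𝔇 (Ideal.span (Set.range u)) n, (DL g (List.finRange n) F0) 1 ≠ 0 := by
  have hd1 : hd (Ideal.span (Set.range u)) n ≠ 0 := by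
    rw [hu.hf, Nat.choose_self]
    exact one_ne_zero
  rw [Ne, hd_eq_zero_iff] at hd1
  push Not at hd1
  obtain ⟨f0, hf0, hf1⟩ := hd1
  have hf1' : f0 ∉ (Ideal.span (Set.range u)).restrictScalars K := hf1
  obtain ⟨ψ0, h1, h2⟩ := Submodule.exists_dual_map_eq_bot_of_notMem hf1' inferInstance
  have h3 : ∀ f ∈ Ideal.span (Set.range u), ψ0 f = 0 := by
    intro f hf
    have : ψ0 f ∈ ((Ideal.span (Set.range u)).restrictScalars K).map ψ0 := ⟨f, hf, rfl⟩
    rw [h2] at this
    exact this
  have hHI := coreB_HI hu.hom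
  set ψ : MvPolynomial (Fin n) K →ₗ[K] K := ψ0 ∘ₗ homogeneousComponent n with hψ
  refine ⟨(Algebra.linearMap K 𝔇) ∘ₗ ψ, ?_, ?_⟩
  · rw [mem_HD]
    constructor
    · intro f hf
      show Algebra.linearMap K 𝔇 (ψ0 (homogeneousComponent n f)) = 0
      rw [h3 _ (hHI f hf n), map_zero]
    · intro j hj f hf
      show Algebra.linearMap K 𝔇 (ψ0 (homogeneousComponent n f)) = 0
      rw [homogeneousComponent_of_mem ((mem_homogeneousSubmodule _ _).2 hf), if_neg (Ne.symm hj),
        map_zero, map_zero]
  · rw [← List.ofFn_id, coreB_formula]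
    have key := H.ne (fun t => ψ (∏ j, X (t j))) ?_
    · intro h0
      apply key
      rw [← h0]
      refine Finset.sum_congr rfl fun t _ => ?_
      rw [mul_one, Algebra.smul_def]
      rfl
    · intro h0
      have hψ0 : ∀ m : Fin n →₀ ℕ, Finsupp.degree m = n → ψ (monomial m 1) = 0 := by
        intro m hm
        obtain ⟨t, ht⟩ := coreB_mon (K := K) n m hm
        rw [← ht]
        exact congrFun h0 t
      apply h1
      have h4 : ψ f0 = ψ0 f0 := by
        show ψ0 (homogeneousComponent n f0) = ψ0 f0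
        rw [homogeneousComponent_eq_self hf0]
      rw [← h4, f0.as_sum, map_sum]
      refine Finset.sum_eq_zero fun m hm => ?_
      have h5 : Finsupp.degree m = n := by
        rw [Finsupp.degree_eq_weight_one]
        exact hf0 (mem_support_iff.1 hm)
      have h6 : monomial m (coeff m f0) = coeff m f0 • monomial m (1 : K) := by
        rw [smul_monomial, smul_eq_mul, mul_one]
      rw [h6, map_smul, hψ0 m h5, smul_zero]

theorem ev_surj {u : Fin n → MvPolynomial (Fin n) K} (hu : Quad u)
    {g s : Fin n → Fin n → 𝔇} (H : SlotsIn u 𝔇 g s) (U : Finset (Fin n)) :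
    ∃ G ∈ HD 𝔇 (Ideal.span (Set.range u)) U.card, ev g U.card G U ≠ 0 ∧
      ∀ V, V ≠ U → ev g U.card G V = 0 := by
  obtain ⟨F0, hF0, hω⟩ := omega_ne hu H
  have hnd : ((Uᶜ).sort (· ≤ ·)).Nodup := Finset.sort_nodup _ _
  have hlen : U.card + ((Uᶜ).sort (· ≤ ·)).length = n := by
    rw [Finset.length_sort, Finset.card_compl, Fintype.card_fin]
    have : U.card ≤ n := by
      have := Finset.card_le_univ U
      rwa [Fintype.card_fin] at this
    omega
  refine ⟨DL g ((Uᶜ).sort (· ≤ ·)) F0, ?_, ?_, ?_⟩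
  · apply DL_mem_HD
    rw [hlen]
    exact hF0
  · unfold ev
    rw [if_pos rfl, ← DL_append]
    have hp : (List.finRange n).Perm ((Uᶜ).sort (· ≤ ·) ++ U.sort (· ≤ ·)) := by
      rw [List.perm_ext_iff_of_nodup (List.nodup_finRange n)]
      · intro a
        rw [List.mem_append, Finset.mem_sort, Finset.mem_sort, Finset.mem_compl]
        have := List.mem_finRange a
        tauto
      · rw [List.nodup_append]
        refine ⟨Finset.sort_nodup _ _, Finset.sort_nodup _ _, ?_⟩
        intro a ha b hb hab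
        rw [Finset.mem_sort, Finset.mem_compl] at ha
        rw [Finset.mem_sort] at hb
        exact ha (by rw [hab]; exact hb)
    rcases DL_perm (K := K) H.anti hp (List.nodup_finRange n) with h | h
    · rw [h]
      exact hω
    · rw [h, LinearMap.neg_apply]
      exact neg_ne_zero.2 hω
  · intro V hV
    unfold ev
    split_ifs with hc
    · have hex : ∃ i ∈ V, i ∉ U := by
        by_contra hcon
        push Not at hcon
        exact hV (Finset.eq_of_subset_of_card_le hcon (by rw [hc]))
      obtain ⟨i, hiV, hiU⟩ := hex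
      have hil : i ∈ (Uᶜ).sort (· ≤ ·) := by
        rw [Finset.mem_sort, Finset.mem_compl]
        exact hiU
      have hp : ((Uᶜ).sort (· ≤ ·)).Perm (((Uᶜ).sort (· ≤ ·)).erase i ++ [i]) := by
        refine (List.perm_cons_erase hil).trans ?_
        exact (List.perm_append_singleton i _).symm
      have hlast : ∀ F : MvPolynomial (Fin n) K →ₗ[K] 𝔇, DL g (((Uᶜ).sort (· ≤ ·)).erase i ++ [i]) F =
          Dop (g i) (DL g (((Uᶜ).sort (· ≤ ·)).erase i) F) := by
        intro F
        rw [DL_append]
        rfl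
      have hkill : ∀ f ∈ Ideal.span (Set.range u),
          (DL g (((Uᶜ).sort (· ≤ ·)).erase i) F0) f = 0 := by
        have hm : DL g (((Uᶜ).sort (· ≤ ·)).erase i) F0 ∈
            HD 𝔇 (Ideal.span (Set.range u)) (U.card + 1) := by
          apply DL_mem_HD
          rw [List.length_erase_of_mem hil]
          have hpos : 0 < ((Uᶜ).sort (· ≤ ·)).length := List.length_pos_of_mem hil
          have : U.card + 1 + (((Uᶜ).sort (· ≤ ·)).length - 1) = n := by omega
          rw [this]
          exact hF0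
        exact (mem_HD.1 hm).1
      have hz := DL_eq_zero (K := K) hu.hom H (Finset.sort_nodup V (· ≤ ·))
        ((Finset.mem_sort (· ≤ ·)).2 hiV) hkill
      rcases DL_perm (K := K) H.anti hp hnd with h | h
      · rw [← h, hlast, hz, LinearMap.zero_apply]
      · have h' : DL g ((Uᶜ).sort (· ≤ ·)) F0 = (-1 : 𝔇) •
            Dop (g i) (DL g (((Uᶜ).sort (· ≤ ·)).erase i) F0) := by
          rw [← hlast, h]
          apply LinearMap.ext
          intro f
          rw [LinearMap.smul_apply, LinearMap.neg_apply, smul_eq_mul, neg_one_mul, neg_neg]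
        rw [h', DL_smul, hz, smul_zero, LinearMap.zero_apply]
    · rfl

theorem ev_inj {u : Fin n → MvPolynomial (Fin n) K} (hu : Quad u)
    {g s : Fin n → Fin n → 𝔇} (H : SlotsIn u 𝔇 g s) {k : ℕ}
    {F : MvPolynomial (Fin n) K →ₗ[K] 𝔇} (hF : F ∈ HD 𝔇 (Ideal.span (Set.range u)) k)
    (h0 : ev g k F = 0) : F = 0 := by
  classical
  let Φ : HD 𝔇 (Ideal.span (Set.range u)) k →ₗ[𝔇] ({U : Finset (Fin n) // U.card = k} → 𝔇) :=
    { toFun := fun G U => ev g k G.1 U.1
      map_add' := by
        intro G G'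
        funext U
        show ev g k (G.1 + G'.1) U.1 = ev g k G.1 U.1 + ev g k G'.1 U.1
        rw [ev_add, Pi.add_apply]
      map_smul' := by
        intro c G
        funext U
        show ev g k (c • G.1) U.1 = c • ev g k G.1 U.1
        rw [ev_smul, Pi.smul_apply] }
  have hHI := coreB_HI hu.hom
  haveI : Module.Finite 𝔇 (HD 𝔇 (Ideal.span (Set.range u)) k) := finite_HD 𝔇 hHI k
  have hfr : finrank 𝔇 (HD 𝔇 (Ideal.span (Set.range u)) k) =
      finrank 𝔇 ({U : Finset (Fin n) // U.card = k} → 𝔇) := by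
    rw [finrank_HD 𝔇 hHI, hu.hf, Module.finrank_fintype_fun_eq_card,
      Fintype.card_finset_len, Fintype.card_fin]
  have hex : ∀ U : {U : Finset (Fin n) // U.card = k},
      ∃ G : HD 𝔇 (Ideal.span (Set.range u)) k, Φ G U ≠ 0 ∧ ∀ V, V ≠ U → Φ G V = 0 := by
    rintro ⟨U, rfl⟩
    obtain ⟨G, hG, h1, h2⟩ := ev_surj hu H U
    refine ⟨⟨G, hG⟩, h1, ?_⟩
    rintro ⟨V, hV⟩ hne
    exact h2 V fun h => hne (Subtype.ext h)
  choose G hG1 hG2 using hex
  have hsurj : Function.Surjective Φ := by
    intro w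
    refine ⟨∑ U, (w U * (Φ (G U) U)⁻¹) • G U, ?_⟩
    rw [map_sum]
    funext V
    rw [Finset.sum_apply, Finset.sum_eq_single V]
    · rw [map_smul, Pi.smul_apply, smul_eq_mul, mul_assoc, inv_mul_cancel₀ (hG1 V), mul_one]
    · intro U _ hU
      rw [map_smul, Pi.smul_apply, hG2 U V (Ne.symm hU), smul_zero]
    · intro h
      exact absurd (Finset.mem_univ V) h
  have hinj : Function.Injective Φ := by
    exact (LinearMap.injective_iff_surjective_of_finrank_eq_finrank
      (K := 𝔇) (V := HD 𝔇 (Ideal.span (Set.range u)) k)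
      (V₂ := {U : Finset (Fin n) // U.card = k} → 𝔇) hfr (f := Φ)).2 hsurj
  have hz : Φ ⟨F, hF⟩ = 0 := by
    funext U
    show ev g k F U.1 = 0
    rw [h0]
    rfl
  have := hinj (hz.trans (map_zero Φ).symm)
  exact congrArg Subtype.val this

end Pool.Agent.EGH51
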