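import Mathlib

/-!
# Module LEADA: leading indices of a subspace over a division ring

PROOF.  Induct on the number of keys: `V_t := {w ∈ W | ∀ i, key i < t → w i = 0}`.  `V_0 = W`, `V_t = ⊥` for `t` large.  `V_t / V_{t+1}`: if `t = key i` for some (unique) `i`, the
map `w ↦ w i` on `V_t` has kernel `V_{t+1}` and its range (in `𝔇`) is `⊤` or `⊥`, `⊤` iff `i` is a leading index; if `t` is not a key, `V_t = V_{t+1}`.  Rank-nullity
over a division ring (`LinearMap.finrank_range_add_finrank_ker`).  So `finrank V_t = #{leading i with key i ≥ t}`.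
Alternatively: for each leading `i` choose `w_i ∈ W` with lead `i`, show that this family is a basis.
-/

set_option autoImplicit false
set_option linter.all false

noncomputable section

namespace Pool.Agent.EGH51

open Module

section

variable {𝔇 : Type*} [DivisionRing 𝔇] {ι : Type*} [Fintype ι]

private def leadA_V (key : ι → ℕ) (W : Submodule 𝔇 (ι → 𝔇)) (t : ℕ) : Submodule 𝔇 (ι → 𝔇) where
  carrier := {w | w ∈ W ∧ ∀ j, key j < t → w j = 0}
  add_mem' := by
    rintro a b ⟨a1, a2⟩ ⟨b1, b2⟩
    exact ⟨W.add_mem a1 b1, fun j hj => by rw [Pi.add_apply, a2 j hj, b2 j hj, add_zero]⟩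
  zero_mem' := ⟨W.zero_mem, fun _ _ => rfl⟩
  smul_mem' := by
    rintro c a ⟨a1, a2⟩
    exact ⟨W.smul_mem c a1, fun j hj => by rw [Pi.smul_apply, a2 j hj, smul_zero]⟩

private lemma leadA_mem {key : ι → ℕ} {W : Submodule 𝔇 (ι → 𝔇)} {t : ℕ} {w : ι → 𝔇} :
    w ∈ leadA_V key W t ↔ w ∈ W ∧ ∀ j, key j < t → w j = 0 := Iff.rfl

private lemma leadA_step_none {key : ι → ℕ} {W : Submodule 𝔇 (ι → 𝔇)} {t : ℕ}
    (h : ∀ i, key i ≠ t) : leadA_V key W t = leadA_V key W (t + 1) := by
  ext w
  rw [leadA_mem, leadA_mem]
  constructor
  · rintro ⟨h1, h2⟩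
    exact ⟨h1, fun j hj => h2 j (by have := h j; omega)⟩
  · rintro ⟨h1, h2⟩
    exact ⟨h1, fun j hj => h2 j (by omega)⟩

private lemma leadA_step {key : ι → ℕ} (hkey : Function.Injective key)
    {W : Submodule 𝔇 (ι → 𝔇)} (i : ι) :
    finrank 𝔇 (leadA_V key W (key i)) =
      finrank 𝔇 (LinearMap.range ((LinearMap.proj (R := 𝔇) (φ := fun _ : ι => 𝔇) i).domRestrict
        (leadA_V key W (key i)))) + finrank 𝔇 (leadA_V key W (key i + 1)) := by
  have h1 := LinearMap.finrank_range_add_finrank_ker
    ((LinearMap.proj (R := 𝔇) (φ := fun _ : ι => 𝔇) i).domRestrict (leadA_V key W (key i)))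
  have h2 : finrank 𝔇 (LinearMap.ker
      ((LinearMap.proj (R := 𝔇) (φ := fun _ : ι => 𝔇) i).domRestrict (leadA_V key W (key i)))) =
      finrank 𝔇 (leadA_V key W (key i + 1)) := by
    have h3 : leadA_V key W (key i + 1) = (LinearMap.ker
      ((LinearMap.proj (R := 𝔇) (φ := fun _ : ι => 𝔇) i).domRestrict
        (leadA_V key W (key i)))).map (leadA_V key W (key i)).subtype := by
      ext w
      rw [Submodule.mem_map]
      constructor
      · rintro ⟨a1, a2⟩
        refine ⟨⟨w, a1, fun j hj => a2 j (by omega)⟩, ?_, rfl⟩
        rw [LinearMap.mem_ker]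
        exact a2 i (by omega)
      · rintro ⟨⟨v, v1, v2⟩, hv, rfl⟩
        rw [LinearMap.mem_ker] at hv
        refine ⟨v1, fun j hj => ?_⟩
        by_cases hji : j = i
        · subst hji
          exact hv
        · exact v2 j (by
            have : key j ≠ key i := fun h => hji (hkey h)
            omega)
    rw [h3]
    exact (Submodule.equivMapOfInjective _ (leadA_V key W (key i)).injective_subtype _).finrank_eq
  rw [← h2, h1]

end

open Classical in
theorem card_leads {𝔇 : Type*} [DivisionRing 𝔇] {ι : Type*} [Fintype ι] (key : ι → ℕ)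
    (hkey : Function.Injective key) (W : Submodule 𝔇 (ι → 𝔇)) :
    (Finset.univ.filter (fun i : ι => ∃ w ∈ W, w i ≠ 0 ∧ ∀ j, key j < key i → w j = 0)).card =
      finrank 𝔇 W := by
  set P : ι → Prop := fun i => ∃ w ∈ W, w i ≠ 0 ∧ ∀ j, key j < key i → w j = 0 with hP
  have main : ∀ n t : ℕ, (∀ i, key i < t + n) →
      (Finset.univ.filter (fun i : ι => P i ∧ t ≤ key i)).card =
        finrank 𝔇 (leadA_V key W t) := by
    intro n
    induction n with
    | zero =>
      intro t ht
      have h1 : Finset.univ.filter (fun i : ι => P i ∧ t ≤ key i) = ∅ := by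
        rw [Finset.filter_eq_empty_iff]
        rintro i - ⟨-, h⟩
        have := ht i
        omega
      have h2 : leadA_V key W t = ⊥ := by
        rw [eq_bot_iff]
        rintro w ⟨-, hw⟩
        rw [Submodule.mem_bot]
        ext j
        exact hw j (by have := ht j; omega)
      rw [h1, h2, Finset.card_empty, finrank_bot]
    | succ n ih =>
      intro t ht
      have ih' := ih (t + 1) (fun i => by have := ht i; omega)
      by_cases hex : ∃ i, key i = t
      · obtain ⟨i, rfl⟩ := hex
        rw [leadA_step hkey i, ← ih']
        by_cases hi : P i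
        · have h1 : Finset.univ.filter (fun j : ι => P j ∧ key i ≤ key j) =
              insert i (Finset.univ.filter (fun j : ι => P j ∧ key i + 1 ≤ key j)) := by
            ext j
            simp only [Finset.mem_filter, Finset.mem_univ, true_and, Finset.mem_insert]
            constructor
            · rintro ⟨a, b⟩
              by_cases hji : j = i
              · exact Or.inl hji
              · right
                have : key j ≠ key i := fun h => hji (hkey h)
                exact ⟨a, by omega⟩
            · rintro (rfl | ⟨a, b⟩)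
              · exact ⟨hi, le_refl _⟩
              · exact ⟨a, by omega⟩
          have h2 : LinearMap.range ((LinearMap.proj (R := 𝔇) (φ := fun _ : ι => 𝔇) i).domRestrict
              (leadA_V key W (key i))) = ⊤ := by
            obtain ⟨w, w1, w2, w3⟩ := hi
            rw [eq_top_iff]
            intro c _
            have hm : (c * (w i)⁻¹) • w ∈ leadA_V key W (key i) :=
              Submodule.smul_mem _ _ ⟨w1, w3⟩
            refine ⟨⟨_, hm⟩, ?_⟩
            show ((c * (w i)⁻¹) • w) i = c
            rw [Pi.smul_apply, smul_eq_mul, mul_assoc, inv_mul_cancel₀ w2, mul_one]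
          rw [h1, h2, finrank_top, Module.finrank_self, Finset.card_insert_of_notMem, add_comm]
          simp
        · have h1 : Finset.univ.filter (fun j : ι => P j ∧ key i ≤ key j) =
              Finset.univ.filter (fun j : ι => P j ∧ key i + 1 ≤ key j) := by
            ext j
            simp only [Finset.mem_filter, Finset.mem_univ, true_and]
            constructor
            · rintro ⟨a, b⟩
              have hji : j ≠ i := by
                rintro rfl
                exact hi a
              have : key j ≠ key i := fun h => hji (hkey h)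
              exact ⟨a, by omega⟩
            · rintro ⟨a, b⟩
              exact ⟨a, by omega⟩
          have h2 : LinearMap.range ((LinearMap.proj (R := 𝔇) (φ := fun _ : ι => 𝔇) i).domRestrict
              (leadA_V key W (key i))) = ⊥ := by
            rw [eq_bot_iff]
            rintro _ ⟨⟨w, w1, w2⟩, rfl⟩
            rw [Submodule.mem_bot]
            by_contra hc
            exact hi ⟨w, w1, hc, w2⟩
          rw [h1, h2, finrank_bot, zero_add]
      · have hex : ∀ i, key i ≠ t := fun i hi => hex ⟨i, hi⟩
        rw [leadA_step_none hex, ← ih']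
        congr 1
        ext j
        simp only [Finset.mem_filter, Finset.mem_univ, true_and]
        have := hex j
        constructor
        · rintro ⟨a, b⟩
          exact ⟨a, by omega⟩
        · rintro ⟨a, b⟩
          exact ⟨a, by omega⟩
  have h0 := main (Finset.univ.sup key + 1) 0 (fun i => by
    have := Finset.le_sup (f := key) (Finset.mem_univ i)
    omega)
  have h1 : leadA_V key W 0 = W := by
    ext w
    rw [leadA_mem]
    exact ⟨fun h => h.1, fun h => ⟨h, fun j hj => by omega⟩⟩
  rw [h1] at h0
  rw [← h0]
  congr 1
  ext j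
  simp only [Finset.mem_filter, Finset.mem_univ, true_and, Nat.zero_le, and_true]
  exact Iff.rfl

end Pool.Agent.EGH51
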