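import Mathlib
import Pool.Agent.EGH51.LeadA

/-!
# Module LEAD: the leading sets form a simplicial complex

PROOF.  `key U := ∑ i ∈ U, 2 ^ i.val` (injective on `Finset (Fin c)`, `Finset.sum_two_pow…`/`Finset.geomSum…`-lemmas or `Finset.Colex`; see
`Finset.geomSum_injective`, `Finset.geomSum_lt_geomSum_iff_toColex_lt_toColex`), `key (insert i V) = 2 ^ i + key V` for `i ∉ V`.
`U` is a leader of degree `k` if there is `w ∈ W k` with `w U ≠ 0` and `w V = 0` for all `V` with `key V < key U`; then `U.card = k` by `hsupp`.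
`Δ := {U | U is a leader of degree U.card}` (classical filter of `univ`).  `(Δ.filter (card = k)).card = finrank (W k)` by `card_leads`.
Down-closed: let `U` be a leader, `U.card = k + 1`, `i ∈ U`, `w` as above, `w'` from `hder k i w`.  `w' (U.erase i) = ε * w (insert i (U.erase i)) = ε * w U ≠ 0`.  If
`key V < key (U.erase i)` then `w' V = 0`: if `V.card ≠ k` by `hsupp`; if `i ∈ V` by `hder`; else `w' V = ε * w (insert i V)` and
`key (insert i V) = 2 ^ i + key V < 2 ^ i + key (U.erase i) = key U`.  So `U.erase i` is a leader; iterate for `V ⊆ U` (induction on `(U \ V).card`).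
-/

set_option autoImplicit false
set_option linter.all false

noncomputable section

namespace Pool.Agent.EGH51

open Module

/-- the key of a set -/
private def Lead_key {c : ℕ} (U : Finset (Fin c)) : ℕ := ∑ i ∈ U, 2 ^ (i : ℕ)

private lemma Lead_key_inj {c : ℕ} : Function.Injective (Lead_key (c := c)) := by
  intro U V h
  apply Finset.map_injective Fin.valEmbedding
  apply Finset.geomSum_injective (n := 2) le_rfl
  simpa [Lead_key, Finset.sum_map] using h

private lemma Lead_key_insert {c : ℕ} (i : Fin c) (V : Finset (Fin c)) (h : i ∉ V) :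
    Lead_key (insert i V) = 2 ^ (i : ℕ) + Lead_key V := by
  rw [Lead_key, Finset.sum_insert h, Lead_key]

theorem lead {𝔇 : Type*} [DivisionRing 𝔇] (c : ℕ) (W : ℕ → Submodule 𝔇 (Finset (Fin c) → 𝔇))
    (hsupp : ∀ k, ∀ w ∈ W k, ∀ U : Finset (Fin c), U.card ≠ k → w U = 0)
    (hder : ∀ k (i : Fin c), ∀ w ∈ W (k + 1), ∃ w' ∈ W k, ∀ V : Finset (Fin c), V.card = k →
      (i ∈ V → w' V = 0) ∧ (i ∉ V → ∃ ε : 𝔇, ε ≠ 0 ∧ w' V = ε * w (insert i V))) :
    ∃ Δ : Finset (Finset (Fin c)), (∀ U ∈ Δ, ∀ V, V ⊆ U → V ∈ Δ) ∧
      ∀ k, (Δ.filter (fun U => U.card = k)).card = finrank 𝔇 (W k) := by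
  classical
  -- leaders of degree `k`
  set L : ℕ → Finset (Fin c) → Prop := fun k U =>
    ∃ w ∈ W k, w U ≠ 0 ∧ ∀ V, Lead_key V < Lead_key U → w V = 0 with hL
  have hcard : ∀ k U, L k U → U.card = k := by
    rintro k U ⟨w, hw, h1, -⟩
    by_contra h
    exact h1 (hsupp k w hw U h)
  have hstep : ∀ k U (i : Fin c), i ∈ U → L (k + 1) U → L k (U.erase i) := by
    intro k U i hi hLU
    have hUc := hcard _ _ hLU
    obtain ⟨w, hw, h1, h2⟩ := hLU
    obtain ⟨w', hw', h3⟩ := hder k i w hw
    refine ⟨w', hw', ?_, ?_⟩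
    · have hc : (U.erase i).card = k := by rw [Finset.card_erase_of_mem hi, hUc]; rfl
      obtain ⟨ε, hε, h4⟩ := (h3 (U.erase i) hc).2 (Finset.notMem_erase i U)
      rw [h4, Finset.insert_erase hi]
      exact mul_ne_zero hε h1
    · intro V hV
      by_cases hVc : V.card = k
      · by_cases hiV : i ∈ V
        · exact (h3 V hVc).1 hiV
        · obtain ⟨ε, hε, h4⟩ := (h3 V hVc).2 hiV
          rw [h4, h2 (insert i V), mul_zero]
          have h5 : Lead_key U = 2 ^ (i : ℕ) + Lead_key (U.erase i) := by
            rw [← Lead_key_insert i _ (Finset.notMem_erase i U), Finset.insert_erase hi]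
          rw [Lead_key_insert i V hiV, h5]
          omega
      · exact hsupp k w' hw' V hVc
  refine ⟨Finset.univ.filter (fun U => L U.card U), ?_, ?_⟩
  · -- down-closed
    have hind : ∀ n, ∀ U V : Finset (Fin c), (U \ V).card = n → V ⊆ U → L U.card U →
        L V.card V := by
      intro n
      induction n with
      | zero =>
        intro U V h1 h2 h3
        have h4 : U = V := by
          rw [Finset.card_eq_zero, Finset.sdiff_eq_empty_iff_subset] at h1
          exact Finset.Subset.antisymm h1 h2
        rw [← h4]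
        exact h3
      | succ n ih =>
        intro U V h1 h2 h3
        obtain ⟨i, hi⟩ : (U \ V).Nonempty := by
          rw [← Finset.card_pos, h1]
          exact Nat.succ_pos n
        rw [Finset.mem_sdiff] at hi
        have h5 : (U.erase i).card + 1 = U.card := Finset.card_erase_add_one hi.1
        have h6 : L (U.erase i).card (U.erase i) := by
          apply hstep _ U i hi.1
          rw [h5]
          exact h3
        refine ih (U.erase i) V ?_ ?_ h6
        · rw [Finset.erase_sdiff_comm, Finset.card_erase_of_mem (Finset.mem_sdiff.2 hi), h1]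
          rfl
        · intro x hx
          rw [Finset.mem_erase]
          exact ⟨fun h => hi.2 (h ▸ hx), h2 hx⟩
    intro U hU V hVU
    rw [Finset.mem_filter] at hU ⊢
    exact ⟨Finset.mem_univ _, hind _ U V rfl hVU hU.2⟩
  · intro k
    rw [← card_leads (𝔇 := 𝔇) Lead_key Lead_key_inj (W k)]
    congr 1
    ext U
    simp only [Finset.mem_filter, Finset.mem_univ, true_and]
    constructor
    · rintro ⟨h1, h2⟩
      rw [h2] at h1
      exact h1
    · intro h1
      have h2 := hcard k U h1
      exact ⟨by rw [h2]; exact h1, h2⟩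

end Pool.Agent.EGH51
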