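import Mathlib
import Pool.Agent.EGH51.Defs
import Pool.Agent.EGH51.DimS

/-!
# Module HF: Hilbert function of a complete intersection of quadrics

PROOF of `hd_of_WR`.  By induction on the list: for a list `l` of `r` quadrics with `WR l` (head = last element),
`hd (IL (a :: l)) j = hd (IL l) j - hd (IL l) (j - 2)` (`j ≥ 2`; equal to `hd (IL l) j` for `j < 2`): this is `hd_col`, `hd_low`,
`NZD.col_eq` of `CB/CIBasic.lean` with `IL_cons`.  As power series over `ℤ`: `H_{l} = (1 - X^2)^r * (1 - X)^{-N}`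
(`PowerSeries.invOneSubPow`, `finrank_hom` for `l = []`; `hd ⊥ j = finrank (homogeneousSubmodule j)`, `IL_nil`).  For `r = N`:
`(1 - X^2)^N = (1 - X)^N * (1 + X)^N`, so `H = (1 + X)^N`, coefficient `N.choose j`.  (`N = 0`: `hd ⊥ j = 1, 0, 0, …`, see `finrank_S0` in
`CB/CIThm.lean`.)
-/

set_option autoImplicit false
set_option linter.all false

noncomputable section

namespace Pool.Agent.EGH51

open Module MvPolynomial Pool.Agent.CB

variable {K : Type*} [Field K] {N : ℕ}

/-- Hilbert series -/
private def HFun_ser (I : Ideal (MvPolynomial (Fin N) K)) : PowerSeries ℤ :=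
  PowerSeries.mk fun j => (hd I j : ℤ)

private lemma HFun_bot (j : ℕ) :
    hd (⊥ : Ideal (MvPolynomial (Fin N) K)) j = finrank K (homogeneousSubmodule (Fin N) K j) := by
  have h : Jn (⊥ : Ideal (MvPolynomial (Fin N) K)) j = ⊥ := by
    rw [eq_bot_iff]
    intro x hx
    exact hx.1
  unfold hd
  rw [h, finrank_bot, Nat.sub_zero]

private lemma HFun_nil :
    (1 - PowerSeries.X) ^ N * HFun_ser (⊥ : Ideal (MvPolynomial (Fin N) K)) = 1 := by
  rcases Nat.eq_zero_or_pos N with rfl | hN
  · rw [pow_zero, one_mul]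
    ext j
    rw [HFun_ser, PowerSeries.coeff_mk, PowerSeries.coeff_one, HFun_bot]
    split_ifs with h
    · rw [h, finrank_S0]; rfl
    · have : homogeneousSubmodule (Fin 0) K j = ⊥ := by
        rw [eq_bot_iff]
        intro f hf
        rw [Submodule.mem_bot]
        by_contra hne
        obtain ⟨m, hm⟩ := MvPolynomial.ne_zero_iff.1 hne
        have h1 := hf hm
        have h2 : m = 0 := Subsingleton.elim _ _
        rw [h2] at h1
        simp at h1
        exact h h1.symm
      rw [this, finrank_bot]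
      rfl
  · have h1 : HFun_ser (⊥ : Ideal (MvPolynomial (Fin N) K)) =
        (PowerSeries.invOneSubPow ℤ N).val := by
      rw [PowerSeries.invOneSubPow_val_eq_mk_sub_one_add_choose_of_pos ℤ N hN]
      ext j
      rw [HFun_ser, PowerSeries.coeff_mk, PowerSeries.coeff_mk, HFun_bot, finrank_hom K hN]
      have : j + N - 1 = N - 1 + j := by omega
      rw [this]
    rw [h1, ← PowerSeries.invOneSubPow_inv_eq_one_sub_pow]
    exact Units.inv_mul _

private lemma HFun_cons {I : Ideal (MvPolynomial (Fin N) K)} (hI : HI I)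
    {f : MvPolynomial (Fin N) K} (hf : f.IsHomogeneous 2) (h : NZD I f) :
    HFun_ser (I ⊔ Ideal.span {f}) = (1 - PowerSeries.X ^ 2) * HFun_ser I := by
  have key : HFun_ser I = HFun_ser (I ⊔ Ideal.span {f}) + PowerSeries.X ^ 2 * HFun_ser I := by
    ext j
    rw [map_add, PowerSeries.coeff_X_pow_mul']
    simp only [HFun_ser, PowerSeries.coeff_mk]
    split_ifs with hj
    · obtain ⟨i, rfl⟩ := Nat.exists_eq_add_of_le' hj
      have h1 := hd_col hI hf i
      rw [h.col_eq] at h1
      rw [Nat.add_sub_cancel]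
      rw [← h1]
      push_cast
      ring
    · rw [hd_low hI hf (not_le.1 hj), add_zero]
  linear_combination (-1 : PowerSeries ℤ) * key

private lemma HFun_list (l : List (ℕ × MvPolynomial (Fin N) K))
    (hl : ∀ a ∈ l, a.1 = 2 ∧ a.2.IsHomogeneous 2) (h : WR l) :
    (1 - PowerSeries.X) ^ N * HFun_ser (IL l) = (1 - PowerSeries.X ^ 2) ^ l.length := by
  induction l with
  | nil => rw [IL_nil, HFun_nil]; simp
  | cons a l ih =>
    have hok : ∀ b ∈ l, okf b := by
      intro b hb
      obtain ⟨h1, h2⟩ := hl b (List.mem_cons_of_mem _ hb)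
      exact ⟨by omega, by rw [h1]; exact h2⟩
    rw [IL_cons, HFun_cons (HI_IL hok) (hl a List.mem_cons_self).2 h.2, List.length_cons,
      pow_succ (1 - PowerSeries.X ^ 2) l.length]
    have := ih (fun b hb => hl b (List.mem_cons_of_mem _ hb)) h.1
    rw [← this]
    ring

theorem hd_of_WR (l : List (ℕ × MvPolynomial (Fin N) K)) (hlen : l.length = N)
    (hl : ∀ a ∈ l, a.1 = 2 ∧ a.2.IsHomogeneous 2) (h : WR l) (j : ℕ) :
    hd (IL l) j = N.choose j := by
  have h1 := HFun_list l hl h
  rw [hlen] at h1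
  have h2 : (1 - PowerSeries.X ^ 2 : PowerSeries ℤ) ^ N =
      (1 - PowerSeries.X) ^ N * (1 + PowerSeries.X) ^ N := by
    rw [← mul_pow]
    congr 1
    ring
  rw [h2] at h1
  have h3 : ((1 - PowerSeries.X : PowerSeries ℤ)) ^ N ≠ 0 := by
    intro h0
    have := congrArg PowerSeries.constantCoeff h0
    simp at this
  have h4 := mul_left_cancel₀ h3 h1
  have h5 := congrArg (PowerSeries.coeff j) h4
  rw [HFun_ser, PowerSeries.coeff_mk] at h5
  have h6 : PowerSeries.coeff j ((1 + PowerSeries.X : PowerSeries ℤ) ^ N) = (N.choose j : ℤ) := by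
    have : (1 + PowerSeries.X : PowerSeries ℤ) ^ N =
        (((1 + Polynomial.X : Polynomial ℤ) ^ N : Polynomial ℤ) : PowerSeries ℤ) := by
      simp
    rw [this, Polynomial.coeff_coe, Polynomial.coeff_one_add_X_pow]
  rw [h6] at h5
  exact_mod_cast h5

end Pool.Agent.EGH51
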