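import Mathlib
import Pool.Agent.EGH51.Defs
import Pool.Agent.EGH51.HFun

/-!
# Module QUADZ: quadrics without common zero

PROOF of `quad_of_WR`.  `l = List.ofFn (fun k => (2, u k))`.  `nzd k`: move `(2, u k)` to the head (`List.Perm`, `WR_perm` of `CB/CIList.lean`), then `WR` says
`NZD (IL (rest)) (u k)` and `IL rest = span (u '' {k}ᶜ)` (membership in a list `ofFn` without the entry of index `k`; for instance use the permutation
`List.ofFn v ~ v k :: List.ofFn (v ∘ k.succAbove)`, `N = N' + 1`).  `hf`: `hd_of_WR`, `IL l = span (range u)`.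
PROOF of `quad_of_NZ`.  `CI_of_NZ` (`CB/CIThm.lean`) gives `CI l`, in particular `WR l` (`CI.wr`).
-/

set_option autoImplicit false
set_option linter.all false

noncomputable section

namespace Pool.Agent.EGH51

open Module MvPolynomial Pool.Agent.CB

variable {K : Type*} [Field K] {N : ℕ}

theorem quad_of_WR {u : Fin N → MvPolynomial (Fin N) K} (hu : ∀ k, (u k).IsHomogeneous 2)
    (h : WR (List.ofFn fun k => (2, u k))) : Quad u := by
  have hok : ∀ a ∈ List.ofFn (fun k : Fin N => ((2 : ℕ), u k)), okf a := by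
    intro a ha
    obtain ⟨k, rfl⟩ := List.mem_ofFn.1 ha
    exact ⟨by norm_num, hu k⟩
  have hIL : IL (List.ofFn fun k : Fin N => ((2 : ℕ), u k)) = Ideal.span (Set.range u) := by
    unfold IL
    congr 1
    ext f
    constructor
    · rintro ⟨a, ha, rfl⟩
      obtain ⟨k, rfl⟩ := List.mem_ofFn.1 ha
      exact ⟨k, rfl⟩
    · rintro ⟨k, rfl⟩
      exact ⟨(2, u k), List.mem_ofFn.2 ⟨k, rfl⟩, rfl⟩
  refine ⟨hu, ?_, ?_⟩
  · intro k
    obtain ⟨n, rfl⟩ : ∃ n, N = n + 1 := ⟨N - 1, by have := k.2; omega⟩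
    have hperm : (List.ofFn fun j : Fin (n + 1) => ((2 : ℕ), u j)).Perm
        ((2, u k) :: List.ofFn fun j : Fin n => ((2 : ℕ), u (k.succAbove j))) := by
      rw [List.ofFn_eq_map, List.ofFn_eq_map]
      have h1 : (List.finRange (n + 1)).Perm (k :: (List.finRange n).map k.succAbove) := by
        rw [List.perm_ext_iff_of_nodup (List.nodup_finRange _)]
        · intro a
          rcases eq_or_ne a k with rfl | hak
          · simp
          · obtain ⟨b, rfl⟩ := Fin.exists_succAbove_eq hak
            simp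
        · rw [List.nodup_cons]
          refine ⟨?_, (List.nodup_finRange n).map Fin.succAbove_right_injective⟩
          intro hk
          obtain ⟨b, _, hb⟩ := List.mem_map.1 hk
          exact Fin.succAbove_ne k b hb
      have h2 := h1.map (fun j : Fin (n + 1) => ((2 : ℕ), u j))
      rw [List.map_cons, List.map_map] at h2
      exact h2
    have hw := WR_perm hperm hok h
    have hz : NZD (IL (List.ofFn fun j : Fin n => ((2 : ℕ), u (k.succAbove j)))) (u k) := hw.2
    have hEq : IL (List.ofFn fun j : Fin n => ((2 : ℕ), u (k.succAbove j))) =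
        Ideal.span (u '' {k}ᶜ) := by
      unfold IL
      congr 1
      ext f
      constructor
      · rintro ⟨a, ha, rfl⟩
        obtain ⟨j, rfl⟩ := List.mem_ofFn.1 ha
        exact ⟨k.succAbove j, Fin.succAbove_ne k j, rfl⟩
      · rintro ⟨j, hj, rfl⟩
        obtain ⟨b, rfl⟩ := Fin.exists_succAbove_eq (show j ≠ k from hj)
        exact ⟨(2, u (k.succAbove b)), List.mem_ofFn.2 ⟨b, rfl⟩, rfl⟩
    rw [hEq] at hz
    exact hz
  · intro i
    have hh := hd_of_WR (List.ofFn fun k : Fin N => ((2 : ℕ), u k)) (by simp) ?_ h i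
    · rw [hIL] at hh
      exact hh
    · intro a ha
      obtain ⟨k, rfl⟩ := List.mem_ofFn.1 ha
      exact ⟨rfl, hu k⟩

theorem quad_of_NZ [IsAlgClosed K] {u : Fin N → MvPolynomial (Fin N) K}
    (hu : ∀ k, (u k).IsHomogeneous 2)
    (hnz : ∀ x : Fin N → K, (∀ k, eval x (u k) = 0) → x = 0) : Quad u := by
  refine quad_of_WR hu ?_
  refine (CI_of_NZ (List.ofFn fun k : Fin N => ((2 : ℕ), u k)) (by simp) ?_ ?_).wr
  · intro a ha
    obtain ⟨k, rfl⟩ := List.mem_ofFn.1 ha
    exact ⟨by norm_num, hu k⟩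
  · intro x hx
    refine hnz x fun k => ?_
    exact hx _ (List.mem_ofFn.2 ⟨k, rfl⟩)

end Pool.Agent.EGH51
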