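import Mathlib
import Pool.Agent.EGH51.Defs

/-!
# Module GRADA: homogeneous matrices

PROOFS.  `GR_mul`: entries of the product are sums of products; a monomial with nonzero coefficient in `z I J' * w J' J` is a sum of one of each
(`coeff_mul`, `Finset.exists_ne_zero_of_sum_ne_zero`), `Finsupp.degree` is additive.
`gm_mem`: entries of `cre a` are constants, nonzero only if `I.card = J.card + 1`; those of `anh b` are constants, nonzero only if `J.card = I.card + 1`,
and `qq u a b` is a linear form.  `AG_le_GR`: `word u α l ∈ GR (2 |α| + l.length)` by induction on `l`.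
-/

set_option autoImplicit false
set_option linter.all false

noncomputable section

namespace Pool.Agent.EGH51

open Module MvPolynomial Pool.Agent.CB

variable {K : Type*} [Field K] {N : ℕ}

theorem one_mem_GR : (1 : Mt K N) ∈ GR K N 0 := by
  intro I J m h
  rw [Matrix.one_apply] at h
  by_cases hIJ : I = J
  · subst hIJ
    rw [if_pos rfl] at h
    by_cases hm : m = 0
    · subst hm; simp
    · exfalso
      apply h
      rw [coeff_one, if_neg (fun e => hm e.symm)]
  · rw [if_neg hIJ] at h
    simp at h

theorem GR_mul {n m : ℕ} {z w : Mt K N} (hz : z ∈ GR K N n) (hw : w ∈ GR K N m) :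
    z * w ∈ GR K N (n + m) := by
  intro I J d h
  rw [Matrix.mul_apply, coeff_sum] at h
  obtain ⟨J', -, h1⟩ := Finset.exists_ne_zero_of_sum_ne_zero h
  rw [coeff_mul] at h1
  obtain ⟨p, hp, h2⟩ := Finset.exists_ne_zero_of_sum_ne_zero h1
  rw [Finset.HasAntidiagonal.mem_antidiagonal] at hp
  have a1 := hz I J' p.1 (left_ne_zero_of_mul h2)
  have a2 := hw J' J p.2 (right_ne_zero_of_mul h2)
  have a3 : Finsupp.degree d = Finsupp.degree p.1 + Finsupp.degree p.2 := by
    rw [← hp, map_add]
  omega

private theorem GradA_sgn (a : Fin N) (I : Finset (Fin N)) :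
    (sgn a I : MvPolynomial (Fin N) K) = C ((-1) ^ (I.filter (· < a)).card) := by
  simp [sgn]

private theorem GradA_coeff_sgn {a : Fin N} {I : Finset (Fin N)} {m : Fin N →₀ ℕ}
    (h : coeff m (sgn a I : MvPolynomial (Fin N) K) ≠ 0) : m = 0 := by
  rw [GradA_sgn, coeff_C] at h
  by_contra hm
  apply h
  rw [if_neg (fun e => hm e.symm)]

private theorem GradA_cre (a : Fin N) : (cre a : Mt K N) ∈ GR K N 1 := by
  intro I J m h
  rw [cre, Matrix.of_apply] at h
  by_cases hc : a ∈ I ∧ J = I.erase a
  · rw [if_pos hc] at h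
    have hm := GradA_coeff_sgn h
    subst hm
    rw [hc.2, Finset.card_erase_of_mem hc.1]
    have : 0 < I.card := Finset.card_pos.mpr ⟨a, hc.1⟩
    simp only [map_zero]
    omega
  · rw [if_neg hc] at h
    simp at h

private theorem GradA_qq (u : Fin N → MvPolynomial (Fin N) K) (a b : Fin N) {m : Fin N →₀ ℕ}
    (h : coeff m (qq u a b) ≠ 0) : Finsupp.degree m = 1 := by
  rw [qq, coeff_sum] at h
  obtain ⟨k, -, h1⟩ := Finset.exists_ne_zero_of_sum_ne_zero h
  rw [coeff_smul, coeff_X'] at h1
  by_cases hk : Finsupp.single k 1 = m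
  · rw [← hk, Finsupp.degree_single]
  · rw [if_neg hk] at h1
    simp at h1

private theorem GradA_anh (u : Fin N → MvPolynomial (Fin N) K) (a b : Fin N) :
    (qq u a b • anh b : Mt K N) ∈ GR K N 1 := by
  intro I J m h
  rw [Matrix.smul_apply, smul_eq_mul, anh, Matrix.of_apply] at h
  by_cases hc : b ∉ I ∧ J = insert b I
  · rw [if_pos hc, GradA_sgn, mul_comm, coeff_C_mul] at h
    have h1 := GradA_qq u a b (right_ne_zero_of_mul h)
    rw [h1, hc.2, Finset.card_insert_of_notMem hc.1]
    omega
  · rw [if_neg hc] at h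
    simp at h

theorem gm_mem (u : Fin N → MvPolynomial (Fin N) K) (a : Fin N) : gm u a ∈ GR K N 1 := by
  rw [gm]
  exact (GR K N 1).add_mem (GradA_cre a)
    (Submodule.sum_mem _ fun b _ => GradA_anh u a b)

theorem monomial_smul_mem {n : ℕ} {z : Mt K N} (hz : z ∈ GR K N n) (α : Fin N →₀ ℕ) :
    (monomial α (1 : K)) • z ∈ GR K N (n + 2 * Finsupp.degree α) := by
  intro I J m h
  rw [Matrix.smul_apply, smul_eq_mul, coeff_monomial_mul'] at h
  by_cases hc : α ≤ m
  · rw [if_pos hc, one_mul] at h
    have h1 := hz I J _ h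
    have h2 : Finsupp.degree m = Finsupp.degree α + Finsupp.degree (m - α) := by
      rw [← map_add, add_tsub_cancel_of_le hc]
    omega
  · rw [if_neg hc] at h
    exact absurd rfl h

private theorem GradA_prod (u : Fin N → MvPolynomial (Fin N) K) (l : List (Fin N)) :
    (l.map (gm u)).prod ∈ GR K N l.length := by
  induction l with
  | nil => simpa using one_mem_GR
  | cons a l ih =>
    rw [List.map_cons, List.prod_cons, List.length_cons, add_comm]
    exact GR_mul (gm_mem u a) ih

theorem AG_le_GR (u : Fin N → MvPolynomial (Fin N) K) (n : ℕ) : AG u n ≤ GR K N n := by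
  rw [AG, Submodule.span_le]
  rintro z ⟨α, l, hn, rfl⟩
  have h := monomial_smul_mem (GradA_prod u l) α
  rw [show l.length + 2 * Finsupp.degree α = n by omega] at h
  exact h

end Pool.Agent.EGH51
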