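import Mathlib
import Pool.Agent.EGH51.Defs

/-!
# Module GRADB: the graded pieces of the Clifford algebra multiply

PROOFS.  `AG_mul`: `word u α l * word u β l' = word u (α + β) (l ++ l')` (`smul_mul_smul_comm`, `monomial_mul`), `Submodule.mul_le`-type double span induction.
`smul_mem_AG`: `p` is a sum of terms `monomial β c` with `|β| = j` (`MvPolynomial.support_sum_monomial_coeff`), `monomial β c • word u α l = c • word u (β + α) l`.
-/

set_option autoImplicit false
set_option linter.all false

noncomputable section

namespace Pool.Agent.EGH51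

open Module MvPolynomial Pool.Agent.CB

variable {K : Type*} [Field K] {N : ℕ}

private lemma gradB_word_mul (u : Fin N → MvPolynomial (Fin N) K) (α β : Fin N →₀ ℕ)
    (l l' : List (Fin N)) : word u α l * word u β l' = word u (α + β) (l ++ l') := by
  unfold word
  rw [smul_mul_smul_comm, monomial_mul, one_mul, List.map_append, List.prod_append]

private lemma gradB_word_mem (u : Fin N → MvPolynomial (Fin N) K) (α : Fin N →₀ ℕ)
    (l : List (Fin N)) {n : ℕ} (h : 2 * Finsupp.degree α + l.length = n) :
    word u α l ∈ AG u n :=
  Submodule.subset_span ⟨α, l, h, rfl⟩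

theorem AG_mul {u : Fin N → MvPolynomial (Fin N) K} {n m : ℕ} {z w : Mt K N} (hz : z ∈ AG u n)
    (hw : w ∈ AG u m) : z * w ∈ AG u (n + m) := by
  unfold AG at hz
  induction hz using Submodule.span_induction with
  | mem z hz =>
    obtain ⟨α, l, h1, rfl⟩ := hz
    unfold AG at hw
    induction hw using Submodule.span_induction with
    | mem w hw =>
      obtain ⟨β, l', h2, rfl⟩ := hw
      rw [gradB_word_mul]
      apply gradB_word_mem
      rw [map_add, List.length_append]
      omega
    | zero => rw [mul_zero]; exact Submodule.zero_mem _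
    | add x y _ _ hx hy => rw [mul_add]; exact Submodule.add_mem _ hx hy
    | smul c x _ hx => rw [mul_smul_comm]; exact Submodule.smul_mem _ _ hx
  | zero => rw [zero_mul]; exact Submodule.zero_mem _
  | add x y _ _ hx hy => rw [add_mul]; exact Submodule.add_mem _ hx hy
  | smul c x _ hx => rw [smul_mul_assoc]; exact Submodule.smul_mem _ _ hx

theorem one_mem_AG (u : Fin N → MvPolynomial (Fin N) K) : (1 : Mt K N) ∈ AG u 0 := by
  have h : (1 : Mt K N) = word u 0 [] := by
    unfold word
    rw [List.map_nil, List.prod_nil, show (monomial (0 : Fin N →₀ ℕ) (1 : K)) = 1 from rfl, one_smul]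
  rw [h]
  apply gradB_word_mem
  simp

theorem gm_mem_AG (u : Fin N → MvPolynomial (Fin N) K) (a : Fin N) : gm u a ∈ AG u 1 := by
  have h : gm u a = word u 0 [a] := by
    unfold word
    rw [List.map_singleton, List.prod_singleton,
      show (monomial (0 : Fin N →₀ ℕ) (1 : K)) = 1 from rfl, one_smul]
  rw [h]
  apply gradB_word_mem
  simp

theorem smul_mem_AG {u : Fin N → MvPolynomial (Fin N) K} {n j : ℕ} {z : Mt K N}
    (hz : z ∈ AG u n) {p : MvPolynomial (Fin N) K} (hp : p.IsHomogeneous j) :
    p • z ∈ AG u (n + 2 * j) := by
  rw [← support_sum_monomial_coeff p, Finset.sum_smul]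
  refine Submodule.sum_mem _ fun β hβ => ?_
  have hd : Finsupp.degree β = j := by
    have := hp (mem_support_iff.mp hβ)
    rw [← this, Finsupp.degree_eq_weight_one]
    rfl
  generalize coeff β p = c
  clear hβ hp
  unfold AG at hz
  induction hz using Submodule.span_induction with
  | mem z hz =>
    obtain ⟨α, l, h1, rfl⟩ := hz
    have h : (monomial β c : MvPolynomial (Fin N) K) • word u α l = c • word u (β + α) l := by
      unfold word
      rw [smul_smul, monomial_mul, mul_one, ← smul_assoc, smul_monomial, smul_eq_mul, mul_one]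
    rw [h]
    apply Submodule.smul_mem
    apply gradB_word_mem
    rw [map_add, hd]
    omega
  | zero => rw [smul_zero]; exact Submodule.zero_mem _
  | add x y _ _ hx hy => rw [smul_add]; exact Submodule.add_mem _ hx hy
  | smul e x _ hx => rw [smul_comm]; exact Submodule.smul_mem _ _ hx

end Pool.Agent.EGH51
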