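import Mathlib
import Pool.Agent.EGH51.Defs

/-!
# Module GRADC: projections to the homogeneous components of a matrix

PROOF.  Entrywise: `pr n z I J := homogeneousComponent ((n + J.card - I.card) / 2) (z I J)` if `I.card ≤ n + J.card` and `n + J.card - I.card` is even, else `0`
(linear in `z`).  On `GR K N n`: every monomial of `z I J` has degree `d` with `2 d + I.card = n + J.card`.  On `GR K N m`, `m ≠ n`: the degree `d` satisfies
`2 d + I.card = m + J.card`, so the component is `0`.  (`coeff_homogeneousComponent`.)
-/

set_option autoImplicit false
set_option linter.all false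

noncomputable section

namespace Pool.Agent.EGH51

open Module MvPolynomial Pool.Agent.CB

/-- the projection to the component of degree `n` -/
private def GradC_pr (K : Type*) [Field K] (N n : ℕ) : Mt K N →ₗ[K] Mt K N where
  toFun z := Matrix.of fun I J =>
    if I.card ≤ n + J.card ∧ (n + J.card - I.card) % 2 = 0 then
      homogeneousComponent ((n + J.card - I.card) / 2) (z I J) else 0
  map_add' z w := by
    ext1 I J
    simp only [Matrix.of_apply, Matrix.add_apply]
    split_ifs
    · rw [map_add]
    · rw [add_zero]
  map_smul' c z := by
    ext1 I J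
    simp only [Matrix.of_apply, Matrix.smul_apply, RingHom.id_apply]
    split_ifs
    · rw [map_smul]
    · rw [smul_zero]

private theorem GradC_pr_apply (K : Type*) [Field K] (N n : ℕ) (z : Mt K N)
    (I J : Finset (Fin N)) : GradC_pr K N n z I J =
      if I.card ≤ n + J.card ∧ (n + J.card - I.card) % 2 = 0 then
        homogeneousComponent ((n + J.card - I.card) / 2) (z I J) else 0 := rfl

theorem exists_pr (K : Type*) [Field K] (N : ℕ) : ∃ pr : ℕ → Mt K N →ₗ[K] Mt K N,
    (∀ n, ∀ z ∈ GR K N n, pr n z = z) ∧ ∀ n m, n ≠ m → ∀ z ∈ GR K N m, pr n z = 0 := by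
  refine ⟨GradC_pr K N, ?_, ?_⟩
  · intro n z hz
    ext I J m
    rw [GradC_pr_apply]
    have hz' := hz I J m
    by_cases h0 : coeff m (z I J) = 0
    · split_ifs with h
      · rw [coeff_homogeneousComponent]
        split_ifs
        · rfl
        · exact h0.symm
      · rw [coeff_zero, h0]
    · have h1 := hz' h0
      rw [if_pos (by omega), coeff_homogeneousComponent, if_pos (by omega)]
  · intro n m' hnm z hz
    ext I J m
    rw [GradC_pr_apply]
    have hz' := hz I J m
    by_cases h0 : coeff m (z I J) = 0
    · split_ifs with h
      · rw [coeff_homogeneousComponent]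
        split_ifs
        · rw [h0, Matrix.zero_apply, coeff_zero]
        · rw [Matrix.zero_apply, coeff_zero]
      · rfl
    · have h1 := hz' h0
      split_ifs with h
      · rw [coeff_homogeneousComponent, if_neg (by omega), Matrix.zero_apply, coeff_zero]
      · rfl

end Pool.Agent.EGH51
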