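import Mathlib
import Pool.Agent.EGH51.Defs
import Pool.Agent.EGH51.GradA
import Pool.Agent.EGH51.GradB
import Pool.Agent.EGH51.GradC

/-!
# Module DIVA: the Clifford algebra has no zero divisors

PROOF.  1. `mem_iSup_AG`: every `z ∈ AA u` is in `⨆ n, AG u n`: `Algebra.adjoin_induction` (`gm_mem_AG`; `algebraMap p = p • 1`, `p` is the sum of its homogeneous
components, `smul_mem_AG`, `one_mem_AG`; products: `AG_mul`, `Submodule.iSup_induction` twice).
2. So `a = ∑ n ∈ s, a n` with `a n ∈ AG u n` (`Submodule.mem_iSup_iff_exists_finsupp`), and `pr n a = a n` for the projections of `exists_pr` (`AG_le_GR`).  For nonzero `a, b`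
take the largest `n`, `m` with `a n ≠ 0`, `b m ≠ 0`; `pr (n + m) (a * b) = a n * b m` (the product `a i * b j` is in `AG u (i + j) ≤ GR (i + j)`, and
`i + j = n + m`, `i ≤ n`, `j ≤ m` forces `i = n`, `j = m`), nonzero by `hdom`.
-/

set_option autoImplicit false
set_option linter.all false

noncomputable section

namespace Pool.Agent.EGH51

open Module MvPolynomial Pool.Agent.CB

universe v

private theorem DivA_smul {K : Type v} [Field K] {N : ℕ} {u : Fin N → MvPolynomial (Fin N) K}
    (p : MvPolynomial (Fin N) K) {z : Mt K N} (hz : z ∈ ⨆ n, AG u n) :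
    p • z ∈ ⨆ n, AG u n := by
  induction hz using Submodule.iSup_induction' with
  | mem n z hz =>
    rw [← sum_homogeneousComponent p, Finset.sum_smul]
    exact Submodule.sum_mem _ fun j _ =>
      Submodule.mem_iSup_of_mem (n + 2 * j) (smul_mem_AG hz (homogeneousComponent_isHomogeneous j p))
  | zero => rw [smul_zero]; exact Submodule.zero_mem _
  | add x y _ _ hx hy => rw [smul_add]; exact Submodule.add_mem _ hx hy

private theorem DivA_mul {K : Type v} [Field K] {N : ℕ} {u : Fin N → MvPolynomial (Fin N) K}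
    {z w : Mt K N} (hz : z ∈ ⨆ n, AG u n) (hw : w ∈ ⨆ n, AG u n) :
    z * w ∈ ⨆ n, AG u n := by
  induction hz using Submodule.iSup_induction' with
  | mem n z hz =>
    induction hw using Submodule.iSup_induction' with
    | mem m w hw => exact Submodule.mem_iSup_of_mem (n + m) (AG_mul hz hw)
    | zero => rw [mul_zero]; exact Submodule.zero_mem _
    | add x y _ _ hx hy => rw [mul_add]; exact Submodule.add_mem _ hx hy
  | zero => rw [zero_mul]; exact Submodule.zero_mem _
  | add x y _ _ hx hy => rw [add_mul]; exact Submodule.add_mem _ hx hy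

private theorem DivA_dec {K : Type v} [Field K] {N : ℕ} {u : Fin N → MvPolynomial (Fin N) K}
    {z : Mt K N} (hz : z ∈ ⨆ n, AG u n) (h0 : z ≠ 0) :
    ∃ (n : ℕ) (f : ℕ → Mt K N), (∀ i, f i ∈ AG u i) ∧ f n ≠ 0 ∧
      z = ∑ i ∈ Finset.range (n + 1), f i := by
  classical
  have key : ∃ (M : ℕ) (f : ℕ → Mt K N), (∀ i, f i ∈ AG u i) ∧
      z = ∑ i ∈ Finset.range M, f i := by
    clear h0
    obtain ⟨f, hf, hs⟩ := (Submodule.mem_iSup_iff_exists_finsupp _ _).1 hz
    refine ⟨f.support.sup id + 1, f, hf, ?_⟩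
    rw [← hs, Finsupp.sum]
    refine Finset.sum_subset (fun i hi => Finset.mem_range.2 (Nat.lt_succ_of_le
      (Finset.le_sup (f := id) hi))) (fun i _ hi => ?_)
    simpa using hi
  obtain ⟨M, f, hf, hs⟩ := key
  induction M with
  | zero => exact absurd (by rw [hs, Finset.range_zero, Finset.sum_empty]) h0
  | succ M ih =>
    by_cases h : f M = 0
    · apply ih
      rw [hs, Finset.sum_range_succ, h, add_zero]
    · exact ⟨M, f, hf, h, hs⟩

theorem mem_iSup_AG {K : Type v} [Field K] {N : ℕ} {u : Fin N → MvPolynomial (Fin N) K}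
    {z : Mt K N} (hz : z ∈ AA u) : z ∈ ⨆ n, AG u n := by
  have hz' : z ∈ Algebra.adjoin (MvPolynomial (Fin N) K) (Set.range (gm u)) := hz
  induction hz' using Algebra.adjoin_induction with
  | mem x hx =>
    obtain ⟨a, rfl⟩ := hx
    exact Submodule.mem_iSup_of_mem 1 (gm_mem_AG u a)
  | algebraMap p =>
    rw [Algebra.algebraMap_eq_smul_one]
    exact DivA_smul p (Submodule.mem_iSup_of_mem 0 (one_mem_AG u))
  | add x y hx hy ihx ihy => exact Submodule.add_mem _ (ihx hx) (ihy hy)
  | mul x y hx hy ihx ihy => exact DivA_mul (ihx hx) (ihy hy)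

theorem AA_domain {K : Type v} [Field K] {N : ℕ} {u : Fin N → MvPolynomial (Fin N) K}
    (hdom : ∀ d e : ℕ, ∀ a b : Mt K N, a ∈ AG u d → b ∈ AG u e → a ≠ 0 → b ≠ 0 → a * b ≠ 0)
    {a b : Mt K N} (ha : a ∈ AA u) (hb : b ∈ AA u) (hab : a * b = 0) : a = 0 ∨ b = 0 := by
  by_contra hne
  push Not at hne
  obtain ⟨ha0, hb0⟩ := hne
  obtain ⟨n, f, hf, hfn, hfs⟩ := DivA_dec (mem_iSup_AG ha) ha0
  obtain ⟨m, g, hg, hgm, hgs⟩ := DivA_dec (mem_iSup_AG hb) hb0
  obtain ⟨pr, hpr1, hpr2⟩ := exists_pr K N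
  apply hdom n m (f n) (g m) (hf n) (hg m) hfn hgm
  have h1 : pr (n + m) (a * b) = f n * g m := by
    rw [hfs, hgs, Finset.sum_mul_sum, map_sum]
    rw [Finset.sum_eq_single n, map_sum, Finset.sum_eq_single m]
    · exact hpr1 _ _ (AG_le_GR u (n + m) (AG_mul (hf n) (hg m)))
    · intro j hj hjm
      exact hpr2 _ _ (by omega) _ (AG_le_GR u (n + j) (AG_mul (hf n) (hg j)))
    · intro h
      exact absurd (Finset.mem_range.2 (Nat.lt_succ_self m)) h
    · intro i hi hin
      rw [map_sum]
      refine Finset.sum_eq_zero fun j hj => ?_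
      have h1 := Finset.mem_range.1 hi
      have h2 := Finset.mem_range.1 hj
      exact hpr2 _ _ (by omega) _ (AG_le_GR u (i + j) (AG_mul (hf i) (hg j)))
    · intro h
      exact absurd (Finset.mem_range.2 (Nat.lt_succ_self n)) h
  rw [← h1, hab, map_zero]

end Pool.Agent.EGH51
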