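import Mathlib
import Pool.Agent.EGH51.Defs
import Pool.Agent.EGH51.DivA

/-!
# Module DIVB: a division ring containing the Clifford algebra

PROOF.  `P = MvPolynomial (Fin N) K`, `F = FractionRing P`, `ι : Mt K N →+* Matrix _ _ F`, `ι = (algebraMap P F).mapMatrix` (injective, also a `K`-algebra map; `F` is a
`K`-algebra, `IsScalarTower K P F`).  `𝔇 := Algebra.adjoin F (Set.range fun a => ι (gm u a))`, a subalgebra of the matrices over `F`.
1. Every `x ∈ 𝔇` has `p ≠ 0` in `P` and `z ∈ AA u` with `(algebraMap P F p) • x = ι z` (`Algebra.adjoin_induction`: generators; `algebraMap F _ r`, `r = a / p`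
(`IsLocalization.mk'_surjective` / `IsFractionRing.div_surjective`); sums: common denominator; products).
2. `𝔇` has no zero divisors: if `x * y = 0`, then `ι (z * w) = (p q) • (x * y) = 0`, so `z * w = 0`, `z = 0` or `w = 0` (`AA_domain`), so `p • x = 0` or `q • y = 0`.
3. `𝔇` is finite dimensional over `F` (submodule of matrices), nontrivial, so `divisionRingOfFiniteDimensional` (`Mathlib/RingTheory/…`; it takes `[IsDomain 𝔇]`) makes it a division
ring with the same multiplication; keep the `K`-algebra structure of `𝔇`.  `φ z := ⟨ι z, _⟩` (`ι z ∈ 𝔇` for `z ∈ AA u` by `Algebra.adjoin_induction`).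
-/

set_option autoImplicit false
set_option linter.all false

noncomputable section

namespace Pool.Agent.EGH51

open Module MvPolynomial Pool.Agent.CB

universe v

/-- the matrices over the field of fractions -/
private abbrev DivB_F (K : Type v) [Field K] (N : ℕ) : Type v :=
  FractionRing (MvPolynomial (Fin N) K)

private abbrev DivB_MF (K : Type v) [Field K] (N : ℕ) : Type v :=
  Matrix (Finset (Fin N)) (Finset (Fin N)) (DivB_F K N)

/-- the inclusion of the matrices -/
private def DivB_i (K : Type v) [Field K] (N : ℕ) : Mt K N →ₐ[K] DivB_MF K N :=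
  (IsScalarTower.toAlgHom K (MvPolynomial (Fin N) K) (DivB_F K N)).mapMatrix

private lemma DivB_i_apply {K : Type v} [Field K] {N : ℕ} (z : Mt K N) (I J : Finset (Fin N)) :
    DivB_i K N z I J = algebraMap (MvPolynomial (Fin N) K) (DivB_F K N) (z I J) := rfl

private lemma DivB_i_inj {K : Type v} [Field K] {N : ℕ} : Function.Injective (DivB_i K N) := by
  intro z w h
  ext1 I J
  have h1 := congrFun (congrFun h I) J
  rw [DivB_i_apply, DivB_i_apply] at h1
  exact IsFractionRing.injective (MvPolynomial (Fin N) K) (DivB_F K N) h1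

private lemma DivB_i_smul {K : Type v} [Field K] {N : ℕ} (p : MvPolynomial (Fin N) K)
    (z : Mt K N) :
    DivB_i K N (p • z) = algebraMap (MvPolynomial (Fin N) K) (DivB_F K N) p • DivB_i K N z := by
  ext1 I J
  rw [DivB_i_apply, Matrix.smul_apply, Matrix.smul_apply, DivB_i_apply, smul_eq_mul, smul_eq_mul,
    map_mul]

private lemma DivB_i_one_smul {K : Type v} [Field K] {N : ℕ} (p : MvPolynomial (Fin N) K) :
    DivB_i K N (p • 1) = algebraMap (DivB_F K N) (DivB_MF K N)
      (algebraMap (MvPolynomial (Fin N) K) (DivB_F K N) p) := by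
  rw [DivB_i_smul, map_one]
  exact (Algebra.algebraMap_eq_smul_one _).symm

/-- the division ring, as a subalgebra of the matrices -/
private def DivB_D {K : Type v} [Field K] {N : ℕ} (u : Fin N → MvPolynomial (Fin N) K) :
    Subalgebra (DivB_F K N) (DivB_MF K N) :=
  Algebra.adjoin (DivB_F K N) (Set.range fun a => DivB_i K N (gm u a))

private lemma DivB_mem {K : Type v} [Field K] {N : ℕ} {u : Fin N → MvPolynomial (Fin N) K}
    {z : Mt K N} (hz : z ∈ AA u) : DivB_i K N z ∈ DivB_D u := by
  have hz' : z ∈ Algebra.adjoin (MvPolynomial (Fin N) K) (Set.range (gm u)) := hz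
  induction hz' using Algebra.adjoin_induction with
  | mem x hx =>
    obtain ⟨a, rfl⟩ := hx
    exact Algebra.subset_adjoin ⟨a, rfl⟩
  | algebraMap r =>
    rw [Algebra.algebraMap_eq_smul_one, DivB_i_one_smul]
    exact Subalgebra.algebraMap_mem _ _
  | add x y hx hy h1 h2 =>
    rw [map_add]
    exact Subalgebra.add_mem _ (h1 hx) (h2 hy)
  | mul x y hx hy h1 h2 =>
    rw [map_mul]
    exact Subalgebra.mul_mem _ (h1 hx) (h2 hy)

private lemma DivB_denom {K : Type v} [Field K] {N : ℕ} {u : Fin N → MvPolynomial (Fin N) K}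
    {x : DivB_MF K N} (hx : x ∈ DivB_D u) :
    ∃ p : MvPolynomial (Fin N) K, p ≠ 0 ∧ ∃ z ∈ AA u,
      algebraMap (MvPolynomial (Fin N) K) (DivB_F K N) p • x = DivB_i K N z := by
  have hx' : x ∈ Algebra.adjoin (DivB_F K N) (Set.range fun a => DivB_i K N (gm u a)) := hx
  clear hx
  induction hx' using Algebra.adjoin_induction with
  | mem x hx =>
    obtain ⟨a, rfl⟩ := hx
    exact ⟨1, one_ne_zero, gm u a, gm_mem_AA u a, by rw [map_one, one_smul]⟩
  | algebraMap r =>
    obtain ⟨a, p, hp, rfl⟩ := IsFractionRing.div_surjective (A := MvPolynomial (Fin N) K) r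
    have hp0 : p ≠ 0 := nonZeroDivisors.ne_zero hp
    have hp1 : algebraMap (MvPolynomial (Fin N) K) (DivB_F K N) p ≠ 0 := by
      intro h
      exact hp0 ((map_eq_zero_iff _ (IsFractionRing.injective _ _)).1 h)
    refine ⟨p, hp0, a • 1, smul_mem_AA u a (Subalgebra.one_mem _), ?_⟩
    rw [DivB_i_one_smul, Algebra.smul_def, ← map_mul (algebraMap (DivB_F K N) (DivB_MF K N)),
      mul_div_cancel₀ _ hp1]
  | add x y hx hy h1 h2 =>
    obtain ⟨p, hp, z, hz, e1⟩ := h1
    obtain ⟨q, hq, w, hw, e2⟩ := h2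
    refine ⟨p * q, mul_ne_zero hp hq, q • z + p • w,
      Subalgebra.add_mem _ (smul_mem_AA u q hz) (smul_mem_AA u p hw), ?_⟩
    rw [map_add, DivB_i_smul, DivB_i_smul, ← e1, ← e2, map_mul, smul_add, smul_smul, smul_smul,
      mul_comm (algebraMap _ _ q)]
  | mul x y hx hy h1 h2 =>
    obtain ⟨p, hp, z, hz, e1⟩ := h1
    obtain ⟨q, hq, w, hw, e2⟩ := h2
    refine ⟨p * q, mul_ne_zero hp hq, z * w, Subalgebra.mul_mem _ hz hw, ?_⟩
    rw [map_mul (DivB_i K N), ← e1, ← e2, map_mul, smul_mul_smul_comm]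

private lemma DivB_nzd {K : Type v} [Field K] {N : ℕ} {u : Fin N → MvPolynomial (Fin N) K}
    (hdom : ∀ d e : ℕ, ∀ a b : Mt K N, a ∈ AG u d → b ∈ AG u e → a ≠ 0 → b ≠ 0 → a * b ≠ 0)
    {x y : DivB_MF K N} (hx : x ∈ DivB_D u) (hy : y ∈ DivB_D u) (hxy : x * y = 0) :
    x = 0 ∨ y = 0 := by
  obtain ⟨p, hp, z, hz, e1⟩ := DivB_denom hx
  obtain ⟨q, hq, w, hw, e2⟩ := DivB_denom hy
  have hne : ∀ p : MvPolynomial (Fin N) K, p ≠ 0 →
      algebraMap (MvPolynomial (Fin N) K) (DivB_F K N) p ≠ 0 := fun p hp h =>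
    hp ((map_eq_zero_iff _ (IsFractionRing.injective _ _)).1 h)
  have h1 : DivB_i K N (z * w) = 0 := by
    rw [map_mul, ← e1, ← e2, smul_mul_smul_comm, hxy, smul_zero]
  have h2 : z * w = 0 := DivB_i_inj (by rw [h1, map_zero])
  rcases AA_domain hdom hz hw h2 with h3 | h3
  · left
    rw [h3, map_zero] at e1
    exact (smul_eq_zero.1 e1).resolve_left (hne p hp)
  · right
    rw [h3, map_zero] at e2
    exact (smul_eq_zero.1 e2).resolve_left (hne q hq)

theorem exists_div {K : Type v} [Field K] {N : ℕ} (u : Fin N → MvPolynomial (Fin N) K)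
    (hdom : ∀ d e : ℕ, ∀ a b : Mt K N, a ∈ AG u d → b ∈ AG u e → a ≠ 0 → b ≠ 0 → a * b ≠ 0) :
    ∃ (𝔇 : Type v) (_ : DivisionRing 𝔇) (_ : Algebra K 𝔇) (φ : AA u →ₐ[K] 𝔇),
      Function.Injective φ := by
  have i1 : NoZeroDivisors (DivB_D u) := ⟨fun {x y} h => by
    have h1 : (x : DivB_MF K N) * y = 0 := congrArg Subtype.val h
    rcases DivB_nzd hdom x.2 y.2 h1 with h2 | h2
    · exact Or.inl (Subtype.ext h2)
    · exact Or.inr (Subtype.ext h2)⟩
  have i2 : IsDomain (DivB_D u) := NoZeroDivisors.to_isDomain _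
  have i3 : FiniteDimensional (DivB_F K N) (DivB_D u) := inferInstance
  let φ : AA u →ₐ[K] DivB_D u :=
    { toFun := fun z => ⟨DivB_i K N z.1, DivB_mem z.2⟩
      map_one' := Subtype.ext (by simp)
      map_mul' := fun x y => Subtype.ext (by simp)
      map_zero' := Subtype.ext (by simp)
      map_add' := fun x y => Subtype.ext (by simp)
      commutes' := fun k => Subtype.ext (by
        change DivB_i K N (algebraMap K (Mt K N) k) = algebraMap K (DivB_MF K N) k
        exact (DivB_i K N).commutes k) }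
  have hφ : Function.Injective φ := by
    intro x y h
    exact Subtype.ext (DivB_i_inj (congrArg Subtype.val h))
  exact ⟨DivB_D u, divisionRingOfFiniteDimensional (DivB_F K N) (DivB_D u),
    inferInstanceAs (Algebra K (DivB_D u)), φ, hφ⟩

end Pool.Agent.EGH51
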