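import Mathlib
import Pool.Agent.EGH51.Defs

/-!
# Module DIMH: dimension of the spaces of functionals

PROOF.  `HH I i T` is isomorphic to `(S_i ⧸ I_i) →ₗ[K] T`: a functional of `HH I i T` is determined by its restriction to
`S_i = homogeneousSubmodule (Fin N) K i` (it satisfies `F f = F (homogeneousComponent i f)`), which kills `I_i = Jn I i`; conversely a linear map
`S_i ⧸ (Jn I i).comap S_i.subtype →ₗ T` gives `F := (it) ∘ mkQ ∘ homogeneousComponent i`, which kills `I` since `I` is homogeneous
(`HI I`).  `Module.finrank_linearMap`, and `finrank (S_i ⧸ …) = finrank S_i - finrank (Jn I i) = hd I i` (`hd`, `hd_add` in `CB/CIBasic.lean`).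
-/

set_option autoImplicit false
set_option linter.all false

noncomputable section

namespace Pool.Agent.EGH51

open Module MvPolynomial Pool.Agent.CB

variable {K : Type*} [Field K] {N : ℕ} {R : Type*} [Ring R] [Algebra K R]

/-- the projection to the degree `i` part -/
private def dimHpi (N : ℕ) (i : ℕ) :
    MvPolynomial (Fin N) K →ₗ[K] homogeneousSubmodule (Fin N) K i :=
  LinearMap.codRestrict _ (homogeneousComponent i) fun f =>
    (mem_homogeneousSubmodule _ _).2 (homogeneousComponent_isHomogeneous i f)

private lemma dimHpi_self {i : ℕ} (x : homogeneousSubmodule (Fin N) K i) :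
    dimHpi N i (x : MvPolynomial (Fin N) K) = x := by
  apply Subtype.ext
  show homogeneousComponent i (x : MvPolynomial (Fin N) K) = x
  exact homogeneousComponent_eq_self ((mem_homogeneousSubmodule _ _).1 x.2)

private lemma dimHpi_of_ne {i j : ℕ} (h : j ≠ i) {f : MvPolynomial (Fin N) K}
    (hf : f.IsHomogeneous j) : dimHpi N i f = 0 := by
  apply Subtype.ext
  show homogeneousComponent i f = 0
  rw [homogeneousComponent_of_mem ((mem_homogeneousSubmodule _ _).2 hf), if_neg (Ne.symm h)]

private def dimHJ (I : Ideal (MvPolynomial (Fin N) K)) (i : ℕ) :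
    Submodule K (homogeneousSubmodule (Fin N) K i) :=
  (Jn I i).comap (homogeneousSubmodule (Fin N) K i).subtype

private def dimHphi (I : Ideal (MvPolynomial (Fin N) K)) (i : ℕ) (T : Submodule K R) :
    ((homogeneousSubmodule (Fin N) K i ⧸ dimHJ I i) →ₗ[K] T) →ₗ[K]
      (MvPolynomial (Fin N) K →ₗ[K] R) where
  toFun G := T.subtype ∘ₗ G ∘ₗ (dimHJ I i).mkQ ∘ₗ dimHpi N i
  map_add' G G' := LinearMap.ext fun f => rfl
  map_smul' c G := LinearMap.ext fun f => rfl

private lemma dimHphi_apply (I : Ideal (MvPolynomial (Fin N) K)) (i : ℕ) (T : Submodule K R)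
    (G : (homogeneousSubmodule (Fin N) K i ⧸ dimHJ I i) →ₗ[K] T) (f : MvPolynomial (Fin N) K) :
    dimHphi I i T G f = (G ((dimHJ I i).mkQ (dimHpi N i f)) : R) := rfl

private lemma dimHphi_inj (I : Ideal (MvPolynomial (Fin N) K)) (i : ℕ) (T : Submodule K R) :
    Function.Injective (dimHphi I i T) := by
  rw [injective_iff_map_eq_zero]
  intro G hG
  apply LinearMap.ext
  intro x
  obtain ⟨y, rfl⟩ := (dimHJ I i).mkQ_surjective x
  apply Subtype.ext
  have h1 : dimHphi I i T G (y : MvPolynomial (Fin N) K) = 0 := by
    rw [hG]; rfl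
  rw [dimHphi_apply, dimHpi_self] at h1
  exact h1

private lemma dimHphi_range {I : Ideal (MvPolynomial (Fin N) K)} (hI : HI I) (i : ℕ)
    (T : Submodule K R) : LinearMap.range (dimHphi I i T) = HH I i T := by
  apply le_antisymm
  · rintro _ ⟨G, rfl⟩
    refine ⟨?_, ?_, ?_⟩
    · intro f hf
      rw [dimHphi_apply]
      have h1 : (dimHJ I i).mkQ (dimHpi N i f) = 0 := by
        rw [Submodule.mkQ_apply, Submodule.Quotient.mk_eq_zero]
        exact ⟨hI f hf i, homogeneousComponent_isHomogeneous i f⟩
      rw [h1, map_zero]
      rfl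
    · intro j hj f hf
      rw [dimHphi_apply, dimHpi_of_ne hj hf, map_zero, map_zero]
      rfl
    · intro f
      rw [dimHphi_apply]
      exact (G _).2
  · rintro F ⟨h1, h2, h3⟩
    have hF : ∀ f, F f = F (homogeneousComponent i f) := by
      intro f
      conv_lhs => rw [← sum_homogeneousComponent f, map_sum]
      by_cases hi : i ∈ Finset.range (f.totalDegree + 1)
      · rw [Finset.sum_eq_single_of_mem i hi]
        intro j _ hj
        exact h2 j hj _ (homogeneousComponent_isHomogeneous j f)
      · have h0 : homogeneousComponent i f = 0 := by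
          apply homogeneousComponent_eq_zero
          simp only [Finset.mem_range, not_lt] at hi
          omega
        rw [h0, map_zero]
        refine Finset.sum_eq_zero fun j hj => ?_
        apply h2 j _ _ (homogeneousComponent_isHomogeneous j f)
        rintro rfl
        exact hi hj
    let F' : homogeneousSubmodule (Fin N) K i →ₗ[K] T :=
      LinearMap.codRestrict T (F ∘ₗ (homogeneousSubmodule (Fin N) K i).subtype) fun x => h3 _
    have hker : dimHJ I i ≤ LinearMap.ker F' := by
      intro x hx
      rw [LinearMap.mem_ker]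
      apply Subtype.ext
      show F (x : MvPolynomial (Fin N) K) = 0
      exact h1 _ hx.1
    refine ⟨(dimHJ I i).liftQ F' hker, ?_⟩
    apply LinearMap.ext
    intro f
    rw [dimHphi_apply, Submodule.mkQ_apply, Submodule.liftQ_apply]
    show F (homogeneousComponent i f) = F f
    exact (hF f).symm

private lemma dimHJ_finrank (I : Ideal (MvPolynomial (Fin N) K)) (i : ℕ) :
    finrank K (dimHJ I i) = finrank K (Jn I i) := by
  have h3 : (Jn I i) = (dimHJ I i).map (homogeneousSubmodule (Fin N) K i).subtype := by
    rw [dimHJ, Submodule.map_comap_subtype]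
    exact (inf_eq_right.2 (Jn_le I i)).symm
  conv_rhs => rw [h3]
  exact (LinearEquiv.finrank_eq (Submodule.equivMapOfInjective _
    (homogeneousSubmodule (Fin N) K i).injective_subtype _))

theorem finite_HH {I : Ideal (MvPolynomial (Fin N) K)} (hI : HI I) (i : ℕ) (T : Submodule K R)
    [FiniteDimensional K T] : FiniteDimensional K (HH I i T) := by
  rw [← dimHphi_range hI i T]
  infer_instance

theorem finrank_HH {I : Ideal (MvPolynomial (Fin N) K)} (hI : HI I) (i : ℕ) (T : Submodule K R)
    [FiniteDimensional K T] : finrank K (HH I i T) = hd I i * finrank K T := by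
  rw [← dimHphi_range hI i T, LinearMap.finrank_range_of_inj (dimHphi_inj I i T),
    Module.finrank_linearMap]
  congr 1
  have h1 := Submodule.finrank_quotient_add_finrank (dimHJ I i)
  have h2 := hd_add I i
  rw [dimHJ_finrank] at h1
  omega

end Pool.Agent.EGH51
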