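import Mathlib
import Pool.Agent.EGH51.Defs
import Pool.Agent.EGH51.Car
import Pool.Agent.EGH51.RelSq

/-!
# Module MATREL: the matrices satisfy the Clifford relations

PROOF.  Expand `gm u a = cre a + ∑_{b ≥ a} qq u a b • anh b` with the relations of `Car.lean`: the terms `anh * anh` cancel and
`gm u a * gm u a = ∑_{b ≥ a} qq u a b • (cre a * anh b + anh b * cre a) = qq u a a • 1` (for the square of the sum `A = ∑ q_b • anh b`: `A * A = 0`, pair the terms
`b < c`, `c < b`, `anh_sq`; `sum_split_pairs` of `RelSq.lean` helps); for `a < b`,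
`gm u a * gm u b + gm u b * gm u a = ∑_{c ≥ b} qq u b c • {cre a, anh c} + ∑_{c ≥ a} qq u a c • {cre b, anh c} = 0 + qq u a b • 1`; for `a > b` exchange them and use
`qc_comm` (`RelSq.lean`).  Finally `qq u a b • 1 = ∑_k qc (u k) a b • (X k • 1)`.
-/

set_option autoImplicit false
set_option linter.all false

noncomputable section

namespace Pool.Agent.EGH51

open Module MvPolynomial Pool.Agent.CB

variable {K : Type*} [Field K] {N : ℕ}

private def MatRel_p (u : Fin N → MvPolynomial (Fin N) K) (a b : Fin N) :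
    MvPolynomial (Fin N) K := if a ≤ b then qq u a b else 0

private def MatRel_A (u : Fin N → MvPolynomial (Fin N) K) (a : Fin N) : Mt K N :=
  ∑ b, MatRel_p u a b • anh b

private lemma MatRel_gm_eq (u : Fin N → MvPolynomial (Fin N) K) (a : Fin N) :
    gm u a = cre a + MatRel_A u a := by
  unfold gm MatRel_A MatRel_p
  rw [Finset.sum_filter]
  congr 1
  refine Finset.sum_congr rfl fun b _ => ?_
  split_ifs with h
  · rfl
  · rw [zero_smul]

private lemma MatRel_cre_A (u : Fin N → MvPolynomial (Fin N) K) (a b : Fin N) :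
    cre a * MatRel_A u b + MatRel_A u b * cre a = MatRel_p u b a • (1 : Mt K N) := by
  unfold MatRel_A
  rw [Finset.mul_sum, Finset.sum_mul, ← Finset.sum_add_distrib,
    Finset.sum_eq_single a]
  · rw [mul_smul_comm, smul_mul_assoc, ← smul_add, cre_anh, if_pos rfl]
  · intro c _ hc
    rw [mul_smul_comm, smul_mul_assoc, ← smul_add, cre_anh, if_neg (fun h => hc h.symm),
      smul_zero]
  · intro h
    exact absurd (Finset.mem_univ _) h

private lemma MatRel_A_mul_A (u : Fin N → MvPolynomial (Fin N) K) (a b : Fin N) :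
    MatRel_A u a * MatRel_A u b =
      ∑ c, ∑ d, (MatRel_p u a c * MatRel_p u b d) • (anh c * anh d : Mt K N) := by
  unfold MatRel_A
  rw [Finset.sum_mul]
  refine Finset.sum_congr rfl fun c _ => ?_
  rw [Finset.mul_sum]
  refine Finset.sum_congr rfl fun d _ => ?_
  rw [smul_mul_smul_comm]

private lemma MatRel_A_sq (u : Fin N → MvPolynomial (Fin N) K) (a : Fin N) :
    MatRel_A u a * MatRel_A u a = 0 := by
  rw [MatRel_A_mul_A, sum_split_pairs]
  refine Finset.sum_eq_zero fun c _ => Finset.sum_eq_zero fun d _ => ?_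
  split_ifs with h
  · rw [anh_sq, smul_zero]
  · rw [mul_comm (MatRel_p u a d), ← smul_add, anh_anh, smul_zero]

private lemma MatRel_A_A (u : Fin N → MvPolynomial (Fin N) K) (a b : Fin N) :
    MatRel_A u a * MatRel_A u b + MatRel_A u b * MatRel_A u a = 0 := by
  rw [MatRel_A_mul_A, MatRel_A_mul_A u b a,
    Finset.sum_comm (s := Finset.univ) (t := Finset.univ)
      (f := fun c d => (MatRel_p u b c * MatRel_p u a d) • (anh c * anh d : Mt K N)),
    ← Finset.sum_add_distrib]
  refine Finset.sum_eq_zero fun c _ => ?_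
  rw [← Finset.sum_add_distrib]
  refine Finset.sum_eq_zero fun d _ => ?_
  rw [mul_comm (MatRel_p u b d), ← smul_add, anh_anh, smul_zero]

private lemma MatRel_qq_comm (u : Fin N → MvPolynomial (Fin N) K) (a b : Fin N) :
    qq u a b = qq u b a := by
  unfold qq
  refine Finset.sum_congr rfl fun k _ => ?_
  rw [qc_comm]

private lemma MatRel_qq_smul (u : Fin N → MvPolynomial (Fin N) K) (a b : Fin N) :
    qq u a b • (1 : Mt K N) =
      ∑ k, qc (u k) a b • ((X k : MvPolynomial (Fin N) K) • (1 : Mt K N)) := by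
  unfold qq
  rw [Finset.sum_smul]
  refine Finset.sum_congr rfl fun k _ => ?_
  rw [smul_assoc]

theorem rel_gm (u : Fin N → MvPolynomial (Fin N) K) :
    Rel u (gm u) (fun k => (X k : MvPolynomial (Fin N) K) • (1 : Mt K N)) := by
  constructor
  · intro a
    rw [← MatRel_qq_smul, MatRel_gm_eq]
    have e : (cre a + MatRel_A u a) * (cre a + MatRel_A u a) = cre a * cre a +
        (cre a * MatRel_A u a + MatRel_A u a * cre a) + MatRel_A u a * MatRel_A u a := by
      noncomm_ring
    rw [e, cre_sq, MatRel_cre_A, MatRel_A_sq, zero_add, add_zero]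
    unfold MatRel_p
    rw [if_pos le_rfl]
  · intro a b hab
    rw [← MatRel_qq_smul, MatRel_gm_eq, MatRel_gm_eq]
    have e : (cre a + MatRel_A u a) * (cre b + MatRel_A u b) +
        (cre b + MatRel_A u b) * (cre a + MatRel_A u a) =
        (cre a * cre b + cre b * cre a) +
        (cre a * MatRel_A u b + MatRel_A u b * cre a) +
        (cre b * MatRel_A u a + MatRel_A u a * cre b) +
        (MatRel_A u a * MatRel_A u b + MatRel_A u b * MatRel_A u a) := by
      noncomm_ring
    rw [e, cre_cre, MatRel_cre_A, MatRel_cre_A, MatRel_A_A, zero_add, add_zero, ← add_smul]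
    congr 1
    unfold MatRel_p
    rcases lt_or_gt_of_ne hab with h | h
    · rw [if_neg (not_le.2 h), if_pos h.le, zero_add]
    · rw [if_pos h.le, if_neg (not_le.2 h), add_zero, MatRel_qq_comm]

end Pool.Agent.EGH51
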