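import Mathlib
import Pool.Agent.EGH51.Defs

/-!
# Module NOE: a graded submodule of a Noetherian module is eventually generated in lower degrees

PROOF.  Let `P = MvPolynomial κ K`, `Y m := Submodule.span P (⋃ n ≤ m, Z n) ≤ L`.  The chain stabilizes
(`monotone_stabilizes_iff_noetherian` applied in `L`, or for the Noetherian module `L`): there is `m` with `Z n ⊆ Y m` for all `n`.
Put `n0 := m` .  Let `z ∈ Z (n + 2)`, `n + 2 > m`.  Let `Q w` be the statement: for every `j`, `pr j w ∈ Z j`, and for `j + 2 > m`,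
`pr (j + 2) w = ∑ k, X k • w' k` for some `w' k ∈ Z j`; moreover `w = ∑_{j ≤ B} pr j w` for some `B` (if needed; it is convenient to
use instead the statement `w` is a finite sum of elements of the `Z j` : `w ∈ ⨆ (j ≤ m), Z j ⊔ ⨆ (j + 2 > m), V (j + 2)` where
`V (j + 2) := {∑ k, X k • w k | w k ∈ Z j}`, a `K`-submodule of `Z (j + 2)`).  `T := (⨆ j ≤ m, Z j) ⊔ ⨆ j, (if m < j + 2 then V (j+2) else ⊥)`
is stable under every `X k` (`X k • Z j ⊆ V (j + 2)`, which is in `T` if `j + 2 > m` and in `Z (j+2)`, `j + 2 ≤ m`, otherwise; and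
`V (j+2) ⊆ Z (j + 2)`), hence under `P` (`MvPolynomial.induction_on`), and contains the generators of `Y m`.  So `z ∈ T`.  Apply
`pr (n + 2)`: it maps `Z j` to `0` for `j ≠ n + 2`, and is the identity on `V (n + 2) ≤ Z (n + 2)`; hence `z = pr (n+2) z ∈ V (n + 2)`.
-/

set_option autoImplicit false
set_option linter.all false

noncomputable section

namespace Pool.Agent.EGH51

open Module MvPolynomial

variable {K : Type*} [Field K]

theorem noe {κ : Type*} [Fintype κ] {W : Type*} [AddCommGroup W] [Module K W]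
    [Module (MvPolynomial κ K) W] [IsScalarTower K (MvPolynomial κ K) W]
    (L : Submodule (MvPolynomial κ K) W) [IsNoetherian (MvPolynomial κ K) L]
    (Z : ℕ → Submodule K W) (hZL : ∀ n, ∀ z ∈ Z n, z ∈ L)
    (hX : ∀ n k, ∀ z ∈ Z n, (X k : MvPolynomial κ K) • z ∈ Z (n + 2))
    (pr : ℕ → W →ₗ[K] W) (hpr : ∀ n, ∀ z ∈ Z n, pr n z = z)
    (hpr' : ∀ n m, n ≠ m → ∀ z ∈ Z m, pr n z = 0) :
    ∃ n0, ∀ n, n0 ≤ n → ∀ z ∈ Z (n + 2), ∃ w : κ → W, (∀ k, w k ∈ Z n) ∧
      z = ∑ k, (X k : MvPolynomial κ K) • w k := by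
  classical
  -- the chain of submodules of `L`
  let Y : ℕ →o Submodule (MvPolynomial κ K) L :=
    { toFun := fun m => Submodule.span (MvPolynomial κ K) {z : L | ∃ n, n ≤ m ∧ (z : W) ∈ Z n}
      monotone' := fun m m' h => Submodule.span_mono (by
        rintro z ⟨n, h1, h2⟩
        exact ⟨n, h1.trans h, h2⟩) }
  obtain ⟨m, hm⟩ := monotone_stabilizes_iff_noetherian.mpr ‹_› Y
  refine ⟨m, fun n hn z hz => ?_⟩
  let S : Set W := {t | ∃ j, j ≤ m ∧ t ∈ Z j} ∪
    {t | ∃ j, m < j + 2 ∧ ∃ w : κ → W, (∀ k, w k ∈ Z j) ∧ t = ∑ k, (X k : MvPolynomial κ K) • w k}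
  let T : Submodule K W := Submodule.span K S
  have hsingle : ∀ (k : κ) (t : W), (X k : MvPolynomial κ K) • t =
      ∑ k', (X k' : MvPolynomial κ K) • (if k' = k then t else 0) := by
    intro k t
    rw [Finset.sum_eq_single k]
    · rw [if_pos rfl]
    · intro k' _ hk'
      rw [if_neg hk', smul_zero]
    · intro h
      exact absurd (Finset.mem_univ k) h
  have hhigh : ∀ (j : ℕ) (k : κ) (t : W), t ∈ Z j → m < j + 2 →
      (X k : MvPolynomial κ K) • t ∈ S := by
    intro j k t ht hj
    refine Or.inr ⟨j, hj, fun k' => if k' = k then t else 0, ?_, hsingle k t⟩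
    intro k'
    by_cases h : k' = k
    · simp only [h, if_true]
      exact ht
    · simp only [h, if_false]
      exact (Z j).zero_mem
  have hTX : ∀ (k : κ) (t : W), t ∈ T → (X k : MvPolynomial κ K) • t ∈ T := by
    intro k t ht
    induction ht using Submodule.span_induction with
    | mem x hx =>
      rcases hx with ⟨j, hj, hx⟩ | ⟨j, hj, w, hw, hx⟩
      · by_cases h : j + 2 ≤ m
        · exact Submodule.subset_span (Or.inl ⟨j + 2, h, hX j k x hx⟩)
        · exact Submodule.subset_span (hhigh j k x hx (by omega))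
      · have hx' : x ∈ Z (j + 2) := by
          rw [hx]
          exact Submodule.sum_mem _ fun k' _ => hX j k' _ (hw k')
        exact Submodule.subset_span (hhigh (j + 2) k x hx' (by omega))
    | zero =>
      rw [smul_zero]
      exact T.zero_mem
    | add x y _ _ hx hy =>
      rw [smul_add]
      exact T.add_mem hx hy
    | smul c x _ hx =>
      rw [smul_comm]
      exact T.smul_mem c hx
  have hTP : ∀ (p : MvPolynomial κ K) (t : W), t ∈ T → p • t ∈ T := by
    intro p
    induction p using MvPolynomial.induction_on with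
    | C c =>
      intro t ht
      have h1 : (C c : MvPolynomial κ K) • t = c • t := by
        rw [← MvPolynomial.algebraMap_eq, algebraMap_smul]
      rw [h1]
      exact T.smul_mem c ht
    | add p q hp hq =>
      intro t ht
      rw [add_smul]
      exact T.add_mem (hp t ht) (hq t ht)
    | mul_X p k hp =>
      intro t ht
      rw [mul_smul]
      exact hp _ (hTX k t ht)
  have hYT : ∀ y : L, y ∈ Y m → (y : W) ∈ T := by
    intro y hy
    change y ∈ Submodule.span (MvPolynomial κ K) {z : L | ∃ n, n ≤ m ∧ (z : W) ∈ Z n} at hy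
    induction hy using Submodule.span_induction with
    | mem x hx =>
      obtain ⟨j, hj, hx⟩ := hx
      exact Submodule.subset_span (Or.inl ⟨j, hj, hx⟩)
    | zero => exact T.zero_mem
    | add x y _ _ hx hy => exact T.add_mem hx hy
    | smul p x _ hx => exact hTP p _ hx
  have hzT : z ∈ T := by
    have h1 : (⟨z, hZL _ z hz⟩ : L) ∈ Y (n + 2) :=
      Submodule.subset_span ⟨n + 2, le_rfl, hz⟩
    rw [← hm (n + 2) (by omega)] at h1
    exact hYT _ h1
  have key : ∀ t, t ∈ T → ∃ w : κ → W, (∀ k, w k ∈ Z n) ∧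
      pr (n + 2) t = ∑ k, (X k : MvPolynomial κ K) • w k := by
    intro t ht
    induction ht using Submodule.span_induction with
    | mem x hx =>
      rcases hx with ⟨j, hj, hx⟩ | ⟨j, hj, w, hw, hx⟩
      · refine ⟨fun _ => 0, fun _ => (Z n).zero_mem, ?_⟩
        rw [hpr' (n + 2) j (by omega) x hx]
        simp
      · have hx' : x ∈ Z (j + 2) := by
          rw [hx]
          exact Submodule.sum_mem _ fun k' _ => hX j k' _ (hw k')
        by_cases h : j = n
        · subst h
          exact ⟨w, hw, by rw [hpr (j + 2) x hx', hx]⟩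
        · refine ⟨fun _ => 0, fun _ => (Z n).zero_mem, ?_⟩
          rw [hpr' (n + 2) (j + 2) (by omega) x hx']
          simp
    | zero =>
      refine ⟨fun _ => 0, fun _ => (Z n).zero_mem, ?_⟩
      rw [map_zero]
      simp
    | add x y _ _ hx hy =>
      obtain ⟨w1, h1, e1⟩ := hx
      obtain ⟨w2, h2, e2⟩ := hy
      refine ⟨fun k => w1 k + w2 k, fun k => (Z n).add_mem (h1 k) (h2 k), ?_⟩
      rw [map_add, e1, e2, ← Finset.sum_add_distrib]
      exact Finset.sum_congr rfl fun k _ => (smul_add _ _ _).symm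
    | smul c x _ hx =>
      obtain ⟨w1, h1, e1⟩ := hx
      refine ⟨fun k => c • w1 k, fun k => (Z n).smul_mem c (h1 k), ?_⟩
      rw [map_smul, e1, Finset.smul_sum]
      exact Finset.sum_congr rfl fun k _ => smul_comm _ _ _
  obtain ⟨w, hw, e⟩ := key z hzT
  exact ⟨w, hw, by rw [← e, hpr (n + 2) z hz]⟩

end Pool.Agent.EGH51
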