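import Mathlib
import Pool.Agent.EGH51.Defs
import Pool.Agent.EGH51.Noe
import Pool.Agent.EGH51.MatRel
import Pool.Agent.EGH51.GradA
import Pool.Agent.EGH51.GradB
import Pool.Agent.EGH51.GradC
import Pool.Agent.EGH51.RelSq

/-!
# Module DOMA: the kernels are eventually generated in lower degrees

`S := MvPolynomial (Fin N) K`, `P := MvPolynomial (Fin N) K` acting on the matrices.
PROOF of `MM_gm`, `MM_X`: `AG_mul`, `gm_mem_AG`, `smul_mem_AG` (`X k` homogeneous of degree 1), `a * (z * g) = (a * z) * g`, `a * (X k • z) = X k • (a * z)`.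
PROOF of `evt_gen`.  Apply `noe` with `κ = Fin N`, `W = S →ₗ[K] Mt K N` (a `P`-module through the values: `(p • F) f = p • F f`; `LinearMap.module`-instance with
`SMulCommClass K P (Mt K N)`), `L` = the `P`-submodule of the functionals vanishing on all forms of degree `≠ i`, `Z n := HH I i (MM u a n) ⊓ ker (Dop (gm u))`,
`pr n F := pr n ∘ₗ F` with `pr` from `exists_pr` (`AG_le_GR`).  `L` is Noetherian: `F ↦ (F (monomial m 1))_m`, `m` in the finite set of exponents of degree `i`, is an
injective `P`-linear map of `L` into a finite power of `Mt K N`, a finite module over the Noetherian ring `P`.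
`X k • F ∈ Z (n + 2)` for `F ∈ Z n`: `Dop (gm u) (X k • F) = X k • Dop (gm u) F` because `(X k • z) * g = X k • (z * g)`.
-/

set_option autoImplicit false
set_option linter.all false

noncomputable section

namespace Pool.Agent.EGH51

open Module MvPolynomial Pool.Agent.CB

variable {K : Type*} [Field K] {N : ℕ}

theorem MM_gm {u : Fin N → MvPolynomial (Fin N) K} {a : Mt K N} {n : ℕ} {z : Mt K N}
    (hz : z ∈ MM u a n) (b : Fin N) : z * gm u b ∈ MM u a (n + 1) := by
  rw [mem_MM] at hz ⊢
  exact ⟨AG_mul hz.1 (gm_mem_AG u b), by rw [← mul_assoc, hz.2, zero_mul]⟩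

theorem MM_X {u : Fin N → MvPolynomial (Fin N) K} {a : Mt K N} {n : ℕ} {z : Mt K N}
    (hz : z ∈ MM u a n) (k : Fin N) : (X k : MvPolynomial (Fin N) K) • z ∈ MM u a (n + 2) := by
  rw [mem_MM] at hz ⊢
  refine ⟨smul_mem_AG (j := 1) hz.1 (isHomogeneous_X K k), ?_⟩
  rw [Matrix.mul_smul, hz.2, smul_zero]

/-- the functionals of degree `i` -/
private def domaL (K : Type*) [Field K] (N i : ℕ) :
    Submodule (MvPolynomial (Fin N) K) (MvPolynomial (Fin N) K →ₗ[K] Mt K N) where
  carrier := {F | ∀ j, j ≠ i → ∀ f, f.IsHomogeneous j → F f = 0}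
  add_mem' := by
    intro F G hF hG j hj f hf
    rw [LinearMap.add_apply, hF j hj f hf, hG j hj f hf, add_zero]
  zero_mem' := fun _ _ _ _ => rfl
  smul_mem' := by
    intro c F hF j hj f hf
    rw [LinearMap.smul_apply, hF j hj f hf, smul_zero]

private theorem domaL_noeth (K : Type*) [Field K] (N i : ℕ) :
    IsNoetherian (MvPolynomial (Fin N) K) (domaL K N i) := by
  classical
  have hfin : Finite {m : Fin N →₀ ℕ // Finsupp.degree m = i} := by
    have h := Finsupp.finite_of_degree_le (σ := Fin N) i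
    exact (h.subset fun m hm => le_of_eq hm).to_subtype
  let ev : domaL K N i →ₗ[MvPolynomial (Fin N) K]
      ({m : Fin N →₀ ℕ // Finsupp.degree m = i} → Mt K N) :=
    { toFun := fun F m => F.1 (monomial m.1 1)
      map_add' := fun F G => rfl
      map_smul' := fun c F => rfl }
  refine isNoetherian_of_injective ev ?_
  rw [injective_iff_map_eq_zero]
  intro F hF
  apply Subtype.ext
  apply LinearMap.ext
  intro f
  have h1 : ∀ m : Fin N →₀ ℕ, F.1 (monomial m (coeff m f)) = 0 := by
    intro m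
    by_cases hm : Finsupp.degree m = i
    · have h2 : F.1 (monomial m 1) = 0 := congrFun hF ⟨m, hm⟩
      have h3 : (monomial m (coeff m f) : MvPolynomial (Fin N) K) =
          coeff m f • monomial m 1 := by
        rw [smul_monomial, smul_eq_mul, mul_one]
      rw [h3, map_smul, h2, smul_zero]
    · exact F.2 _ hm _ (isHomogeneous_monomial _ rfl)
  conv_lhs => rw [f.as_sum]
  rw [map_sum]
  exact Finset.sum_eq_zero fun m _ => h1 m

theorem evt_gen (u : Fin N → MvPolynomial (Fin N) K) (I : Ideal (MvPolynomial (Fin N) K))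
    (a : Mt K N) (i : ℕ) :
    ∃ n0, ∀ n, n0 ≤ n → ∀ F ∈ HH I i (MM u a (n + 2)), Dop (gm u) F = 0 →
      ∃ w : Fin N → (MvPolynomial (Fin N) K →ₗ[K] Mt K N),
        (∀ k, w k ∈ HH I i (MM u a n) ∧ Dop (gm u) (w k) = 0) ∧
        ∀ f, F f = ∑ k, (X k : MvPolynomial (Fin N) K) • w k f := by
  classical
  obtain ⟨pr, hp1, hp2⟩ := exists_pr K N
  haveI := domaL_noeth K N i
  have hGR : ∀ n, ∀ F ∈ HH I i (MM u a n), ∀ f, F f ∈ GR K N n :=
    fun n F hF f => AG_le_GR u n ((mem_MM.1 ((mem_HH.1 hF).2.2 f)).1)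
  obtain ⟨n0, h⟩ := noe (κ := Fin N) (domaL K N i)
    (fun n => HH I i (MM u a n) ⊓ LinearMap.ker (Dop (gm u)))
    (fun n F hF => (mem_HH.1 (Submodule.mem_inf.1 hF).1).2.1)
    (by
      intro n k F hF
      obtain ⟨hF1, hF2⟩ := Submodule.mem_inf.1 hF
      obtain ⟨a1, a2, a3⟩ := mem_HH.1 hF1
      rw [LinearMap.mem_ker] at hF2
      refine Submodule.mem_inf.2 ⟨mem_HH.2 ⟨?_, ?_, ?_⟩, ?_⟩
      · intro f hf
        rw [LinearMap.smul_apply, a1 f hf, smul_zero]
      · intro j hj f hf
        rw [LinearMap.smul_apply, a2 j hj f hf, smul_zero]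
      · intro f
        rw [LinearMap.smul_apply]
        exact MM_X (a3 f) k
      · rw [LinearMap.mem_ker]
        apply LinearMap.ext
        intro f
        have h3 := LinearMap.congr_fun hF2 f
        rw [Dop_apply, LinearMap.zero_apply] at h3
        rw [Dop_apply, LinearMap.zero_apply]
        simp only [LinearMap.smul_apply, Matrix.smul_mul]
        rw [← Finset.smul_sum, h3, smul_zero])
    (fun n => LinearMap.llcomp K (MvPolynomial (Fin N) K) (Mt K N) (Mt K N) (pr n))
    (by
      intro n F hF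
      apply LinearMap.ext
      intro f
      exact hp1 n _ (hGR n F (Submodule.mem_inf.1 hF).1 f))
    (by
      intro n m hnm F hF
      apply LinearMap.ext
      intro f
      exact hp2 n m hnm _ (hGR m F (Submodule.mem_inf.1 hF).1 f))
  refine ⟨n0, fun n hn F hF hD => ?_⟩
  obtain ⟨w, hw1, hw2⟩ := h n hn F (Submodule.mem_inf.2 ⟨hF, LinearMap.mem_ker.2 hD⟩)
  refine ⟨w, fun k => ?_, fun f => ?_⟩
  · obtain ⟨h1, h2⟩ := Submodule.mem_inf.1 (hw1 k)
    exact ⟨h1, LinearMap.mem_ker.1 h2⟩
  · rw [hw2, LinearMap.sum_apply]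
    rfl

end Pool.Agent.EGH51
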