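import Mathlib
import Pool.Agent.EGH51.Defs
import Pool.Agent.EGH51.RelSq

/-!
# Module EX: every `s k` is null-homotopic on the complex of functionals

PROOF of `exact_step`.  Let `I = span (range u)`, `I' = span (u '' {k}ᶜ)` (both homogeneous ideals by `HI_span_quads`, `I' ≤ I`).
1. There is `G' : S →ₗ[K] R` with values in `T`, zero on `I'`, zero on forms of degree `≠ i + 2`, with
   `G' (u k * f) = F f` for ALL `f`.  Construction: `q : S →ₗ S ⧸ I'` (as `K`-modules) and `m : S →ₗ S ⧸ I'`, `m f = q (u k * f)`;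
   `ker m = I'` by `hu.nzd k`, and `I' ≤ I ≤ ker F`; so `F` (codomain restricted to `T`) factors through `range m` and extends to
   `S ⧸ I' →ₗ T` (vector spaces: `LinearMap.exists_extend`; or choose a left inverse `r` (`LinearMap.exists_leftInverse_of_injective`) of the
   injective map `S ⧸ I' → S ⧸ I'` `multiplication by `u k`` and compose `F`-induced map with `r`).  Compose with `q`, then with
   `homogeneousComponent (i + 2)` (`homComp_mul` of `CB/CIBasic.lean`: `homogeneousComponent (i + 2) (u k * f) =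
   u k * homogeneousComponent i f`; `F (homogeneousComponent i f) = F f` because `F` is zero in the other degrees; `I'` is
   homogeneous so `G'` still kills `I'`).
2. `G := Dop g G'`.  `Dop g G f = ∑_l G' (u l * f) * s l = G' (u k * f) * s k = F f * s k` by `Dop_Dop`, since `u l * f ∈ I'` for
   `l ≠ k`.  Values: `Dop_apply`, `hT`, `T'.sum_mem`.  Degree: for `f` homogeneous of degree `j ≠ i + 1`, `X a * f` is homogeneous of
   degree `j + 1 ≠ i + 2`.  `G` kills `I`: every element of `I` is `f' + u k * f` with `f' ∈ I'`; `G f' = 0` as `X a * f' ∈ I'`;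
   `G (u k * f) = ∑_a G' (u k * (X a * f)) * g a = ∑_a F (X a * f) * g a = Dop g F f = 0`.
-/

set_option autoImplicit false
set_option linter.all false

noncomputable section

namespace Pool.Agent.EGH51

open Module MvPolynomial Pool.Agent.CB

variable {K : Type*} [Field K] {N : ℕ} {R : Type*} [Ring R] [Algebra K R]

/-- an ideal generated by quadrics is homogeneous -/
theorem HI_span_quads {κ : Type*} (u : κ → MvPolynomial (Fin N) K)
    (hu : ∀ k, (u k).IsHomogeneous 2) (A : Set κ) : HI (Ideal.span (u '' A)) := by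
  have key : ∀ f ∈ Ideal.span (u '' A), ∀ (g : MvPolynomial (Fin N) K) (n : ℕ),
      homogeneousComponent n (g * f) ∈ Ideal.span (u '' A) := by
    intro f hf
    refine Submodule.span_induction (p := fun f _ => ∀ (g : MvPolynomial (Fin N) K) (n : ℕ),
      homogeneousComponent n (g * f) ∈ Ideal.span (u '' A)) ?_ ?_ ?_ ?_ hf
    · rintro x ⟨k, hk, rfl⟩ g n
      rw [mul_comm]
      by_cases h : 2 ≤ n
      · obtain ⟨m, rfl⟩ := Nat.exists_eq_add_of_le' h
        rw [homComp_mul (hu k)]
        exact Ideal.mul_mem_right _ _ (Ideal.subset_span ⟨k, hk, rfl⟩)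
      · rw [homComp_mul_lt (hu k) (by omega)]
        exact Ideal.zero_mem _
    · intro g n
      rw [mul_zero, map_zero]
      exact Ideal.zero_mem _
    · intro x y _ _ hx hy g n
      rw [mul_add, map_add]
      exact Ideal.add_mem _ (hx g n) (hy g n)
    · intro a x _ hx g n
      rw [smul_eq_mul, ← mul_assoc]
      exact hx (g * a) n
  intro f hf n
  have := key f hf 1 n
  rwa [one_mul] at this

theorem HI_span_range {κ : Type*} (u : κ → MvPolynomial (Fin N) K)
    (hu : ∀ k, (u k).IsHomogeneous 2) : HI (Ideal.span (Set.range u)) := by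
  rw [← Set.image_univ]
  exact HI_span_quads u hu _

private lemma Exact_homComp {I : Ideal (MvPolynomial (Fin N) K)} {i : ℕ} {T : Submodule K R}
    {F : MvPolynomial (Fin N) K →ₗ[K] R} (hF : F ∈ HH I i T) (f : MvPolynomial (Fin N) K) :
    F (homogeneousComponent i f) = F f := by
  conv_rhs => rw [← sum_homogeneousComponent f, map_sum]
  by_cases hi : i ∈ Finset.range (f.totalDegree + 1)
  · rw [Finset.sum_eq_single_of_mem i hi]
    intro j _ hj
    exact hF.2.1 j hj _ (homogeneousComponent_isHomogeneous j f)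
  · have h0 : homogeneousComponent i f = 0 := by
      apply homogeneousComponent_eq_zero
      simp only [Finset.mem_range, not_lt] at hi
      omega
    rw [h0, map_zero]
    symm
    refine Finset.sum_eq_zero fun j hj => ?_
    refine hF.2.1 j ?_ _ (homogeneousComponent_isHomogeneous j f)
    rintro rfl
    exact hi hj

private lemma Exact_lift {I' : Ideal (MvPolynomial (Fin N) K)} (hI' : HI I')
    {v : MvPolynomial (Fin N) K} (hv : v.IsHomogeneous 2) (hn : NZD I' v)
    {I : Ideal (MvPolynomial (Fin N) K)} (hle : I' ≤ I) {i : ℕ} {T : Submodule K R}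
    {F : MvPolynomial (Fin N) K →ₗ[K] R} (hF : F ∈ HH I i T) :
    ∃ G' : MvPolynomial (Fin N) K →ₗ[K] R, (∀ f, G' f ∈ T) ∧ (∀ f ∈ I', G' f = 0) ∧
      (∀ j, j ≠ i + 2 → ∀ f, f.IsHomogeneous j → G' f = 0) ∧ ∀ f, G' (v * f) = F f := by
  set Is : Submodule K (MvPolynomial (Fin N) K) := Submodule.restrictScalars K I' with hIs
  have hmem : ∀ f, f ∈ Is ↔ f ∈ I' := fun f => Iff.rfl
  set m : MvPolynomial (Fin N) K →ₗ[K] (MvPolynomial (Fin N) K ⧸ Is) :=
    Is.mkQ ∘ₗ LinearMap.mulLeft K v with hm
  have hker : LinearMap.ker m = Is := by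
    ext f
    rw [LinearMap.mem_ker, hm, LinearMap.comp_apply, Submodule.mkQ_apply,
      Submodule.Quotient.mk_eq_zero, LinearMap.mulLeft_apply, hmem, hmem]
    exact ⟨fun h => hn f h, fun h => Ideal.mul_mem_left _ _ h⟩
  set F' : MvPolynomial (Fin N) K →ₗ[K] T := F.codRestrict T hF.2.2 with hF'
  have hF'k : Is ≤ LinearMap.ker F' := by
    intro f hf
    rw [LinearMap.mem_ker]
    apply Subtype.ext
    exact hF.1 f (hle hf)
  set Fb := Is.liftQ F' hF'k with hFb
  set mb := Is.liftQ m (le_of_eq hker.symm) with hmb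
  have hmbk : LinearMap.ker mb = ⊥ := Submodule.ker_liftQ_eq_bot _ _ _ (le_of_eq hker)
  obtain ⟨r, hr⟩ := LinearMap.exists_leftInverse_of_injective mb hmbk
  have key : ∀ f, Fb (r (Is.mkQ (v * f))) = F' f := by
    intro f
    have h1 : Is.mkQ (v * f) = mb (Is.mkQ f) := by
      rw [hmb, Submodule.mkQ_apply, Submodule.mkQ_apply, Submodule.liftQ_apply]
      rfl
    have h2 : r (mb (Is.mkQ f)) = Is.mkQ f := LinearMap.congr_fun hr _
    rw [h1, h2, hFb, Submodule.mkQ_apply, Submodule.liftQ_apply]
  refine ⟨T.subtype ∘ₗ Fb ∘ₗ r ∘ₗ Is.mkQ ∘ₗ homogeneousComponent (i + 2), ?_, ?_, ?_, ?_⟩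
  · intro f
    exact (Fb (r (Is.mkQ (homogeneousComponent (i + 2) f)))).2
  · intro f hf
    have h0 : Is.mkQ (homogeneousComponent (i + 2) f) = 0 := by
      rw [Submodule.mkQ_apply, Submodule.Quotient.mk_eq_zero, hmem]
      exact hI' f hf _
    simp only [LinearMap.comp_apply]
    rw [h0, map_zero, map_zero, map_zero]
  · intro j hj f hf
    have h0 : homogeneousComponent (i + 2) f = 0 := by
      rw [homogeneousComponent_of_mem ((mem_homogeneousSubmodule _ _).2 hf), if_neg (by omega)]
    simp only [LinearMap.comp_apply]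
    rw [h0, map_zero, map_zero, map_zero, map_zero]
  · intro f
    simp only [LinearMap.comp_apply]
    rw [homComp_mul hv, key, hF', Submodule.subtype_apply, LinearMap.codRestrict_apply,
      Exact_homComp hF]

theorem exact_step {u : Fin N → MvPolynomial (Fin N) K} (hu : Quad u) {g s : Fin N → R}
    (h : Rel u g s) (k : Fin N) {T T' : Submodule K R} (hT : ∀ z ∈ T, ∀ a, z * g a ∈ T')
    {i : ℕ} {F : MvPolynomial (Fin N) K →ₗ[K] R} (hF : F ∈ HH (Ideal.span (Set.range u)) i T)
    (hD : Dop g F = 0) :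
    ∃ G ∈ HH (Ideal.span (Set.range u)) (i + 1) T', ∀ f, Dop g G f = F f * s k := by
  classical
  have hle : Ideal.span (u '' {k}ᶜ) ≤ Ideal.span (Set.range u) :=
    Ideal.span_mono (Set.image_subset_range _ _)
  obtain ⟨G', hG1, hG2, hG3, hG4⟩ :=
    Exact_lift (HI_span_quads u hu.hom {k}ᶜ) (hu.hom k) (hu.nzd k) hle hF
  refine ⟨Dop g G', mem_HH.2 ⟨?_, ?_, ?_⟩, ?_⟩
  · intro f hf
    have hsup : Ideal.span (Set.range u) ≤ Ideal.span (u '' {k}ᶜ) ⊔ Ideal.span {u k} := by
      rw [Ideal.span_le]
      rintro _ ⟨l, rfl⟩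
      by_cases hl : l = k
      · subst hl
        exact Ideal.mem_sup_right (Ideal.mem_span_singleton_self _)
      · exact Ideal.mem_sup_left (Ideal.subset_span ⟨l, hl, rfl⟩)
    obtain ⟨f', hf', b, hb, rfl⟩ := Submodule.mem_sup.1 (hsup hf)
    obtain ⟨c, rfl⟩ := Ideal.mem_span_singleton'.1 hb
    rw [map_add, Dop_apply, Dop_apply]
    have h1 : ∑ a, G' (X a * f') * g a = 0 := by
      refine Finset.sum_eq_zero fun a _ => ?_
      rw [hG2 _ (Ideal.mul_mem_left _ _ hf'), zero_mul]
    have h2 : ∑ a, G' (X a * (c * u k)) * g a = Dop g F c := by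
      rw [Dop_apply]
      refine Finset.sum_congr rfl fun a _ => ?_
      rw [show X a * (c * u k) = u k * (X a * c) by ring, hG4]
    rw [h1, h2, hD, zero_add]
    rfl
  · intro j hj f hf
    rw [Dop_apply]
    refine Finset.sum_eq_zero fun a _ => ?_
    rw [hG3 (1 + j) (by omega) _ ((isHomogeneous_X K a).mul hf), zero_mul]
  · intro f
    rw [Dop_apply]
    exact T'.sum_mem fun a _ => hT _ (hG1 _) a
  · intro f
    rw [Dop_Dop h hu.hom, Finset.sum_eq_single k, hG4]
    · intro l _ hl
      rw [hG2 _ (Ideal.mul_mem_right _ _ (Ideal.subset_span ⟨l, hl, rfl⟩)), zero_mul]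
    · intro h
      exact absurd (Finset.mem_univ _) h

end Pool.Agent.EGH51
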