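import Mathlib
import Pool.Agent.EGH51.Defs
import Pool.Agent.EGH51.DomA
import Pool.Agent.EGH51.Exact

/-!
# Module DOMB: exactness in large degrees

PROOF.  `n0` from `evt_gen`.  `F = ∑_k X k • w k`; `exact_step hu (rel_gm u) k` with `T = MM u a n`, `T' = MM u a (n + 1)` (`MM_gm`) gives `G k ∈ HH I (i+1) (MM u a (n+1))` with
`Dop (gm u) (G k) f = w k f * (X k • 1) = X k • w k f`.  `G := ∑ k, G k`.
-/

set_option autoImplicit false
set_option linter.all false

noncomputable section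

namespace Pool.Agent.EGH51

open Module MvPolynomial Pool.Agent.CB

variable {K : Type*} [Field K] {N : ℕ}

theorem evt_exact {u : Fin N → MvPolynomial (Fin N) K} (hu : Quad u) (a : Mt K N) (i : ℕ) :
    ∃ n0, ∀ n, n0 ≤ n → ∀ F ∈ HH (Ideal.span (Set.range u)) i (MM u a (n + 2)),
      Dop (gm u) F = 0 → ∃ G ∈ HH (Ideal.span (Set.range u)) (i + 1) (MM u a (n + 1)),
        Dop (gm u) G = F := by
  classical
  obtain ⟨n0, h⟩ := evt_gen u (Ideal.span (Set.range u)) a i
  refine ⟨n0, fun n hn F hF hD => ?_⟩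
  obtain ⟨w, hw, hsum⟩ := h n hn F hF hD
  have step : ∀ k, ∃ G ∈ HH (Ideal.span (Set.range u)) (i + 1) (MM u a (n + 1)),
      ∀ f, Dop (gm u) G f = w k f * ((X k : MvPolynomial (Fin N) K) • (1 : Mt K N)) :=
    fun k => exact_step hu (rel_gm u) k (T := MM u a n) (T' := MM u a (n + 1))
      (fun z hz b => MM_gm hz b) (hw k).1 (hw k).2
  choose G hG1 hG2 using step
  refine ⟨∑ k, G k, Submodule.sum_mem _ fun k _ => hG1 k, ?_⟩
  apply LinearMap.ext
  intro f
  rw [map_sum, LinearMap.sum_apply, hsum f]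
  refine Finset.sum_congr rfl fun k _ => ?_
  rw [hG2 k f, Matrix.mul_smul, mul_one]

end Pool.Agent.EGH51
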