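import Mathlib
import Pool.Agent.EGH51.Defs

/-!
# Module EUL: the Euler characteristic of an exact sequence of subspaces

PROOF.  `r p := finrank (map D (C p))`, `finrank (C p) = r p + finrank (ker D ⊓ C p)` (rank-nullity; see `finrank_map_add_inf_ker` in
`CB/CIBasic.lean`); `ker D ⊓ C (p + 1) = map D (C p)` for `p < N`, `ker D ⊓ C 0 = ⊥`, `r N = 0`.  Telescoping.
-/

set_option autoImplicit false
set_option linter.all false

noncomputable section

namespace Pool.Agent.EGH51

open Module

private lemma euler_rank {K : Type*} [Field K] {V : Type*} [AddCommGroup V] [Module K V]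
    (D : V →ₗ[K] V) (B : Submodule K V) [FiniteDimensional K B] :
    finrank K (B.map D) + finrank K (B ⊓ LinearMap.ker D : Submodule K V) = finrank K B := by
  have h1 := LinearMap.finrank_range_add_finrank_ker (D.domRestrict B)
  rw [LinearMap.range_domRestrict, LinearMap.ker_domRestrict] at h1
  have h2 : finrank K ((LinearMap.ker D).comap B.subtype) =
      finrank K (B ⊓ LinearMap.ker D : Submodule K V) := by
    have h3 : (B ⊓ LinearMap.ker D : Submodule K V) =
        ((LinearMap.ker D).comap B.subtype).map B.subtype := by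
      rw [Submodule.map_comap_subtype]
    rw [h3]
    exact (LinearEquiv.finrank_eq (Submodule.equivMapOfInjective _ B.injective_subtype _))
  rw [← h2]
  exact h1

theorem euler {K : Type*} [Field K] {V : Type*} [AddCommGroup V] [Module K V] (D : V →ₗ[K] V)
    (N : ℕ) (C : ℕ → Submodule K V) (hfin : ∀ p, FiniteDimensional K (C p))
    (h1 : ∀ p, ∀ v ∈ C p, D v ∈ C (p + 1)) (h2 : ∀ p, ∀ v ∈ C p, D (D v) = 0)
    (h0 : ∀ v ∈ C 0, D v = 0 → v = 0)
    (hex : ∀ p, p < N → ∀ v ∈ C (p + 1), D v = 0 → ∃ w ∈ C p, D w = v)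
    (hN : ∀ v ∈ C N, D v = 0) :
    ∑ p ∈ Finset.range (N + 1), (-1 : ℤ) ^ p * (finrank K (C p) : ℤ) = 0 := by
  have hr : ∀ p, (finrank K (C p) : ℤ) = (finrank K ((C p).map D) : ℤ) +
      (finrank K (C p ⊓ LinearMap.ker D : Submodule K V) : ℤ) := by
    intro p
    haveI := hfin p
    rw [← euler_rank D (C p)]
    push_cast
    rfl
  have k0 : (C 0 ⊓ LinearMap.ker D : Submodule K V) = ⊥ := by
    rw [eq_bot_iff]
    rintro v ⟨hv, hk⟩
    exact (Submodule.mem_bot K).2 (h0 v hv hk)
  have ks : ∀ p, p < N → (C (p + 1) ⊓ LinearMap.ker D : Submodule K V) = (C p).map D := by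
    intro p hp
    apply le_antisymm
    · rintro v ⟨hv, hk⟩
      obtain ⟨w, hw, hwv⟩ := hex p hp v hv hk
      exact ⟨w, hw, hwv⟩
    · rintro v ⟨w, hw, rfl⟩
      exact ⟨h1 p w hw, LinearMap.mem_ker.2 (h2 p w hw)⟩
  have key : ∀ m, m ≤ N → ∑ p ∈ Finset.range (m + 1), (-1 : ℤ) ^ p * (finrank K (C p) : ℤ) =
      (-1 : ℤ) ^ m * (finrank K ((C m).map D) : ℤ) := by
    intro m
    induction m with
    | zero =>
      intro _
      rw [zero_add, Finset.sum_range_one, hr 0, k0, finrank_bot]
      simp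
    | succ m ih =>
      intro hm
      rw [Finset.sum_range_succ, ih (by omega), hr (m + 1), ks m (by omega), pow_succ]
      ring
  have hz : (C N).map D = ⊥ := by
    rw [eq_bot_iff]
    rintro v ⟨w, hw, rfl⟩
    exact (Submodule.mem_bot K).2 (hN w hw)
  rw [key N le_rfl, hz, finrank_bot]
  simp

end Pool.Agent.EGH51
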