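import Mathlib
import Pool.Agent.EGH51.Defs
import Pool.Agent.EGH51.MatRel

/-!
# Module STRA: straightening

PROOF.  Claim: for increasing `l` (`l.Pairwise (· < ·)`), `gm u a * (l.map (gm u)).prod` is in the span of the `word u α l'` with `l'` increasing,
`2 |α| + l'.length = l.length + 1` and every element of `l'` equal to `a` or in `l`.  Induction on `l` (for all `a`).  `l = []`, or `a < head`: trivial.
`a = head b`: `gm u a * gm u a = ∑_k qc .. • (X k • 1)` (`rel_gm`).  `a > b = head`, `l = b :: r`: `gm a * gm b * R = - gm b * (gm a * R) + ∑_k qc .. • X k • R`;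
by induction `gm a * R` is in the span of `word u α l'` with the elements of `l'` in `r ∪ {a}`, all `> b`, so `b :: l'` is increasing; `gm b * word u α l' = word u α (b :: l')`.
Then every word is in the span (induction on the list, `gm u a * word u α l = monomial α 1 • (gm u a * …)`).
-/

set_option autoImplicit false
set_option linter.all false

noncomputable section

namespace Pool.Agent.EGH51

open Module MvPolynomial Pool.Agent.CB

variable {K : Type*} [Field K] {N : ℕ}

/-- the words with increasing list, of given degree -/
private def incS (u : Fin N → MvPolynomial (Fin N) K) (n : ℕ) : Set (Mt K N) :=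
  {z | ∃ α l, l.Pairwise (· < ·) ∧ 2 * Finsupp.degree α + l.length = n ∧ z = word u α l}

/-- the words with increasing list and letters `a` or in `l0` -/
private def incA (u : Fin N → MvPolynomial (Fin N) K) (n : ℕ) (a : Fin N)
    (l0 : List (Fin N)) : Set (Mt K N) :=
  {z | ∃ α l, l.Pairwise (· < ·) ∧ 2 * Finsupp.degree α + l.length = n ∧
    (∀ x ∈ l, x = a ∨ x ∈ l0) ∧ z = word u α l}

private lemma StrA_smul_word (u : Fin N → MvPolynomial (Fin N) K) (α β : Fin N →₀ ℕ)
    (l : List (Fin N)) :
    (monomial α (1 : K)) • word u β l = word u (α + β) l := by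
  unfold word
  rw [smul_smul, monomial_mul, one_mul]

private lemma StrA_word_zero (u : Fin N → MvPolynomial (Fin N) K) (l : List (Fin N)) :
    word u 0 l = (l.map (gm u)).prod := by
  unfold word
  have h : (monomial (0 : Fin N →₀ ℕ) (1 : K)) = (1 : MvPolynomial (Fin N) K) := rfl
  rw [h, one_smul]

private lemma StrA_gm_word (u : Fin N → MvPolynomial (Fin N) K) (a : Fin N) (α : Fin N →₀ ℕ)
    (l : List (Fin N)) :
    gm u a * word u α l = word u α (a :: l) := by
  unfold word
  rw [List.map_cons, List.prod_cons, mul_smul_comm]

private lemma StrA_rel_mul (u : Fin N → MvPolynomial (Fin N) K) (c : Fin N → K) (n : ℕ)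
    (a : Fin N) (l0 l : List (Fin N)) (hl : l.Pairwise (· < ·)) (hn : 2 + l.length = n)
    (hs : ∀ x ∈ l, x = a ∨ x ∈ l0) :
    (∑ k, c k • ((X k : MvPolynomial (Fin N) K) • (1 : Mt K N))) * (l.map (gm u)).prod
      ∈ Submodule.span K (incA u n a l0) := by
  rw [Finset.sum_mul]
  refine Submodule.sum_mem _ fun k _ => ?_
  rw [smul_mul_assoc]
  refine Submodule.smul_mem _ _ (Submodule.subset_span ?_)
  refine ⟨Finsupp.single k 1, l, hl, ?_, hs, ?_⟩
  · rw [Finsupp.degree_single]
    omega
  · unfold word
    rw [smul_mul_assoc, one_mul]
    rfl

private lemma StrA_key (u : Fin N → MvPolynomial (Fin N) K) (l : List (Fin N)) :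
    ∀ a : Fin N, l.Pairwise (· < ·) →
      gm u a * (l.map (gm u)).prod ∈ Submodule.span K (incA u (l.length + 1) a l) := by
  induction l with
  | nil =>
    intro a _
    refine Submodule.subset_span ⟨0, [a], List.pairwise_singleton _ _, ?_, ?_, ?_⟩
    · rw [map_zero]
      rfl
    · intro x hx
      exact Or.inl (List.mem_singleton.1 hx)
    · rw [StrA_word_zero, List.map_cons, List.prod_cons]
  | cons b r ih =>
    intro a hl
    have hl' := List.pairwise_cons.1 hl
    rcases lt_trichotomy a b with hab | hab | hab
    · refine Submodule.subset_span ⟨0, a :: b :: r, ?_, ?_, ?_, ?_⟩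
      · refine List.pairwise_cons.2 ⟨?_, hl⟩
        intro x hx
        rcases List.mem_cons.1 hx with h | h
        · rw [h]; exact hab
        · exact lt_trans hab (hl'.1 x h)
      · rw [map_zero, mul_zero, zero_add]
        rfl
      · intro x hx
        rcases List.mem_cons.1 hx with h | h
        · exact Or.inl h
        · exact Or.inr h
      · rw [StrA_word_zero, List.map_cons (l := b :: r), List.prod_cons]
    · subst hab
      have h1 : gm u a * ((a :: r).map (gm u)).prod
          = (∑ k, qc (u k) a a • ((X k : MvPolynomial (Fin N) K) • (1 : Mt K N)))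
            * (r.map (gm u)).prod := by
        rw [List.map_cons, List.prod_cons, ← mul_assoc, (rel_gm u).sq a]
      rw [h1]
      refine StrA_rel_mul u _ _ a (a :: r) r hl'.2 ?_ ?_
      · rw [List.length_cons]; omega
      · intro x hx
        exact Or.inr (List.mem_cons_of_mem _ hx)
    · have h1 : gm u a * ((b :: r).map (gm u)).prod
          = (∑ k, qc (u k) a b • ((X k : MvPolynomial (Fin N) K) • (1 : Mt K N)))
            * (r.map (gm u)).prod - gm u b * (gm u a * (r.map (gm u)).prod) := by
        rw [List.map_cons, List.prod_cons, ← (rel_gm u).anti a b (ne_of_gt hab)]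
        rw [add_mul, mul_assoc, mul_assoc, add_sub_cancel_right]
      rw [h1]
      refine Submodule.sub_mem _ ?_ ?_
      · refine StrA_rel_mul u _ _ a (b :: r) r hl'.2 ?_ ?_
        · rw [List.length_cons]; omega
        · intro x hx
          exact Or.inr (List.mem_cons_of_mem _ hx)
      · have h2 := ih a hl'.2
        have h3 : Submodule.span K (incA u (r.length + 1) a r) ≤
            (Submodule.span K (incA u ((b :: r).length + 1) a (b :: r))).comap
              (LinearMap.mulLeft K (gm u b)) := by
          rw [Submodule.span_le]
          rintro z ⟨α, l', h4, h5, h6, rfl⟩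
          rw [SetLike.mem_coe, Submodule.mem_comap, LinearMap.mulLeft_apply, StrA_gm_word]
          refine Submodule.subset_span ⟨α, b :: l', ?_, ?_, ?_, rfl⟩
          · refine List.pairwise_cons.2 ⟨?_, h4⟩
            intro x hx
            rcases h6 x hx with h | h
            · rw [h]; exact hab
            · exact hl'.1 x h
          · rw [List.length_cons, List.length_cons]
            omega
          · intro x hx
            rcases List.mem_cons.1 hx with h | h
            · right
              rw [h]
              exact List.mem_cons_self
            · rcases h6 x h with h' | h'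
              · exact Or.inl h'
              · exact Or.inr (List.mem_cons_of_mem _ h')
        have h4 := h3 h2
        rw [Submodule.mem_comap, LinearMap.mulLeft_apply] at h4
        exact h4

private lemma StrA_all (u : Fin N → MvPolynomial (Fin N) K) (l : List (Fin N)) :
    ∀ α : Fin N →₀ ℕ, word u α l ∈
      Submodule.span K (incS u (2 * Finsupp.degree α + l.length)) := by
  induction l with
  | nil =>
    intro α
    exact Submodule.subset_span ⟨α, [], List.Pairwise.nil, rfl, rfl⟩
  | cons a l ih =>
    intro α
    rw [← StrA_gm_word]
    have h3 : Submodule.span K (incS u (2 * Finsupp.degree α + l.length)) ≤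
        (Submodule.span K (incS u (2 * Finsupp.degree α + (a :: l).length))).comap
          (LinearMap.mulLeft K (gm u a)) := by
      rw [Submodule.span_le]
      rintro z ⟨β, l', h4, h5, rfl⟩
      rw [SetLike.mem_coe, Submodule.mem_comap, LinearMap.mulLeft_apply]
      have h6 : gm u a * word u β l' =
          (monomial β (1 : K)) • (gm u a * (l'.map (gm u)).prod) := by
        unfold word
        rw [mul_smul_comm]
      rw [h6]
      have h7 := StrA_key u l' a h4
      have h8 : Submodule.span K (incA u (l'.length + 1) a l') ≤
          (Submodule.span K (incS u (2 * Finsupp.degree α + (a :: l).length))).comap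
            (LinearMap.lsmul (MvPolynomial (Fin N) K) (Mt K N) (monomial β (1 : K)) |>.restrictScalars K) := by
        rw [Submodule.span_le]
        rintro z ⟨γ, l'', h9, h10, h11, rfl⟩
        rw [SetLike.mem_coe, Submodule.mem_comap]
        change (monomial β (1 : K)) • word u γ l'' ∈ _
        rw [StrA_smul_word]
        refine Submodule.subset_span ⟨β + γ, l'', h9, ?_, rfl⟩
        rw [map_add, List.length_cons]
        omega
      have h9 := h8 h7
      rw [Submodule.mem_comap] at h9
      exact h9
    have h4 := h3 (ih α)
    rw [Submodule.mem_comap, LinearMap.mulLeft_apply] at h4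
    exact h4

theorem AG_le_incr (u : Fin N → MvPolynomial (Fin N) K) (n : ℕ) :
    AG u n ≤ Submodule.span K {z | ∃ α l, l.Pairwise (· < ·) ∧
      2 * Finsupp.degree α + l.length = n ∧ z = word u α l} := by
  unfold AG
  rw [Submodule.span_le]
  rintro z ⟨α, l, h1, rfl⟩
  have h2 := StrA_all u l α
  rw [h1] at h2
  exact h2

end Pool.Agent.EGH51
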