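import Mathlib
import Pool.Agent.EGH51.Defs
import Pool.Agent.EGH51.StrA

/-!
# Module STRB: bound for the dimension of the graded pieces

PROOF.  The words with `l` increasing and `2 |α| + l.length = n` are indexed by the exponents `β : Fin N →₀ ℕ` of degree `n` via
`β = 2 • α + (indicator function of l)`, i.e. `α i = β i / 2`, `l = ` the sorted list of the `i` with `β i` odd.  So `AG u n` is contained in the range of the linear map from
`homogeneousSubmodule (Fin N) K n` (basis: monomials `β`) sending `β` to its word; or: it is contained in the span of the image of the finite set of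
exponents of degree `n`, whose cardinality is `finrank (homogeneousSubmodule …)` (`finrank_span_finset_le_card`, `homogeneousSubmodule_eq_finsupp_supported`).
`MvPolynomial.basisMonomials … .constr` gives a linear map `Φ : MvPolynomial (Fin N) K →ₗ Mt K N` with `Φ (monomial β 1) = word …`; `AG u n ≤ (homogeneousSubmodule n).map Φ`.
-/

set_option autoImplicit false
set_option linter.all false

noncomputable section

namespace Pool.Agent.EGH51

open Module MvPolynomial Pool.Agent.CB

variable {K : Type*} [Field K] {N : ℕ}

/-- halves of the exponents -/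
private def hf (β : Fin N →₀ ℕ) : Fin N →₀ ℕ := β.mapRange (fun m => m / 2) (by norm_num)

/-- the increasing list of the odd exponents -/
private def od (β : Fin N →₀ ℕ) : List (Fin N) :=
  (Finset.univ.filter (fun i => β i % 2 = 1)).sort (· ≤ ·)

private def bet (α : Fin N →₀ ℕ) (l : List (Fin N)) : Fin N →₀ ℕ :=
  2 • α + Finsupp.equivFunOnFinite.symm (fun i => if i ∈ l then 1 else 0)

private lemma bet_apply (α : Fin N →₀ ℕ) (l : List (Fin N)) (i : Fin N) :
    bet α l i = 2 * α i + if i ∈ l then 1 else 0 := by
  simp [bet]

private lemma hf_bet (α : Fin N →₀ ℕ) (l : List (Fin N)) : hf (bet α l) = α := by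
  ext i
  rw [hf, Finsupp.mapRange_apply, bet_apply]
  split_ifs <;> omega

private lemma od_bet (α : Fin N →₀ ℕ) (l : List (Fin N)) (hl : l.Pairwise (· < ·)) :
    od (bet α l) = l := by
  have hnd : l.Nodup := hl.imp (fun h => ne_of_lt h)
  have h1 : (Finset.univ.filter (fun i => bet α l i % 2 = 1)) = l.toFinset := by
    ext i
    rw [Finset.mem_filter, List.mem_toFinset, bet_apply]
    by_cases h : i ∈ l
    · rw [if_pos h]
      simp only [Finset.mem_univ, true_and, h, iff_true]
      omega
    · rw [if_neg h]
      simp only [Finset.mem_univ, true_and, h, iff_false]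
      omega
  rw [od, h1]
  refine List.Perm.eq_of_pairwise (le := (· ≤ ·)) (fun a b _ _ h1 h2 => le_antisymm h1 h2) ?_ ?_ ?_
  · exact Finset.pairwise_sort _ _
  · exact hl.imp (fun h => le_of_lt h)
  · rw [List.perm_ext_iff_of_nodup (Finset.sort_nodup _ _) hnd]
    intro a
    simp

private lemma degree_bet (α : Fin N →₀ ℕ) (l : List (Fin N)) (hl : l.Pairwise (· < ·)) :
    Finsupp.degree (bet α l) = 2 * Finsupp.degree α + l.length := by
  have hnd : l.Nodup := hl.imp (fun h => ne_of_lt h)
  have h1 : ∀ γ : Fin N →₀ ℕ, Finsupp.degree γ = ∑ i, γ i := by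
    intro γ
    rw [Finsupp.degree_eq_sum]
  rw [h1, h1]
  simp only [bet_apply]
  rw [Finset.sum_add_distrib, ← Finset.mul_sum]
  congr 1
  rw [← List.toFinset_card_of_nodup hnd, Finset.card_eq_sum_ones, ← Finset.sum_filter]
  congr 1
  ext i
  simp

private def Φ (u : Fin N → MvPolynomial (Fin N) K) : MvPolynomial (Fin N) K →ₗ[K] Mt K N :=
  (basisMonomials (Fin N) K).constr K (fun β => word u (hf β) (od β))

private lemma Φ_monomial (u : Fin N → MvPolynomial (Fin N) K) (β : Fin N →₀ ℕ) :
    Φ u (monomial β 1) = word u (hf β) (od β) := by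
  have := (basisMonomials (Fin N) K).constr_basis K (fun β => word u (hf β) (od β)) β
  rw [coe_basisMonomials] at this
  exact this

private lemma AG_le_map (u : Fin N → MvPolynomial (Fin N) K) (n : ℕ) :
    AG u n ≤ (homogeneousSubmodule (Fin N) K n).map (Φ u) := by
  refine (AG_le_incr u n).trans (Submodule.span_le.2 ?_)
  rintro z ⟨α, l, hl, hn, rfl⟩
  refine ⟨monomial (bet α l) 1, ?_, ?_⟩
  · rw [SetLike.mem_coe, mem_homogeneousSubmodule]
    exact isHomogeneous_monomial _ (by rw [degree_bet α l hl, hn])
  · rw [Φ_monomial, hf_bet, od_bet α l hl]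

private lemma finiteH (n : ℕ) : FiniteDimensional K (homogeneousSubmodule (Fin N) K n) := by
  rw [FiniteDimensional, Module.Finite.iff_fg]
  exact homogeneousSubmodule_fg (Fin N) K n

theorem finite_AG (u : Fin N → MvPolynomial (Fin N) K) (n : ℕ) : FiniteDimensional K (AG u n) := by
  haveI := finiteH (K := K) (N := N) n
  exact Submodule.finiteDimensional_of_le (AG_le_map u n)

theorem finrank_AG_le (u : Fin N → MvPolynomial (Fin N) K) (n : ℕ) :
    finrank K (AG u n) ≤ finrank K (homogeneousSubmodule (Fin N) K n) := by
  haveI := finiteH (K := K) (N := N) n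
  exact (Submodule.finrank_mono (AG_le_map u n)).trans (Submodule.finrank_map_le _ _)

end Pool.Agent.EGH51
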