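import Mathlib
import Pool.Agent.EGH51.Defs
import Pool.Agent.EGH51.DomB
import Pool.Agent.EGH51.Euler
import Pool.Agent.EGH51.DimH
import Pool.Agent.EGH51.StrB

/-!
# Module DOMC: Euler characteristic

PROOF.  `I := span (range u)` (`HI I`: `HI_span_quads` in `Exact.lean`).  Let `n0 i` be from `evt_exact hu a i`, `n1 := 2 + sup_{i ≤ N} n0 i`.  For `n ≥ n1` apply `euler` with
`D = Dop (gm u)`, `C p := HH I (N - p) (MM u a (n + p))` (natural subtraction).
`h1`: `Dop (gm u)` maps `HH I (j + 1) (MM u a n)` to `HH I j (MM u a (n + 1))` and `HH I 0 _` to `0` (`X a * f` is a sum of forms of positive degree).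
`h2`: `Dop_Dop (rel_gm u)`, `u k * f ∈ I`.  `h0`, `hex`: `evt_exact`; for `h0`: `HH I (N + 1) _ = ⊥` because `finrank_HH` and `hd I (N + 1) = N.choose (N + 1) = 0` (`hu.hf`).
`hN`: `C N = HH I 0 _`.  Finite dimension: `finite_HH`, `finite_AG` (`MM u a n ≤ AG u n`).
`finrank (C p) = hd I (N - p) * finrank (MM u a (n + p)) = (N.choose p) * …` for `p ≤ N` (`Nat.choose_symm`).
-/

set_option autoImplicit false
set_option linter.all false

noncomputable section

namespace Pool.Agent.EGH51

open Module MvPolynomial Pool.Agent.CB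

variable {K : Type*} [Field K] {N : ℕ}

theorem HH_Dop {u : Fin N → MvPolynomial (Fin N) K} {I : Ideal (MvPolynomial (Fin N) K)}
    {a : Mt K N} {j n : ℕ} {F : MvPolynomial (Fin N) K →ₗ[K] Mt K N}
    (hF : F ∈ HH I (j + 1) (MM u a n)) : Dop (gm u) F ∈ HH I j (MM u a (n + 1)) := by
  obtain ⟨h1, h2, h3⟩ := mem_HH.1 hF
  refine mem_HH.2 ⟨?_, ?_, ?_⟩
  · intro f hf
    rw [Dop_apply]
    refine Finset.sum_eq_zero fun b _ => ?_
    rw [h1 _ (I.mul_mem_left _ hf), zero_mul]
  · intro i hi f hf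
    rw [Dop_apply]
    refine Finset.sum_eq_zero fun b _ => ?_
    rw [h2 (1 + i) (by omega) _ ((isHomogeneous_X K b).mul hf), zero_mul]
  · intro f
    rw [Dop_apply]
    exact Submodule.sum_mem _ fun b _ => MM_gm (h3 _) b

theorem HH_zero_Dop {u : Fin N → MvPolynomial (Fin N) K} {I : Ideal (MvPolynomial (Fin N) K)}
    {T : Submodule K (Mt K N)} {F : MvPolynomial (Fin N) K →ₗ[K] Mt K N}
    (hF : F ∈ HH I 0 T) : Dop (gm u) F = 0 := by
  obtain ⟨h1, h2, h3⟩ := mem_HH.1 hF
  refine LinearMap.ext fun f => ?_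
  rw [Dop_apply, LinearMap.zero_apply]
  refine Finset.sum_eq_zero fun b _ => ?_
  have h4 : F (X b * f) = 0 := by
    rw [← f.sum_homogeneousComponent, Finset.mul_sum, map_sum]
    refine Finset.sum_eq_zero fun i _ => ?_
    exact h2 (1 + i) (by omega) _
      ((isHomogeneous_X K b).mul (homogeneousComponent_isHomogeneous i f))
  rw [h4, zero_mul]

theorem euler_MM {u : Fin N → MvPolynomial (Fin N) K} (hu : Quad u) (a : Mt K N) :
    ∃ n1, ∀ n, n1 ≤ n → ∑ p ∈ Finset.range (N + 1),
      (-1 : ℤ) ^ p * ((N.choose p : ℤ) * (finrank K (MM u a (n + p)) : ℤ)) = 0 := by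
  classical
  choose n0 hn0 using evt_exact hu a
  refine ⟨2 + ∑ i ∈ Finset.range (N + 1), n0 i, fun n hn => ?_⟩
  have hle : ∀ i, i ≤ N → n0 i + 2 ≤ n := by
    intro i hi
    have := Finset.single_le_sum (f := n0) (s := Finset.range (N + 1)) (fun _ _ => Nat.zero_le _)
      (Finset.mem_range.2 (Nat.lt_succ_of_le hi))
    omega
  have hI : HI (Ideal.span (Set.range u)) := HI_span_range u hu.hom
  have hfd : ∀ m, FiniteDimensional K (MM u a m) := by
    intro m
    haveI := finite_AG u m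
    exact Submodule.finiteDimensional_of_le (inf_le_left : MM u a m ≤ AG u m)
  have key := euler (Dop (gm u)) N
    (fun p => HH (Ideal.span (Set.range u)) (N - p) (MM u a (n + p)))
    (fun p => by
      haveI := hfd (n + p)
      exact finite_HH hI (N - p) (MM u a (n + p)))
    ?_ ?_ ?_ ?_ ?_
  · refine Eq.trans (Finset.sum_congr rfl fun p hp => ?_) key
    have hp' : p ≤ N := Nat.lt_succ_iff.1 (Finset.mem_range.1 hp)
    haveI := hfd (n + p)
    show _ = (-1 : ℤ) ^ p * (finrank K (HH (Ideal.span (Set.range u)) (N - p)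
      (MM u a (n + p))) : ℤ)
    rw [finrank_HH hI (N - p) (MM u a (n + p)), hu.hf, Nat.choose_symm hp', Nat.cast_mul]
  · intro p v hv
    by_cases hp : p < N
    · have e : N - p = (N - (p + 1)) + 1 := by omega
      have hv' : v ∈ HH (Ideal.span (Set.range u)) ((N - (p + 1)) + 1) (MM u a (n + p)) := by
        rw [← e]
        exact hv
      exact HH_Dop hv'
    · have e : N - p = 0 := by omega
      have hv' : v ∈ HH (Ideal.span (Set.range u)) 0 (MM u a (n + p)) := by
        rw [← e]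
        exact hv
      rw [HH_zero_Dop hv']
      exact Submodule.zero_mem _
  · intro p v hv
    refine LinearMap.ext fun f => ?_
    rw [Dop_Dop (rel_gm u) hu.hom, LinearMap.zero_apply]
    refine Finset.sum_eq_zero fun k _ => ?_
    rw [hv.1 _ (Ideal.mul_mem_right _ _ (Ideal.subset_span ⟨k, rfl⟩)), zero_mul]
  · intro v hv hD
    have h5 := hle N le_rfl
    obtain ⟨m, rfl⟩ : ∃ m, n = m + 2 := ⟨n - 2, by omega⟩
    obtain ⟨G, hG, rfl⟩ := hn0 N m (by omega) v hv hD
    haveI := hfd (m + 1)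
    haveI := finite_HH hI (N + 1) (MM u a (m + 1))
    have h6 : finrank K (HH (Ideal.span (Set.range u)) (N + 1) (MM u a (m + 1))) = 0 := by
      rw [finrank_HH hI, hu.hf, Nat.choose_succ_self, Nat.zero_mul]
    have h7 := Submodule.finrank_eq_zero.1 h6
    rw [h7, Submodule.mem_bot] at hG
    rw [hG, map_zero]
  · intro p hp v hv hD
    have h5 := hle (N - (p + 1)) (by omega)
    obtain ⟨m, hm⟩ : ∃ m, n + p = m + 1 := ⟨n + p - 1, by omega⟩
    have e1 : n + (p + 1) = m + 2 := by omega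
    have hv' : v ∈ HH (Ideal.span (Set.range u)) (N - (p + 1)) (MM u a (m + 2)) := by
      rw [← e1]
      exact hv
    obtain ⟨G, hG, hGv⟩ := hn0 (N - (p + 1)) m (by omega) v hv' hD
    refine ⟨G, ?_, hGv⟩
    have e2 : N - p = N - (p + 1) + 1 := by omega
    show G ∈ HH (Ideal.span (Set.range u)) (N - p) (MM u a (n + p))
    rw [e2, hm]
    exact hG
  · intro v hv
    have e : N - N = 0 := by omega
    have hv' : v ∈ HH (Ideal.span (Set.range u)) 0 (MM u a (n + N)) := by
      rw [← e]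
      exact hv
    exact HH_zero_Dop hv'

end Pool.Agent.EGH51
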