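import Mathlib
import Pool.Agent.EGH51.Defs
import Pool.Agent.EGH51.GradB
import Pool.Agent.EGH51.StrB
import Pool.Agent.EGH51.DimS

/-!
# Module DOMD: lower and upper bounds for the dimension of the annihilator

`Mt K N` is torsion free over `P = MvPolynomial (Fin N) K`: `p • z = 0`, `z ≠ 0` implies `p = 0` (look at a nonzero entry).
PROOF of `MM_low`.  `p ↦ p • b` is an injective `K`-linear map of `homogeneousSubmodule (Fin N) K k` into `MM u a (e + 2 * k)` (`smul_mem_AG`); `finrank_hom`.
PROOF of `MM_up`.  Rank-nullity for `z ↦ a * z` on `AG u (2 * k)` (`finrank_map_add_inf_ker` in `CB/CIBasic.lean`): `finrank (MM u a (2k)) + finrank (image) = finrank (AG u (2k))`,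
`≤ (2 * k + N - 1).choose (N - 1)` by `finrank_AG_le`, `finrank_hom`.  The image contains `a * (p • 1) = p • a` for all forms `p` of degree `k` (`p • 1 ∈ AG u (2 * k)`),
a space of dimension `(k + N - 1).choose (N - 1)` because `a ≠ 0`.
-/

set_option autoImplicit false
set_option linter.all false

noncomputable section

namespace Pool.Agent.EGH51

open Module MvPolynomial Pool.Agent.CB

variable {K : Type*} [Field K] {N : ℕ}

private def domD_map (b : Mt K N) : MvPolynomial (Fin N) K →ₗ[K] Mt K N where
  toFun p := p • b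
  map_add' p q := add_smul p q b
  map_smul' c p := by rw [RingHom.id_apply, smul_assoc]

private lemma domD_map_apply (b : Mt K N) (p : MvPolynomial (Fin N) K) :
    domD_map b p = p • b := rfl

private lemma domD_map_inj {b : Mt K N} (hb : b ≠ 0) : Function.Injective (domD_map b) := by
  rw [injective_iff_map_eq_zero]
  intro p hp
  rw [domD_map_apply] at hp
  by_contra h
  apply hb
  ext1 I J
  have h1 := congrFun (congrFun hp I) J
  rw [Matrix.smul_apply, smul_eq_mul, Matrix.zero_apply] at h1
  rw [Matrix.zero_apply]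
  exact (mul_eq_zero.mp h1).resolve_left h

private lemma domD_finrank (hN : 1 ≤ N) {b : Mt K N} (hb : b ≠ 0) (k : ℕ)
    {T : Submodule K (Mt K N)} (hT : FiniteDimensional K T)
    (h : (homogeneousSubmodule (Fin N) K k).map (domD_map b) ≤ T) :
    (k + N - 1).choose (N - 1) ≤ finrank K T := by
  rw [← finrank_hom K hN k,
    (Submodule.equivMapOfInjective (domD_map b) (domD_map_inj hb)
      (homogeneousSubmodule (Fin N) K k)).finrank_eq]
  exact Submodule.finrank_mono h

theorem MM_low (hN : 1 ≤ N) {u : Fin N → MvPolynomial (Fin N) K} {a b : Mt K N} {e : ℕ}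
    (hb : b ∈ AG u e) (hb0 : b ≠ 0) (hab : a * b = 0) (k : ℕ) :
    (k + N - 1).choose (N - 1) ≤ finrank K (MM u a (e + 2 * k)) := by
  haveI := finite_AG u (e + 2 * k)
  refine domD_finrank hN hb0 k (Submodule.finiteDimensional_of_le inf_le_left) ?_
  rintro _ ⟨p, hp, rfl⟩
  have hp' : p.IsHomogeneous k := (mem_homogeneousSubmodule _ _).1 hp
  rw [domD_map_apply, mem_MM]
  refine ⟨smul_mem_AG hb hp', ?_⟩
  rw [mul_smul_comm, hab, smul_zero]

theorem MM_up (hN : 1 ≤ N) {u : Fin N → MvPolynomial (Fin N) K} {a : Mt K N} (ha0 : a ≠ 0)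
    (k : ℕ) : finrank K (MM u a (2 * k)) + (k + N - 1).choose (N - 1) ≤
      (2 * k + N - 1).choose (N - 1) := by
  haveI := finite_AG u (2 * k)
  have e1 := finrank_map_add_inf_ker (LinearMap.mulLeft K a) (AG u (2 * k))
  have e2 : (k + N - 1).choose (N - 1) ≤
      finrank K ((AG u (2 * k)).map (LinearMap.mulLeft K a)) := by
    refine domD_finrank hN ha0 k inferInstance ?_
    rintro _ ⟨p, hp, rfl⟩
    have hp' : p.IsHomogeneous k := (mem_homogeneousSubmodule _ _).1 hp
    refine ⟨p • 1, ?_, ?_⟩
    · have := smul_mem_AG (one_mem_AG u) hp'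
      rwa [zero_add] at this
    · rw [LinearMap.mulLeft_apply, domD_map_apply, mul_smul_comm, mul_one]
  have e3 := finrank_AG_le u (2 * k)
  rw [finrank_hom K hN (2 * k)] at e3
  have e4 : MM u a (2 * k) = AG u (2 * k) ⊓ LinearMap.ker (LinearMap.mulLeft K a) := rfl
  rw [e4]
  omega

end Pool.Agent.EGH51
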