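import Mathlib
import Pool.Agent.EGH51.Defs

/-!
# Module GROW: integrality of the leading coefficient

PROOF.  Let `f n := (α n : ℤ)` and `Δ f n = f (n+1) - f n` (Mathlib: `fwdDiff`, `fwdDiff_iter_eq_sum_shift`, `shift_eq_sum_fwdDiff_iter`).  `hrec`
says `Δ^N f n = 0` for `n ≥ n1`.  So `Δ^{N-1} f` is a constant integer `ε` for `n ≥ n1` and by Newton's formula
`f (n1 + t) = ∑_{k < N} C(t, k) (Δ^k f)(n1)` for all `t ≥ 0`.  If `ε ≤ 0` then `f (n1 + t) ≤ A * (t + 1)^{N-2}` for a constant `A`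
(`N = 1`: `f (n1 + t) ≤ 0`), contradicting `low` for large `k` (`C(k + N - 1, N - 1) ≥ (k+1)^{N-1} / (N-1)!`).
If `ε ≥ 1`: `g n := C(n + N - 1, N - 1) - f n` satisfies the same recursion (`Δ^{N-1}` of `n ↦ C(n + N - 1, N - 1)` is `1`), with
`Δ^{N-1} g = 1 - ε ≤ 0`, and `g (2 k) ≥ C(k + N - 1, N - 1)` by `up`; same contradiction.
So prove first the lemma: no `g : ℕ → ℤ`, with `Δ^N g n = 0` for `n ≥ n1` and `Δ^{N-1} g n1 ≤ 0`, satisfies
`C(k + N - 1, N - 1) ≤ g (e + 2 k)` for all `k`.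
-/

set_option autoImplicit false
set_option linter.all false

namespace Pool.Agent.EGH51

/-- iterated differences of a function vanishing on `[n1, ∞)` vanish there -/
private lemma Grow_zero (f : ℕ → ℤ) (n1 : ℕ) (h : ∀ n, n1 ≤ n → f n = 0) (j : ℕ) :
    ∀ n, n1 ≤ n → (fwdDiff 1)^[j] f n = 0 := by
  induction j with
  | zero => simpa using h
  | succ j ih =>
    intro n hn
    rw [Function.iterate_succ_apply', fwdDiff, ih n hn, ih (n + 1) (by omega), sub_zero]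

private lemma Grow_zero' (f : ℕ → ℤ) (n1 M : ℕ) (h : ∀ n, n1 ≤ n → (fwdDiff 1)^[M + 1] f n = 0)
    (k : ℕ) (hk : M + 1 ≤ k) : (fwdDiff 1)^[k] f n1 = 0 := by
  obtain ⟨j, rfl⟩ := Nat.exists_eq_add_of_le hk
  rw [add_comm (M + 1) j, Function.iterate_add_apply]
  exact Grow_zero _ n1 h j n1 le_rfl

/-- upper bound for the values -/
private lemma Grow_upper (M : ℕ) (g : ℕ → ℤ) (n1 : ℕ)
    (h0 : ∀ n, n1 ≤ n → (fwdDiff 1)^[M + 1] g n = 0) (h1 : (fwdDiff 1)^[M] g n1 ≤ 0) (t : ℕ) :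
    ((t : ℤ) + 1) * g (n1 + t) ≤
      (∑ k ∈ Finset.range M, |(fwdDiff 1)^[k] g n1|) * ((t : ℤ) + 1) ^ M := by
  have hN : g (n1 + t) = ∑ k ∈ Finset.range (t + 1), t.choose k • (fwdDiff 1)^[k] g n1 := by
    have := shift_eq_sum_fwdDiff_iter (M := ℕ) (G := ℤ) 1 g t n1
    simpa using this
  -- compare with the sum over `range M`
  have hle : g (n1 + t) ≤ ∑ k ∈ Finset.range M, (t.choose k : ℤ) * |(fwdDiff 1)^[k] g n1| := by
    rw [hN]
    have h2 : ∑ k ∈ Finset.range (t + 1), t.choose k • (fwdDiff 1)^[k] g n1 =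
        ∑ k ∈ Finset.range (M + 1 + (t + 1)), t.choose k • (fwdDiff 1)^[k] g n1 := by
      refine Finset.sum_subset (Finset.range_subset_range.2 (by omega)) ?_
      intro k _ hk
      rw [Finset.mem_range, not_lt] at hk
      rw [Nat.choose_eq_zero_of_lt (by omega), zero_smul]
    have h3 : ∑ k ∈ Finset.range (M + 1), t.choose k • (fwdDiff 1)^[k] g n1 =
        ∑ k ∈ Finset.range (M + 1 + (t + 1)), t.choose k • (fwdDiff 1)^[k] g n1 := by
      refine Finset.sum_subset (Finset.range_subset_range.2 (by omega)) ?_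
      intro k _ hk
      rw [Finset.mem_range, not_lt] at hk
      rw [Grow_zero' g n1 M h0 k hk, smul_zero]
    rw [h2, ← h3, Finset.sum_range_succ]
    have h4 : t.choose M • (fwdDiff 1)^[M] g n1 ≤ 0 := by
      rw [nsmul_eq_mul]
      exact mul_nonpos_of_nonneg_of_nonpos (by positivity) h1
    have h5 : ∑ k ∈ Finset.range M, t.choose k • (fwdDiff 1)^[k] g n1 ≤
        ∑ k ∈ Finset.range M, (t.choose k : ℤ) * |(fwdDiff 1)^[k] g n1| := by
      refine Finset.sum_le_sum fun k _ => ?_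
      rw [nsmul_eq_mul]
      exact mul_le_mul_of_nonneg_left (le_abs_self _) (by positivity)
    linarith
  have ht : (0 : ℤ) ≤ (t : ℤ) + 1 := by positivity
  refine (mul_le_mul_of_nonneg_left hle ht).trans ?_
  rw [Finset.mul_sum, Finset.sum_mul]
  refine Finset.sum_le_sum fun k hk => ?_
  rw [Finset.mem_range] at hk
  have h6 : (t.choose k : ℤ) ≤ ((t : ℤ) + 1) ^ k := by
    have h7 : t.choose k ≤ (t + 1) ^ k :=
      (Nat.choose_le_pow t k).trans (Nat.pow_le_pow_left (Nat.le_succ t) k)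
    exact_mod_cast h7
  have h8 : ((t : ℤ) + 1) ^ (k + 1) ≤ ((t : ℤ) + 1) ^ M :=
    pow_le_pow_right₀ (by linarith [Int.natCast_nonneg t]) hk
  have h9 : 0 ≤ |(fwdDiff 1)^[k] g n1| := abs_nonneg _
  calc ((t : ℤ) + 1) * ((t.choose k : ℤ) * |(fwdDiff 1)^[k] g n1|)
      = |(fwdDiff 1)^[k] g n1| * (((t : ℤ) + 1) * (t.choose k : ℤ)) := by ring
    _ ≤ |(fwdDiff 1)^[k] g n1| * (((t : ℤ) + 1) * ((t : ℤ) + 1) ^ k) :=
        mul_le_mul_of_nonneg_left (mul_le_mul_of_nonneg_left h6 ht) h9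
    _ = |(fwdDiff 1)^[k] g n1| * ((t : ℤ) + 1) ^ (k + 1) := by ring
    _ ≤ |(fwdDiff 1)^[k] g n1| * ((t : ℤ) + 1) ^ M := mul_le_mul_of_nonneg_left h8 h9

private lemma Grow_key (M : ℕ) (g : ℕ → ℤ) (n1 : ℕ)
    (h0 : ∀ n, n1 ≤ n → (fwdDiff 1)^[M + 1] g n = 0) (h1 : (fwdDiff 1)^[M] g n1 ≤ 0) (e : ℕ)
    (low : ∀ k, ((k + M).choose M : ℤ) ≤ g (e + 2 * k)) : False := by
  set A : ℤ := ∑ k ∈ Finset.range M, |(fwdDiff 1)^[k] g n1| with hA
  have hA0 : 0 ≤ A := Finset.sum_nonneg fun k _ => abs_nonneg _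
  -- the bound on `t`
  have key : ∀ k t : ℕ, e + 2 * k = n1 + t →
      ((t : ℤ) + 1) ≤ (M.factorial : ℤ) * A * ((e : ℤ) + 2) ^ M := by
    intro k t hkt
    have h2 := Grow_upper M g n1 h0 h1 t
    rw [← hA, ← hkt] at h2
    have h3 : ((k : ℤ) + 1) ^ M ≤ (M.factorial : ℤ) * ((k + M).choose M : ℤ) := by
      have h4 := Nat.pow_le_choose (α := ℚ) M (k + M)
      rw [div_le_iff₀ (by positivity)] at h4
      have h5 : ((k + M + 1 - M : ℕ)) = k + 1 := by omega
      rw [h5] at h4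
      have h6 : ((k : ℚ) + 1) ^ M ≤ (M.factorial : ℚ) * ((k + M).choose M : ℚ) := by
        push_cast at h4
        linarith
      exact_mod_cast h6
    have ht : (0 : ℤ) < (t : ℤ) + 1 := by positivity
    have hk : (0 : ℤ) < (k : ℤ) + 1 := by positivity
    have hfac : (0 : ℤ) ≤ (M.factorial : ℤ) := by positivity
    have h7 : ((t : ℤ) + 1) * ((k : ℤ) + 1) ^ M ≤
        ((M.factorial : ℤ) * A * ((e : ℤ) + 2) ^ M) * ((k : ℤ) + 1) ^ M := by
      have h8 : ((t : ℤ) + 1) ^ M ≤ (((e : ℤ) + 2) * ((k : ℤ) + 1)) ^ M := by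
        refine pow_le_pow_left₀ ht.le ?_ M
        have h9 : ((e : ℤ) + 2 * k) = n1 + t := by exact_mod_cast hkt
        have h10 : (0 : ℤ) ≤ (n1 : ℤ) := by positivity
        have h11 : (0 : ℤ) ≤ (e : ℤ) * k := by positivity
        nlinarith
      calc ((t : ℤ) + 1) * ((k : ℤ) + 1) ^ M
          ≤ ((t : ℤ) + 1) * ((M.factorial : ℤ) * ((k + M).choose M : ℤ)) :=
            mul_le_mul_of_nonneg_left h3 ht.le
        _ = (M.factorial : ℤ) * (((t : ℤ) + 1) * ((k + M).choose M : ℤ)) := by ring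
        _ ≤ (M.factorial : ℤ) * (((t : ℤ) + 1) * g (e + 2 * k)) :=
            mul_le_mul_of_nonneg_left (mul_le_mul_of_nonneg_left (low k) ht.le) hfac
        _ ≤ (M.factorial : ℤ) * (A * ((t : ℤ) + 1) ^ M) :=
            mul_le_mul_of_nonneg_left h2 hfac
        _ ≤ (M.factorial : ℤ) * (A * (((e : ℤ) + 2) * ((k : ℤ) + 1)) ^ M) :=
            mul_le_mul_of_nonneg_left (mul_le_mul_of_nonneg_left h8 hA0) hfac
        _ = ((M.factorial : ℤ) * A * ((e : ℤ) + 2) ^ M) * ((k : ℤ) + 1) ^ M := by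
            rw [mul_pow]; ring
    exact le_of_mul_le_mul_right h7 (by positivity)
  -- choose `k` large
  have hB0 : 0 ≤ (M.factorial : ℤ) * A * ((e : ℤ) + 2) ^ M := by positivity
  obtain ⟨B, hB⟩ := Int.eq_ofNat_of_zero_le hB0
  have h12 := key (n1 + B) (e + n1 + 2 * B) (by ring)
  rw [hB] at h12
  push_cast at h12
  have h13 : (0 : ℤ) ≤ (n1 : ℤ) := by positivity
  have h14 : (0 : ℤ) ≤ (e : ℤ) := by positivity
  have h15 : (0 : ℤ) ≤ (B : ℤ) := by positivity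
  linarith

/-- differences of the binomial coefficient -/
private lemma Grow_choose (M c j : ℕ) (n : ℕ) :
    (fwdDiff 1)^[j] (fun x : ℕ => (((x + c).choose (j + M) : ℕ) : ℤ)) n =
      ((n + c).choose M : ℤ) := by
  have h := fwdDiff_iter_comp_add (M := ℕ) (G := ℤ) 1
    (fun x : ℕ => ((x.choose (j + M) : ℕ) : ℤ)) c j n
  have h2 := congrFun (fwdDiff_iter_choose M j) (n + c)
  exact h.trans h2

theorem grow (N : ℕ) (hN : 1 ≤ N) (α : ℕ → ℕ) (n1 : ℕ)
    (hrec : ∀ n, n1 ≤ n →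
      ∑ p ∈ Finset.range (N + 1), (-1 : ℤ) ^ p * ((N.choose p : ℤ) * (α (n + p) : ℤ)) = 0)
    (e : ℕ) (low : ∀ k, (k + N - 1).choose (N - 1) ≤ α (e + 2 * k))
    (up : ∀ k, α (2 * k) + (k + N - 1).choose (N - 1) ≤ (2 * k + N - 1).choose (N - 1)) :
    False := by
  obtain ⟨M, rfl⟩ : ∃ M, N = M + 1 := ⟨N - 1, by omega⟩
  simp only [Nat.add_sub_cancel, ← Nat.add_assoc] at low up
  set f : ℕ → ℤ := fun n => (α n : ℤ) with hf
  -- the recursion as a vanishing difference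
  have h0 : ∀ n, n1 ≤ n → (fwdDiff 1)^[M + 1] f n = 0 := by
    intro n hn
    have h := hrec n hn
    rw [fwdDiff_iter_eq_sum_shift]
    have h2 : ∑ k ∈ Finset.range (M + 1 + 1),
        ((-1 : ℤ) ^ (M + 1 - k) * ((M + 1).choose k : ℤ)) • f (n + k • 1) =
        (-1 : ℤ) ^ (M + 1) * ∑ p ∈ Finset.range (M + 1 + 1),
          (-1 : ℤ) ^ p * (((M + 1).choose p : ℤ) * (α (n + p) : ℤ)) := by
      rw [Finset.mul_sum]
      refine Finset.sum_congr rfl fun k hk => ?_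
      rw [Finset.mem_range] at hk
      have hk' : k ≤ M + 1 := by omega
      have h3 : (-1 : ℤ) ^ (M + 1 - k) = (-1 : ℤ) ^ (M + 1) * (-1 : ℤ) ^ k := by
        have h4 : (-1 : ℤ) ^ (M + 1) = (-1 : ℤ) ^ (M + 1 - k) * (-1 : ℤ) ^ k := by
          rw [← pow_add, Nat.sub_add_cancel hk']
        have h5 : (-1 : ℤ) ^ k * (-1 : ℤ) ^ k = 1 := by
          rw [← mul_pow]; simp
        rw [h4, mul_assoc, h5, mul_one]
      rw [h3, smul_eq_mul, smul_eq_mul, mul_one, hf]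
      ring
    rw [h2, h, mul_zero]
  rcases le_or_gt ((fwdDiff 1)^[M] f n1) 0 with h1 | h1
  · exact Grow_key M f n1 h0 h1 e fun k => by
      have := low k
      simp only [hf]
      exact_mod_cast this
  · -- the complementary sequence
    set b : ℕ → ℤ := fun x => (((x + M).choose M : ℕ) : ℤ) with hb
    set g : ℕ → ℤ := b + (-1 : ℤ) • f with hg
    have hbM : ∀ n, (fwdDiff 1)^[M] b n = 1 := by
      intro n
      have := Grow_choose 0 M M n
      simpa [hb] using this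
    have hbM1 : ∀ n, (fwdDiff 1)^[M + 1] b n = 0 := by
      intro n
      rw [Function.iterate_succ_apply', fwdDiff, hbM, hbM, sub_self]
    have hgj : ∀ j n, (fwdDiff 1)^[j] g n = (fwdDiff 1)^[j] b n - (fwdDiff 1)^[j] f n := by
      intro j n
      rw [hg, fwdDiff_iter_add, fwdDiff_iter_const_smul, Pi.add_apply, Pi.smul_apply]
      simp [sub_eq_add_neg]
    refine Grow_key M g n1 (fun n hn => ?_) ?_ 0 fun k => ?_
    · rw [hgj, hbM1, h0 n hn, sub_zero]
    · rw [hgj, hbM]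
      linarith
    · have h2 := up k
      have h3 : g (0 + 2 * k) = (((2 * k + M).choose M : ℕ) : ℤ) - (α (2 * k) : ℤ) := by
        simp only [hg, hb, hf, Pi.add_apply, Pi.smul_apply, zero_add]
        simp [sub_eq_add_neg]
      rw [h3]
      have h4 : ((α (2 * k) : ℤ)) + (((k + M).choose M : ℕ) : ℤ) ≤
          (((2 * k + M).choose M : ℕ) : ℤ) := by exact_mod_cast h2
      linarith

end Pool.Agent.EGH51
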