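import Mathlib
import Pool.Agent.EGH51.Defs
import Pool.Agent.EGH51.DomC
import Pool.Agent.EGH51.DomD
import Pool.Agent.EGH51.Grow
import Pool.Agent.EGH51.GradA

/-!
# Module DOM: the graded Clifford algebra is a domain

`N = 0`: `Mt K 0` consists of `1 × 1` matrices over a domain.  `N ≥ 1`: `grow` with `euler_MM`, `MM_low`, `MM_up`.
-/

set_option autoImplicit false
set_option linter.all false

noncomputable section

namespace Pool.Agent.EGH51

open Module MvPolynomial Pool.Agent.CB

variable {K : Type*} [Field K] {N : ℕ}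

theorem dom {u : Fin N → MvPolynomial (Fin N) K} (hu : Quad u) {d e : ℕ} {a b : Mt K N}
    (ha : a ∈ AG u d) (hb : b ∈ AG u e) (ha0 : a ≠ 0) (hb0 : b ≠ 0) : a * b ≠ 0 := by
  intro hab
  rcases Nat.eq_zero_or_pos N with hN | hN
  · subst hN
    have h1 : ∀ z : Mt K 0, z ≠ 0 → z ∅ ∅ ≠ 0 := by
      intro z hz h0
      apply hz
      ext I J : 2
      rw [Subsingleton.elim I ∅, Subsingleton.elim J ∅, h0]
      rfl
    have h2 := congrFun (congrFun hab ∅) ∅
    rw [Matrix.mul_apply, Finset.univ_unique, Finset.sum_singleton] at h2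
    have h3 : (default : Finset (Fin 0)) = ∅ := Subsingleton.elim _ _
    rw [h3, Matrix.zero_apply] at h2
    exact mul_ne_zero (h1 a ha0) (h1 b hb0) h2
  · obtain ⟨n1, h1⟩ := euler_MM hu a
    exact grow N hN (fun n => finrank K (MM u a n)) n1 h1 e (MM_low hN hb hb0 hab)
      (MM_up hN ha0)

end Pool.Agent.EGH51
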