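import Mathlib
import Pool.Agent.EGH51.Defs
import Pool.Agent.EGH51.QuadZ

/-!
# Module SLOTSA: the big system of quadrics

PROOF of `quad_big`.  `quad_of_NZ`: `IsHomogeneous.rename_isHomogeneous`; if `x` kills all `big u k` then for each `i` the point `a ↦ x (finProdFinEquiv (i, a))` kills all `u j`
(`eval_rename`), so it is `0`; every index is `finProdFinEquiv (i, a)`.
PROOF of `qc_big`.  `rename` of the injective map `a ↦ finProdFinEquiv (i, a)`: `coeff_rename_mapDomain` and `coeff_rename_eq_zero`.
-/

set_option autoImplicit false
set_option linter.all false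

noncomputable section

namespace Pool.Agent.EGH51

open Module MvPolynomial Pool.Agent.CB

universe v

/-- the quadrics `u_j` in `n` separate sets of variables -/
def big {K : Type v} [Field K] {n : ℕ} (u : Fin n → MvPolynomial (Fin n) K)
    (k : Fin (n * n)) : MvPolynomial (Fin (n * n)) K :=
  rename (fun a => finProdFinEquiv ((finProdFinEquiv.symm k).1, a))
    (u (finProdFinEquiv.symm k).2)

theorem quad_big {K : Type v} [Field K] [IsAlgClosed K] {n : ℕ}
    (u : Fin n → MvPolynomial (Fin n) K) (hu : ∀ k, (u k).IsHomogeneous 2)
    (hnz : ∀ x : Fin n → K, (∀ k, eval x (u k) = 0) → x = 0) : Quad (big u) := by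
  refine quad_of_NZ (fun k => ?_) (fun x hx => ?_)
  · unfold big
    exact (hu _).rename_isHomogeneous
  · have key : ∀ i : Fin n, (fun a => x (finProdFinEquiv (i, a))) = 0 := by
      intro i
      refine hnz _ fun j => ?_
      have h := hx (finProdFinEquiv (i, j))
      unfold big at h
      rw [eval_rename] at h
      simp only [Equiv.symm_apply_apply] at h
      exact h
    funext m
    obtain ⟨⟨i, a⟩, rfl⟩ := finProdFinEquiv.surjective m
    have := congrFun (key i) a
    simpa using this

theorem qc_big {K : Type v} [Field K] {n : ℕ} (u : Fin n → MvPolynomial (Fin n) K)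
    (i j i' i'' a b : Fin n) :
    qc (big u (finProdFinEquiv (i, j))) (finProdFinEquiv (i', a)) (finProdFinEquiv (i'', b)) =
      if i' = i ∧ i'' = i then qc (u j) a b else 0 := by
  have hinj : Function.Injective (fun a : Fin n => (finProdFinEquiv (i, a) : Fin (n * n))) := by
    intro a b hab
    have := finProdFinEquiv.injective hab
    simpa using this
  unfold qc big
  simp only [Equiv.symm_apply_apply]
  split_ifs with h
  · rw [h.1, h.2]
    have h1 : (Finsupp.single (finProdFinEquiv (i, a)) 1 +
        Finsupp.single (finProdFinEquiv (i, b)) 1 : Fin (n * n) →₀ ℕ) =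
        Finsupp.mapDomain (fun a : Fin n => (finProdFinEquiv (i, a) : Fin (n * n)))
          (Finsupp.single a 1 + Finsupp.single b 1) := by
      rw [Finsupp.mapDomain_add, Finsupp.mapDomain_single, Finsupp.mapDomain_single]
    rw [h1, coeff_rename_mapDomain _ hinj]
  · refine coeff_rename_eq_zero _ _ _ ?_
    intro w hw
    exfalso
    apply h
    constructor
    · by_contra hne
      have h2 : (Finsupp.mapDomain (fun a : Fin n => (finProdFinEquiv (i, a) : Fin (n * n))) w)
          (finProdFinEquiv (i', a)) = 0 := by
        refine Finsupp.mapDomain_notin_range _ _ ?_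
        rintro ⟨c, hc⟩
        have := finProdFinEquiv.injective hc
        simp at this
        exact hne this.1.symm
      rw [hw] at h2
      simp at h2
    · by_contra hne
      have h2 : (Finsupp.mapDomain (fun a : Fin n => (finProdFinEquiv (i, a) : Fin (n * n))) w)
          (finProdFinEquiv (i'', b)) = 0 := by
        refine Finsupp.mapDomain_notin_range _ _ ?_
        rintro ⟨c, hc⟩
        have := finProdFinEquiv.injective hc
        simp at this
        exact hne this.1.symm
      rw [hw] at h2
      simp at h2

end Pool.Agent.EGH51
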