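import Mathlib
import Pool.Agent.EGH51.Defs

/-!
# Module VAC: products of different generators are independent

PROOF.  Entry `(T, ∅)` of `(l.map (gm u)).prod` for `T.card = l.length`: it is `0` unless `l.Nodup` and `l.toFinset = T`, and then it is `1` or
`-1`.  Also entry `(T, ∅)` is `0` if `T.card > l.length`.  Induction on `l`: `(gm a * W) T ∅ = ∑_J gm a T J * W J ∅`; `gm a T J ≠ 0` only if
`J = T.erase a`, `a ∈ T` (creation) or `J = insert b T` (then `J.card = T.card + 1 > l.length`, so `W J ∅ = 0`).
Then look at the entry `((l t0).toFinset, ∅)` of the sum: it is `± F t0 ≠ 0`.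
-/

set_option autoImplicit false
set_option linter.all false

noncomputable section

namespace Pool.Agent.EGH51

open Module MvPolynomial Pool.Agent.CB

variable {K : Type*} [Field K] {N : ℕ}

private lemma Vac_entry (u : Fin N → MvPolynomial (Fin N) K) (a : Fin N) (T J : Finset (Fin N)) :
    gm u a T J = (if a ∈ T ∧ J = T.erase a then sgn a J else 0) +
      ∑ b ∈ Finset.univ.filter (fun b => a ≤ b),
        qq u a b * (if b ∉ T ∧ J = insert b T then sgn b T else 0) := by
  simp only [gm, Matrix.add_apply, cre, Matrix.of_apply, Matrix.sum_apply, Matrix.smul_apply,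
    anh, smul_eq_mul]

private lemma Vac_ne (u : Fin N → MvPolynomial (Fin N) K) (a : Fin N) (T J : Finset (Fin N))
    (h1 : ¬ (a ∈ T ∧ J = T.erase a)) (h2 : ∀ b, b ∉ T → J ≠ insert b T) : gm u a T J = 0 := by
  rw [Vac_entry, if_neg h1, zero_add]
  refine Finset.sum_eq_zero fun b _ => ?_
  rw [if_neg, mul_zero]
  rintro ⟨hb, hJ⟩
  exact h2 b hb hJ

private lemma Vac_erase (u : Fin N → MvPolynomial (Fin N) K) (a : Fin N) (T : Finset (Fin N))
    (h1 : a ∈ T) : gm u a T (T.erase a) = sgn a (T.erase a) := by
  rw [Vac_entry, if_pos ⟨h1, rfl⟩]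
  have : ∑ b ∈ Finset.univ.filter (fun b => a ≤ b),
        qq u a b * (if b ∉ T ∧ T.erase a = insert b T then sgn b T else 0) = 0 := by
    refine Finset.sum_eq_zero fun b _ => ?_
    rw [if_neg, mul_zero]
    rintro ⟨hb, hJ⟩
    have : b ∈ T.erase a := by rw [hJ]; exact Finset.mem_insert_self _ _
    exact hb (Finset.mem_of_mem_erase this)
  rw [this, add_zero]

private lemma Vac_big (u : Fin N → MvPolynomial (Fin N) K) : ∀ (l : List (Fin N))
    (T : Finset (Fin N)), l.length < T.card → ((l.map (gm u)).prod) T ∅ = 0 := by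
  intro l
  induction l with
  | nil =>
    intro T hT
    rw [List.map_nil, List.prod_nil, Matrix.one_apply, if_neg]
    rintro rfl
    simp at hT
  | cons a l ih =>
    intro T hT
    rw [List.map_cons, List.prod_cons, Matrix.mul_apply]
    rw [List.length_cons] at hT
    refine Finset.sum_eq_zero fun J _ => ?_
    by_cases h : l.length < J.card
    · rw [ih J h, mul_zero]
    · rw [Vac_ne u a T J, zero_mul]
      · rintro ⟨ha, rfl⟩
        apply h
        rw [Finset.card_erase_of_mem ha]
        omega
      · rintro b hb rfl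
        apply h
        rw [Finset.card_insert_of_notMem hb]
        omega

private lemma Vac_step (u : Fin N → MvPolynomial (Fin N) K) (a : Fin N) (l : List (Fin N))
    (T : Finset (Fin N)) (hT : T.card = l.length + 1) :
    (((a :: l).map (gm u)).prod) T ∅ =
      if a ∈ T then sgn a (T.erase a) * ((l.map (gm u)).prod) (T.erase a) ∅ else 0 := by
  rw [List.map_cons, List.prod_cons, Matrix.mul_apply]
  have hz : ∀ J, ¬ (a ∈ T ∧ J = T.erase a) →
      gm u a T J * ((l.map (gm u)).prod) J ∅ = 0 := by
    intro J hJ
    by_cases h : l.length < J.card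
    · rw [Vac_big u l J h, mul_zero]
    · rw [Vac_ne u a T J hJ, zero_mul]
      rintro b hb rfl
      apply h
      rw [Finset.card_insert_of_notMem hb]
      omega
  by_cases ha : a ∈ T
  · rw [if_pos ha, Finset.sum_eq_single (T.erase a)]
    · rw [Vac_erase u a T ha]
    · intro J _ hJ
      exact hz J fun h => hJ h.2
    · intro h
      exact absurd (Finset.mem_univ _) h
  · rw [if_neg ha]
    exact Finset.sum_eq_zero fun J _ => hz J fun h => ha h.1

private lemma Vac_top0 (u : Fin N → MvPolynomial (Fin N) K) : ∀ (l : List (Fin N))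
    (T : Finset (Fin N)), T.card = l.length → l.toFinset ≠ T →
      ((l.map (gm u)).prod) T ∅ = 0 := by
  intro l
  induction l with
  | nil =>
    intro T hT hne
    exfalso
    apply hne
    rw [List.length_nil, Finset.card_eq_zero] at hT
    rw [hT, List.toFinset_nil]
  | cons a l ih =>
    intro T hT hne
    rw [List.length_cons] at hT
    rw [Vac_step u a l T hT]
    split_ifs with ha
    · rw [ih (T.erase a), mul_zero]
      · rw [Finset.card_erase_of_mem ha]; omega
      · intro h
        apply hne
        rw [List.toFinset_cons, h, Finset.insert_erase ha]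
    · rfl

private lemma Vac_sgn (a : Fin N) (I : Finset (Fin N)) :
    (sgn a I : MvPolynomial (Fin N) K) = 1 ∨ (sgn a I : MvPolynomial (Fin N) K) = -1 :=
  neg_one_pow_eq_or _ _

private lemma Vac_top1 (u : Fin N → MvPolynomial (Fin N) K) : ∀ (l : List (Fin N)), l.Nodup →
      ((l.map (gm u)).prod) l.toFinset ∅ = 1 ∨ ((l.map (gm u)).prod) l.toFinset ∅ = -1 := by
  intro l
  induction l with
  | nil =>
    intro _
    left
    rw [List.map_nil, List.prod_nil, List.toFinset_nil, Matrix.one_apply, if_pos rfl]
  | cons a l ih =>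
    intro hnd
    have hT : (a :: l).toFinset.card = l.length + 1 := by
      rw [List.toFinset_card_of_nodup hnd, List.length_cons]
    rw [Vac_step u a l _ hT, if_pos (by simp)]
    rw [List.nodup_cons] at hnd
    have he : (a :: l).toFinset.erase a = l.toFinset := by
      rw [List.toFinset_cons, Finset.erase_insert]
      rw [List.mem_toFinset]
      exact hnd.1
    rw [he]
    rcases Vac_sgn (K := K) a l.toFinset with h | h <;> rcases ih hnd.2 with h' | h' <;>
      rw [h, h'] <;> simp

theorem vac_ne (u : Fin N → MvPolynomial (Fin N) K) {T : Type*} [Fintype T]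
    (l : T → List (Fin N)) (c : ℕ) (hlen : ∀ t, (l t).length = c) (hnd : ∀ t, (l t).Nodup)
    (hinj : ∀ t t', (l t).toFinset = (l t').toFinset → t = t') (F : T → K) (t0 : T)
    (hF : F t0 ≠ 0) : ∑ t, F t • ((l t).map (gm u)).prod ≠ 0 := by
  intro h0
  have h1 : (∑ t, F t • ((l t).map (gm u)).prod) (l t0).toFinset ∅ = 0 := by
    rw [h0]; rfl
  rw [Matrix.sum_apply, Finset.sum_eq_single t0] at h1
  · rw [Matrix.smul_apply] at h1
    rcases Vac_top1 u (l t0) (hnd t0) with h | h
    · rw [h, smul_eq_C_mul, mul_one, C_eq_zero] at h1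
      exact hF h1
    · rw [h, smul_eq_C_mul, mul_neg, mul_one, neg_eq_zero, C_eq_zero] at h1
      exact hF h1
  · intro t _ ht
    rw [Matrix.smul_apply, Vac_top0 u (l t), smul_zero]
    · rw [List.toFinset_card_of_nodup (hnd t0), hlen, hlen]
    · intro h
      exact ht (hinj _ _ h)
  · intro h
    exact absurd (Finset.mem_univ _) h

end Pool.Agent.EGH51
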