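import Mathlib
import Pool.Agent.EGH51.Defs
import Pool.Agent.EGH51.Dom
import Pool.Agent.EGH51.DivB
import Pool.Agent.EGH51.Vac
import Pool.Agent.EGH51.SlotsA

/-!
# Module SLOTS: `n` anticommuting copies in a division ring

PROOF.  `e := finProdFinEquiv`, `v := big u`; `dom (quad_big u hu hnz)` and `exists_div v` give `𝔇`, `φ`.
`g i a := φ ⟨gm v (e (i, a)), gm_mem_AA _ _⟩`, `s i j := φ ⟨X (e (i, j)) • 1, smul_mem_AA _ _ (one_mem _)⟩`.
`rel`, `anti`: from `rel_gm v` (an identity in `AA v`, apply `φ`) and `qc_big`; the sum over `Fin (n * n)` is a sum over pairs (`Equiv.sum_comp`, `Fintype.sum_prod_type`).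
`ne`: `vac_ne v (fun t => List.ofFn fun i => e (i, t i)) n`: lengths `n`, `Nodup` (`List.nodup_ofFn`), the set determines `t`; `φ` is injective and
`φ ⟨∑ t, F t • (…).prod, _⟩ = ∑ t, F t • (List.ofFn fun i => g i (t i)).prod` (`map_list_prod`, `List.map_ofFn`).
-/

set_option autoImplicit false
set_option linter.all false

noncomputable section

namespace Pool.Agent.EGH51

open Module MvPolynomial Pool.Agent.CB

universe v

private lemma Slots_sum {K : Type v} [Field K] {n : ℕ} (u : Fin n → MvPolynomial (Fin n) K)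
    {M : Type*} [AddCommGroup M] [Module K M] (S : Fin (n * n) → M) (i i'' a b : Fin n) :
    ∑ k, qc (big u k) (finProdFinEquiv (i, a)) (finProdFinEquiv (i'', b)) • S k =
      if i = i'' then ∑ j, qc (u j) a b • S (finProdFinEquiv (i, j)) else 0 := by
  rw [← Equiv.sum_comp finProdFinEquiv, Fintype.sum_prod_type]
  simp only [qc_big]
  split_ifs with h
  · subst h
    rw [Finset.sum_eq_single i]
    · simp
    · intro i' _ hi'
      refine Finset.sum_eq_zero fun j _ => ?_
      rw [if_neg, zero_smul]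
      rintro ⟨h1, _⟩
      exact hi' h1.symm
    · intro h
      exact absurd (Finset.mem_univ _) h
  · refine Finset.sum_eq_zero fun i' _ => Finset.sum_eq_zero fun j _ => ?_
    rw [if_neg, zero_smul]
    rintro ⟨h1, h2⟩
    exact h (h1.trans h2.symm)

theorem exists_slots {K : Type v} [Field K] [IsAlgClosed K] {n : ℕ}
    (u : Fin n → MvPolynomial (Fin n) K) (hu : ∀ k, (u k).IsHomogeneous 2)
    (hnz : ∀ x : Fin n → K, (∀ k, eval x (u k) = 0) → x = 0) :
    ∃ (𝔇 : Type v) (_ : DivisionRing 𝔇) (_ : Algebra K 𝔇) (g : Fin n → Fin n → 𝔇)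
      (s : Fin n → Fin n → 𝔇), SlotsIn u 𝔇 g s := by
  classical
  have hQ := quad_big u hu hnz
  obtain ⟨𝔇, i1, i2, φ, hφ⟩ := exists_div (big u)
    (fun d e a b ha hb ha0 hb0 => dom hQ ha hb ha0 hb0)
  have hX : ∀ k : Fin (n * n),
      (X k : MvPolynomial (Fin (n * n)) K) • (1 : Mt K (n * n)) ∈ AA (big u) :=
    fun k => smul_mem_AA (big u) _ (one_mem _)
  have hsq : ∀ c : Fin (n * n), φ ⟨gm (big u) c, gm_mem_AA _ _⟩ * φ ⟨gm (big u) c, gm_mem_AA _ _⟩
      = ∑ k, qc (big u k) c c • φ ⟨_, hX k⟩ := by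
    intro c
    have h1 : ∑ k, qc (big u k) c c • φ ⟨_, hX k⟩
        = φ (∑ k, qc (big u k) c c • (⟨_, hX k⟩ : AA (big u))) := by
      rw [map_sum]
      exact Finset.sum_congr rfl fun k _ => (map_smul φ _ _).symm
    rw [h1, ← map_mul]
    congr 1
    apply Subtype.ext
    have h2 := (rel_gm (big u)).sq c
    simp only [MulMemClass.coe_mul, AddSubmonoidClass.coe_finset_sum, SetLike.val_smul]
    exact h2
  have hanti : ∀ c d : Fin (n * n), c ≠ d →
      φ ⟨gm (big u) c, gm_mem_AA _ _⟩ * φ ⟨gm (big u) d, gm_mem_AA _ _⟩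
        + φ ⟨gm (big u) d, gm_mem_AA _ _⟩ * φ ⟨gm (big u) c, gm_mem_AA _ _⟩
      = ∑ k, qc (big u k) c d • φ ⟨_, hX k⟩ := by
    intro c d hcd
    have h1 : ∑ k, qc (big u k) c d • φ ⟨_, hX k⟩
        = φ (∑ k, qc (big u k) c d • (⟨_, hX k⟩ : AA (big u))) := by
      rw [map_sum]
      exact Finset.sum_congr rfl fun k _ => (map_smul φ _ _).symm
    rw [h1, ← map_mul, ← map_mul, ← map_add]
    congr 1
    apply Subtype.ext
    have h2 := (rel_gm (big u)).anti c d hcd
    simp only [MulMemClass.coe_mul, AddMemClass.coe_add, AddSubmonoidClass.coe_finset_sum,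
      SetLike.val_smul]
    exact h2
  refine ⟨𝔇, i1, i2, fun i a => φ ⟨gm (big u) (finProdFinEquiv (i, a)), gm_mem_AA _ _⟩,
    fun i j => φ ⟨_, hX (finProdFinEquiv (i, j))⟩, ?_, ?_, ?_⟩
  · intro i
    refine ⟨?_, ?_⟩
    · intro a
      rw [hsq, Slots_sum u (fun k => φ ⟨_, hX k⟩), if_pos rfl]
    · intro a b hab
      rw [hanti, Slots_sum u (fun k => φ ⟨_, hX k⟩), if_pos rfl]
      intro h
      apply hab
      have := finProdFinEquiv.injective h
      exact (Prod.ext_iff.mp this).2
  · intro i j hij a b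
    rw [hanti, Slots_sum u (fun k => φ ⟨_, hX k⟩), if_neg hij]
    intro h
    apply hij
    have := finProdFinEquiv.injective h
    exact (Prod.ext_iff.mp this).1
  · intro F hF h0
    obtain ⟨t0, ht0⟩ := Function.ne_iff.mp hF
    have h1 : φ (∑ t, F t • (List.ofFn fun i =>
        (⟨gm (big u) (finProdFinEquiv (i, t i)), gm_mem_AA _ _⟩ : AA (big u))).prod) = 0 := by
      rw [map_sum, ← h0]
      refine Finset.sum_congr rfl fun t _ => ?_
      rw [map_smul, map_list_prod, List.map_ofFn]
      rfl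
    have h2 := (map_eq_zero_iff φ hφ).mp h1
    have h3 := congrArg (AA (big u)).val h2
    rw [map_sum, map_zero] at h3
    refine vac_ne (big u) (fun t : Fin n → Fin n => List.ofFn fun i => finProdFinEquiv (i, t i)) n
      ?_ ?_ ?_ F t0 ht0 ?_
    · intro t
      exact List.length_ofFn
    · intro t
      rw [List.nodup_ofFn]
      intro i j hij
      have := finProdFinEquiv.injective hij
      exact (Prod.ext_iff.mp this).1
    · intro t t' htt
      funext i
      have h4 : finProdFinEquiv (i, t i) ∈ (List.ofFn fun i => finProdFinEquiv (i, t i)).toFinset := by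
        rw [List.mem_toFinset, List.mem_ofFn]
        exact ⟨i, rfl⟩
      beta_reduce at htt
      rw [htt, List.mem_toFinset, List.mem_ofFn] at h4
      obtain ⟨i', hi'⟩ := h4
      have := finProdFinEquiv.injective hi'
      have h5 := Prod.ext_iff.mp this
      have h6 : i' = i := h5.1
      have h7 : t' i' = t i := h5.2
      rw [← h7, h6]
    · rw [← h3]
      refine Finset.sum_congr rfl fun t _ => ?_
      rw [map_smul, map_list_prod, List.map_ofFn, List.map_ofFn]
      rfl

end Pool.Agent.EGH51
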