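import Mathlib
import Pool.Agent.EGH51.Defs
import Pool.Agent.EGH51.CoreB
import Pool.Agent.EGH51.Lead
import Pool.Agent.EGH51.Slots
import Pool.Agent.EGH51.QuadZ

/-!
# Module CORE: the simplicial complex of an ideal containing a complete intersection of quadrics
-/

set_option autoImplicit false
set_option linter.all false

noncomputable section

namespace Pool.Agent.EGH51

open Module MvPolynomial Pool.Agent.CB

universe v

theorem core_of_slots {K : Type v} [Field K] {n : ℕ} {u : Fin n → MvPolynomial (Fin n) K}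
    (hu : Quad u) {𝔇 : Type v} [DivisionRing 𝔇] [Algebra K 𝔇] {g s : Fin n → Fin n → 𝔇}
    (H : SlotsIn u 𝔇 g s) {J : Ideal (MvPolynomial (Fin n) K)} (hJ : HI J)
    (huJ : ∀ k, u k ∈ J) :
    ∃ Δ : Finset (Finset (Fin n)), (∀ U ∈ Δ, ∀ V, V ⊆ U → V ∈ Δ) ∧
      ∀ i, (Δ.filter (fun U => U.card = i)).card = hd J i := by
  classical
  have hIJ : Ideal.span (Set.range u) ≤ J := by
    rw [Ideal.span_le]
    rintro _ ⟨k, rfl⟩
    exact huJ k
  let E : ℕ → (MvPolynomial (Fin n) K →ₗ[K] 𝔇) →ₗ[𝔇] (Finset (Fin n) → 𝔇) := fun k =>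
    { toFun := ev g k
      map_add' := ev_add g k
      map_smul' := ev_smul g k }
  have hle : ∀ k, HD 𝔇 J k ≤ HD 𝔇 (Ideal.span (Set.range u)) k := by
    intro k F hF
    exact ⟨fun f hf => hF.1 f (hIJ hf), hF.2⟩
  obtain ⟨Δ, h1, h2⟩ := lead n (fun k => (HD 𝔇 J k).map (E k)) (by
    rintro k _ ⟨F, hF, rfl⟩ U hU
    change ev g k F U = 0
    rw [ev, if_neg hU]) (by
    rintro k i _ ⟨F, hF, rfl⟩
    refine ⟨E k (Dop (g i) F), ⟨Dop (g i) F, HD_Dop (g i) hF, rfl⟩, ?_⟩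
    intro V hV
    exact ev_Dop hu.hom H i (hle (k + 1) hF).1 V hV)
  refine ⟨Δ, h1, fun i => ?_⟩
  rw [h2 i, ← finrank_HD 𝔇 hJ i]
  have h3 : Function.Injective ((E i).domRestrict (HD 𝔇 J i)) := by
    rintro ⟨F, hF⟩ ⟨G, hG⟩ h0
    have h5 : ev g i (F - G) = 0 := by
      have h6 : E i (F - G) = 0 := by
        rw [map_sub]
        exact sub_eq_zero.2 h0
      exact h6
    exact Subtype.ext (sub_eq_zero.1 (ev_inj hu H (hle i (Submodule.sub_mem _ hF hG)) h5))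
  have h4 := LinearMap.finrank_range_of_inj h3
  rw [LinearMap.range_domRestrict] at h4
  exact h4

theorem core {K : Type v} [Field K] [IsAlgClosed K] {n : ℕ}
    (u : Fin n → MvPolynomial (Fin n) K) (hu : ∀ k, (u k).IsHomogeneous 2)
    (hnz : ∀ x : Fin n → K, (∀ k, eval x (u k) = 0) → x = 0)
    {J : Ideal (MvPolynomial (Fin n) K)} (hJ : HI J) (huJ : ∀ k, u k ∈ J) :
    ∃ Δ : Finset (Finset (Fin n)), (∀ U ∈ Δ, ∀ V, V ⊆ U → V ∈ Δ) ∧
      ∀ i, (Δ.filter (fun U => U.card = i)).card = hd J i := by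
  obtain ⟨𝔇, _, _, g, s, H⟩ := exists_slots u hu hnz
  exact core_of_slots (quad_of_NZ hu hnz) H hJ huJ

end Pool.Agent.EGH51
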