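import Mathlib
import Pool.Agent.EGH51.Core
import Pool.Agent.EGH51.ArtRed
import Pool.Agent.EGH51.BaseC

/-!
# Subschemes of complete intersections of quadrics

The Hilbert function of a subscheme of a zero-dimensional complete intersection of `c` quadrics in
projective `c`-space counts the faces of a simplicial complex on `c` vertices.
-/

set_option autoImplicit false
set_option linter.all false

noncomputable section

namespace Pool.Agent.EGH51

open Module MvPolynomial Pool.Agent.CB

universe v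

lemma card_filter_le {c : ℕ} (Δ : Finset (Finset (Fin c))) (n : ℕ) :
    (Δ.filter (fun U => U.card ≤ n + 1)).card =
      (Δ.filter (fun U => U.card = n + 1)).card + (Δ.filter (fun U => U.card ≤ n)).card := by
  classical
  rw [← Finset.card_union_of_disjoint]
  · congr 1
    ext U
    simp only [Finset.mem_filter, Finset.mem_union]
    constructor
    · rintro ⟨h1, h2⟩
      rcases Nat.lt_or_ge n U.card with h3 | h3
      · exact Or.inl ⟨h1, by omega⟩
      · exact Or.inr ⟨h1, h3⟩
    · rintro (⟨h1, h2⟩ | ⟨h1, h2⟩)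
      · exact ⟨h1, by omega⟩
      · exact ⟨h1, by omega⟩
  · rw [Finset.disjoint_filter]
    intro U _ h1 h2
    omega

theorem alg_complex (K : Type v) [Field K] [IsAlgClosed K] (c : ℕ)
    (F : ℕ → MvPolynomial (Fin (c+1)) K)
    (hF : ∀ i ∈ Finset.Icc 1 c, (F i).IsHomogeneous 2)
    (hfin : ∀ j : Fin (c+1), Set.Finite {x : Fin (c+1) → K |
        x j = 1 ∧ ∀ i ∈ Finset.Icc 1 c, MvPolynomial.eval x (F i) = 0})
    (J : Ideal (MvPolynomial (Fin (c+1)) K)) (hJh : HI J)
    (hsat : ∀ f : MvPolynomial (Fin (c+1)) K,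
        (∃ N : ℕ, ∀ i : Fin (c+1), MvPolynomial.X i ^ N * f ∈ J) → f ∈ J)
    (hFJ : ∀ i ∈ Finset.Icc 1 c, F i ∈ J) :
    ∃ Δ : Finset (Finset (Fin c)), (∀ U ∈ Δ, ∀ V, V ⊆ U → V ∈ Δ) ∧
      ∀ n, hd J n = (Δ.filter (fun U => U.card ≤ n)).card := by
  classical
  by_cases hJ1 : (1 : MvPolynomial (Fin (c+1)) K) ∈ J
  · refine ⟨∅, fun U hU => absurd hU (Finset.notMem_empty U), fun n => ?_⟩
    rw [Finset.filter_empty, Finset.card_empty, hd_eq_zero_iff]
    intro f _
    have := J.mul_mem_left f hJ1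
    rwa [mul_one] at this
  have hinf : Infinite K := IsAlgClosed.instInfinite
  let Z : Set (Fin (c+1) → K) := ⋃ j : Fin (c+1), {x : Fin (c+1) → K |
        x j = 1 ∧ ∀ i ∈ Finset.Icc 1 c, MvPolynomial.eval x (F i) = 0}
  have hZ : Z.Finite := Set.finite_iUnion hfin
  have hZ0 : ∀ x ∈ Z, x ≠ 0 := by
    intro x hx h0
    obtain ⟨j, hj⟩ := Set.mem_iUnion.1 hx
    have := hj.1
    rw [h0] at this
    simp at this
  obtain ⟨a, ha⟩ := exists_lf Z hZ hZ0
  have hlh : (lf a).IsHomogeneous 1 := lf_hom a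
  have hnz : ∀ x : Fin (c+1) → K, (∀ i ∈ Finset.Icc 1 c, eval x (F i) = 0) →
      eval x (lf a) = 0 → x = 0 := by
    intro x hx hxl
    by_contra hx0
    obtain ⟨j, hj⟩ : ∃ j, x j ≠ 0 := by
      by_contra hcon
      push Not at hcon
      exact hx0 (funext hcon)
    have hy : (fun i => (x j)⁻¹ * x i) ∈ Z := by
      refine Set.mem_iUnion.2 ⟨j, inv_mul_cancel₀ hj, fun i hi => ?_⟩
      rw [eval_smul_hom (hF i hi), hx i hi, mul_zero]
    apply ha _ hy
    rw [eval_smul_hom hlh, hxl, mul_zero]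
  have hl0 : lf a ≠ 0 := by
    intro h0
    apply hJ1
    have hX : ∀ i : Fin (c+1), (X i : MvPolynomial (Fin (c+1)) K) ∈ J.radical := by
      intro i
      rw [← MvPolynomial.vanishingIdeal_zeroLocus_eq_radical (K := K)]
      intro x hx
      have hx' : ∀ g ∈ J, aeval x g = 0 := hx
      have hx0 : x = 0 := by
        apply hnz
        · intro i hi
          have := hx' _ (hFJ i hi)
          rwa [aeval_eval_eq] at this
        · rw [h0, map_zero]
      simp [hx0]
    apply hsat
    choose n hn using hX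
    refine ⟨Finset.univ.sup n, fun i => ?_⟩
    have h3 : n i ≤ Finset.univ.sup n := Finset.le_sup (Finset.mem_univ i)
    rw [mul_one, ← Nat.sub_add_cancel h3, pow_add]
    exact J.mul_mem_left _ (hn i)
  have hreg : NZD J (lf a) := by
    refine regular_of_no_zero J hsat (lf a) fun x hx hxl => ?_
    exact hnz x (fun i hi => hx _ (hFJ i hi)) hxl
  obtain ⟨j, hj⟩ : ∃ j, a j ≠ 0 := by
    by_contra hcon
    push Not at hcon
    apply hl0
    simp [lf, hcon]
  have hF' : ∀ k : Fin c, (rho a j (F (k.val + 1))).IsHomogeneous 2 :=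
    fun k => rho_hom a j (hF _ (Finset.mem_Icc.2 ⟨by omega, by omega⟩))
  have hF'J : ∀ k : Fin c, rho a j (F (k.val + 1)) ∈
      (J ⊔ Ideal.span {lf a}).map (rho a j) := by
    intro k
    exact Ideal.mem_map_of_mem _ (Ideal.mem_sup_left
      (hFJ _ (Finset.mem_Icc.2 ⟨by omega, by omega⟩)))
  have hnz' : ∀ x : Fin c → K, (∀ k : Fin c, eval x (rho a j (F (k.val + 1))) = 0) → x = 0 := by
    intro x hx
    let y : Fin (c+1) → K := fun i => eval x (rho a j (X i))
    have hy : ∀ f, eval x (rho a j f) = eval y f := by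
      intro f
      have : ((eval x : MvPolynomial (Fin c) K →+* K).comp
          (rho a j : MvPolynomial (Fin (c+1)) K →+* MvPolynomial (Fin c) K)) =
          (eval y : MvPolynomial (Fin (c+1)) K →+* K) := by
        apply MvPolynomial.ringHom_ext
        · intro b
          simp [y, rho]
        · intro i
          simp [y]
      exact congrArg (fun k : MvPolynomial (Fin (c+1)) K →+* K => k f) this
    have hy0 : y = 0 := by
      apply hnz
      · intro i hi
        rw [← hy]
        rw [Finset.mem_Icc] at hi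
        have := hx ⟨i - 1, by omega⟩
        have e : i - 1 + 1 = i := by omega
        simp only [e] at this
        exact this
      · rw [← hy, rho_lf a j hj, map_zero]
    funext i
    have h1 : y (j.succAbove i) = x i := by
      change eval x (rho a j (X (j.succAbove i))) = x i
      rw [rho_X_succ, eval_X]
    rw [← h1, hy0]
    rfl
  obtain ⟨Δ, hΔ, hc⟩ := core (fun k : Fin c => rho a j (F (k.val + 1))) hF' hnz'
    (HI_map_rho a j (HI_sup hJh (HI_span hlh))) hF'J
  refine ⟨Δ, hΔ, fun n => ?_⟩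
  induction n with
  | zero =>
    rw [← hd_res_zero a j hj hJh, ← hc]
    simp only [Nat.le_zero]
  | succ n ih =>
    rw [← hd_res a j hj hJh hreg n, ih, ← hc, card_filter_le]

/-- the squares of the linear forms and the quadrics -/
lemma exists_quads {K : Type v} [Field K] {c : ℕ} (Q : ℕ → MvPolynomial (Fin (c+1)) K)
    (hQ : ∀ i ∈ Finset.Icc 1 c, (Q i).IsHomogeneous 1 ∨ (Q i).IsHomogeneous 2) :
    ∃ Q' : ℕ → MvPolynomial (Fin (c+1)) K,
      (∀ i ∈ Finset.Icc 1 c, (Q' i).IsHomogeneous 2) ∧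
      (∀ i, Q i ∣ Q' i) ∧ (∀ i, Q' i ∣ Q i * Q i) := by
  classical
  refine ⟨fun i => if (Q i).IsHomogeneous 1 then Q i * Q i else Q i, ?_, ?_, ?_⟩
  · intro i hi
    by_cases h2 : (Q i).IsHomogeneous 1
    · simp only [if_pos h2]
      exact h2.mul h2
    · simp only [if_neg h2]
      exact (hQ i hi).resolve_left h2
  · intro i
    by_cases h2 : (Q i).IsHomogeneous 1
    · simp only [if_pos h2]
      exact dvd_mul_right _ _
    · simp only [if_neg h2]
      exact dvd_rfl
  · intro i
    by_cases h2 : (Q i).IsHomogeneous 1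
    · simp only [if_pos h2]
      exact dvd_rfl
    · simp only [if_neg h2]
      exact dvd_mul_right _ _

theorem quad_complex (K : Type v) [Field K] (c : ℕ) (Q : ℕ → MvPolynomial (Fin (c+1)) K)
    (hQ : ∀ i ∈ Finset.Icc 1 c, (Q i).IsHomogeneous 1 ∨ (Q i).IsHomogeneous 2)
    (hfin : ∀ j : Fin (c+1), Set.Finite {x : Fin (c+1) → AlgebraicClosure K |
        x j = 1 ∧ ∀ i ∈ Finset.Icc 1 c, MvPolynomial.aeval x (Q i) = 0})
    (J : Ideal (MvPolynomial (Fin (c+1)) K)) (hJh : HI J)
    (hsat : ∀ f : MvPolynomial (Fin (c+1)) K,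
        (∃ N : ℕ, ∀ i : Fin (c+1), MvPolynomial.X i ^ N * f ∈ J) → f ∈ J)
    (hQJ : ∀ i ∈ Finset.Icc 1 c, Q i ∈ J) :
    ∃ Δ : Finset (Finset (Fin c)), (∀ U ∈ Δ, ∀ V, V ⊆ U → V ∈ Δ) ∧
      ∀ n, hd J n = (Δ.filter (fun U => U.card ≤ n)).card := by
  classical
  obtain ⟨Q', h1, h2, h3⟩ := exists_quads Q hQ
  have he : ∀ (x : Fin (c+1) → AlgebraicClosure K) (f : MvPolynomial (Fin (c+1)) K),
      eval x (ext K (AlgebraicClosure K) (c+1) f) = aeval x f := by
    intro x f
    rw [eval_map, aeval_def]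
  have h4 : ∀ i (x : Fin (c+1) → AlgebraicClosure K),
      eval x (ext K (AlgebraicClosure K) (c+1) (Q' i)) = 0 ↔ aeval x (Q i) = 0 := by
    intro i x
    rw [he]
    constructor
    · intro h
      obtain ⟨r, hr⟩ := h3 i
      have := congrArg (aeval x) hr
      rw [map_mul, map_mul, h, zero_mul] at this
      exact mul_self_eq_zero.1 this
    · intro h
      obtain ⟨r, hr⟩ := h2 i
      rw [hr, map_mul, h, zero_mul]
  obtain ⟨Δ, hΔ, hc⟩ := alg_complex (AlgebraicClosure K) c
    (fun i => ext K (AlgebraicClosure K) (c+1) (Q' i)) (fun i hi => (h1 i hi).map _) (by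
      intro j
      simp only [h4]
      exact hfin j) (J.map (ext K (AlgebraicClosure K) (c+1))) (HI_ext hJh) (sat_ext hsat) (by
      intro i hi
      obtain ⟨r, hr⟩ := h2 i
      apply Ideal.mem_map_of_mem
      rw [hr]
      exact J.mul_mem_right _ (hQJ i hi))
  exact ⟨Δ, hΔ, fun n => by rw [← hc n, hd_ext hJh]⟩

end Pool.Agent.EGH51
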