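import Mathlib
import Pool.Agent.EGH51.FinQ

/-!
# Cayley-Bacharach bound for subschemes of complete intersections of quadrics (MP_47ab85_ag)
-/

set_option autoImplicit false
set_option linter.all false

noncomputable section

namespace Pool.Agent.EGH51

open Module MvPolynomial Pool.Agent.CB

/-- a simplicial complex with more faces than faces of size `≤ m` has at least `2 ^ (m + 1)` faces -/
lemma two_pow_le_card {n : ℕ} (Δ : Finset (Finset (Fin n))) (hΔ : ∀ U ∈ Δ, ∀ V, V ⊆ U → V ∈ Δ)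
    (m : ℕ) (hT : (Δ.filter (fun U => U.card ≤ m)).card < Δ.card) : 2 ^ (m + 1) ≤ Δ.card := by
  obtain ⟨U, hU, hUm⟩ : ∃ U ∈ Δ, m < U.card := by
    by_contra hcon
    push Not at hcon
    rw [Finset.filter_true_of_mem hcon] at hT
    omega
  obtain ⟨V, hV, hVc⟩ := Finset.exists_subset_card_eq (show m + 1 ≤ U.card by omega)
  have h1 : V.powerset ⊆ Δ := by
    intro W hW
    rw [Finset.mem_powerset] at hW
    exact hΔ U hU W (hW.trans hV)
  have h2 := Finset.card_le_card h1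
  rwa [Finset.card_powerset, hVc] at h2

/-- `∏ d i ≤ 2 ^ ∑ (d i - 1)` -/
lemma prod_le_two_pow (s : Finset ℕ) (d : ℕ → ℕ) :
    ∏ i ∈ s, d i ≤ 2 ^ ∑ i ∈ s, (d i - 1) := by
  classical
  induction s using Finset.induction_on with
  | empty => simp
  | insert a s ha ih =>
    rw [Finset.prod_insert ha, Finset.sum_insert ha, pow_add]
    refine Nat.mul_le_mul ?_ ih
    have : d a - 1 + 1 ≤ 2 ^ (d a - 1) := Nat.lt_two_pow_self
    omega

theorem main47 (K : Type) [Field K] (c : ℕ) (Q : ℕ → MvPolynomial (Fin (c+1)) K)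
    (hQ : ∀ i ∈ Finset.Icc 1 c, (Q i).IsHomogeneous 1 ∨ (Q i).IsHomogeneous 2)
    (hfin : ∀ j : Fin (c+1), Set.Finite {x : Fin (c+1) → AlgebraicClosure K |
        x j = 1 ∧ ∀ i ∈ Finset.Icc 1 c, MvPolynomial.aeval x (Q i) = 0})
    (J : Ideal (MvPolynomial (Fin (c+1)) K))
    (hJh : ∀ f ∈ J, ∀ n : ℕ, MvPolynomial.homogeneousComponent n f ∈ J)
    (hsat : ∀ f : MvPolynomial (Fin (c+1)) K,
        (∃ N : ℕ, ∀ i : Fin (c+1), MvPolynomial.X i ^ N * f ∈ J) → f ∈ J)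
    (hQJ : ∀ i ∈ Finset.Icc 1 c, Q i ∈ J)
    (h : ℕ → ℕ)
    (hh : ∀ n : ℕ, h n =
        Module.finrank K (MvPolynomial.homogeneousSubmodule (Fin (c+1)) K n) -
        Module.finrank K
          ↥(Submodule.restrictScalars K J ⊓ MvPolynomial.homogeneousSubmodule (Fin (c+1)) K n)) :
    (∃ Δ : Finset (Finset (Fin c)), (∀ U ∈ Δ, ∀ V, V ⊆ U → V ∈ Δ) ∧
      ∀ n, h n = (Δ.filter (fun U => U.card ≤ n)).card) ∧
    ∀ D : ℕ, (∃ N : ℕ, ∀ n ≥ N, h n = D) → ∀ m : ℕ, h m < D →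
      2 ^ (m + 1) ≤ D ∧
      ∀ (d : ℕ → ℕ) (k : ℕ), (∑ i ∈ Finset.Icc (k+2) c, (d i - 1)) ≤ m + 1 →
        (m + 1 - (∑ i ∈ Finset.Icc (k+2) c, (d i - 1)) + 1) * ∏ i ∈ Finset.Icc (k+2) c, d i
          ≤ D := by
  obtain ⟨Δ, hΔ, hc⟩ := quad_complex K c Q hQ hfin J hJh hsat hQJ
  have hc' : ∀ n, h n = (Δ.filter (fun U => U.card ≤ n)).card := by
    intro n
    rw [hh n, ← hc n]
    rfl
  refine ⟨⟨Δ, hΔ, hc'⟩, ?_⟩
  rintro D ⟨N, hN⟩ m hm
  have hD : Δ.card = D := by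
    have h1 := hN (max N c) (le_max_left _ _)
    rw [hc', Finset.filter_true_of_mem] at h1
    · exact h1
    · intro U _
      have := Finset.card_le_univ U
      rw [Fintype.card_fin] at this
      exact this.trans (le_max_right _ _)
  have h5 : 2 ^ (m + 1) ≤ D := by
    rw [← hD]
    apply two_pow_le_card Δ hΔ
    rw [hD, ← hc']
    exact hm
  refine ⟨h5, fun d k hm1 => ?_⟩
  refine le_trans ?_ h5
  have h6 := prod_le_two_pow (Finset.Icc (k+2) c) d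
  have h7 : m + 1 - ∑ i ∈ Finset.Icc (k+2) c, (d i - 1) + 1 ≤
      2 ^ (m + 1 - ∑ i ∈ Finset.Icc (k+2) c, (d i - 1)) := Nat.lt_two_pow_self
  refine (Nat.mul_le_mul h7 h6).trans (le_of_eq ?_)
  rw [← pow_add]
  congr 1
  omega

end Pool.Agent.EGH51
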